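import Pool.Agent.Lib.MP_961538_co.Logs

/-! Verified checker for one-variable inequalities with auxiliary logarithmic terms. -/

namespace Pool.Agent.Lib.MP_961538_co

structure Row where
  g1 : ℕ
  g2 : ℕ
  u01 : ℕ
  u02 : ℕ
  u11 : ℕ
  u12 : ℕ
  u21 : ℕ
  u22 : ℕ
  u31 : ℕ
  u32 : ℕ

def Gd (r : ℝ) : Prop := 0 < r ∧ r ≠ 1 ∧ r ≠ 2 ∧ r ^ 2 - 3 * r + 1 ≠ 0

noncomputable def aux (b0 b1 b2 b3 r : ℝ) : ℝ :=
  b0 * Real.log r + b1 * Real.log |r - 1| + b2 * Real.log |r - 2|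
    + b3 * Real.log |r ^ 2 - 3 * r + 1|

def uOK (A L M1 M2 u1 u2 : ℕ) : Bool :=
  Nat.ble (L + (M1 * SS / A + 1)) (44655667020 + u1) &&
    Nat.ble (L + (M2 * SS / A + 1)) (44655667020 + u2)

def uOK2 (A M1 M2 u1 u2 : ℕ) : Bool := uOK A (15 * SS + lgHi A) M1 M2 u1 u2

def uOK3 (M1 M2 u1 u2 : ℕ) : Bool := uOK2 ((M1 + M2) / 2 + 1) M1 M2 u1 u2

def ad (x y : ℕ) : ℕ := (x - y) + (y - x)

def rowOK (w : Row) : Bool :=
  Nat.ble w.g1 w.g2 &&
  uOK3 (w.g1 * SS) (w.g2 * SS) w.u01 w.u02 &&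
  uOK3 (ad w.g1 SS * SS) (ad w.g2 SS * SS) w.u11 w.u12 &&
  uOK3 (ad w.g1 (2 * SS) * SS) (ad w.g2 (2 * SS) * SS) w.u21 w.u22 &&
  uOK3 (ad (w.g1 * w.g1 + SS * SS) (3 * w.g1 * SS) + ((w.g2 - w.g1) * (w.g2 - w.g1) / 4 + 1))
    (ad (w.g2 * w.g2 + SS * SS) (3 * w.g2 * SS) + ((w.g2 - w.g1) * (w.g2 - w.g1) / 4 + 1))
    w.u31 w.u32

def tblOK : ℕ → List Row → ℕ → Bool
  | g, [], e => Nat.ble e g
  | g, w :: T, e => Nat.ble w.g1 g && rowOK w && tblOK w.g2 T e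

lemma ad_cast (x y : ℕ) : (ad x y : ℝ) = |(x : ℝ) - y| := by
  unfold ad
  rcases le_total x y with h | h
  · have h' : (x : ℝ) ≤ y := by exact_mod_cast h
    rw [Nat.sub_eq_zero_of_le h, zero_add, Nat.cast_sub h, abs_of_nonpos (by linarith)]; ring
  · have h' : (y : ℝ) ≤ x := by exact_mod_cast h
    rw [Nat.sub_eq_zero_of_le h, add_zero, Nat.cast_sub h, abs_of_nonneg (by linarith)]

lemma log_SS_lo : (22327833510 : ℝ) ≤ SS * Real.log SS := by
  have h := Real.log_two_gt_d9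
  have e : Real.log SS = 30 * Real.log 2 := by
    rw [show (SS : ℝ) = 2 ^ 30 by norm_num [SS], Real.log_pow]; norm_num
  rw [e]; norm_num [SS] at *; linarith

lemma log_SS_hi : SS * Real.log SS ≤ (22327833570 : ℝ) := by
  have h := Real.log_two_lt_d9
  have e : Real.log SS = 30 * Real.log 2 := by
    rw [show (SS : ℝ) = 2 ^ 30 by norm_num [SS], Real.log_pow]; norm_num
  rw [e]; norm_num [SS] at *; linarith

lemma uOK3_sound {M1 M2 u1 u2 : ℕ} (h : uOK3 M1 M2 u1 u2 = true) {q s : ℝ} (hq : 0 < q)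
    (hs0 : 0 ≤ s) (hs1 : s ≤ 1) (hM : q * (SS * SS) ≤ (1 - s) * M1 + s * M2) :
    SS * Real.log q ≤ (1 - s) * u1 + s * u2 - 16 * SS := by
  simp only [uOK3, uOK2, uOK, Bool.and_eq_true, Nat.ble_eq] at h
  obtain ⟨h1, h2⟩ := h
  have hA0 : 0 < (M1 + M2) / 2 + 1 := by omega
  generalize (M1 + M2) / 2 + 1 = A at *
  have rA : (0 : ℝ) < A := by exact_mod_cast hA0
  have hS := SS_pos
  have c1 := cast_div_lt (M1 * SS) A hA0
  have c2 := cast_div_lt (M2 * SS) A hA0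
  generalize M1 * SS / A + 1 = X1 at *
  generalize M2 * SS / A + 1 = X2 at *
  have d1 := (Nat.cast_le (α := ℝ)).2 h1
  have d2 := (Nat.cast_le (α := ℝ)).2 h2
  push_cast at c1 c2 d1 d2
  have hlog : Real.log (q * (SS * SS) / A) ≤ q * (SS * SS) / A - 1 :=
    Real.log_le_sub_one_of_pos (by positivity)
  rw [Real.log_div (by positivity) rA.ne', Real.log_mul hq.ne' (by positivity),
    Real.log_mul hS.ne' hS.ne'] at hlog
  have h3 := le_lgHi A hA0.ne'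
  have h4 := log_SS_lo
  have h5 : q * (SS * SS) / A * SS ≤ (1 - s) * (M1 * SS / A) + s * (M2 * SS / A) := by
    have : (1 - s) * ((M1 : ℝ) * SS / A) + s * (M2 * SS / A)
        = ((1 - s) * M1 + s * M2) / A * SS := by ring
    rw [this]; gcongr
  have h6 := mul_le_mul_of_nonneg_left hlog hS.le
  have f1 := mul_le_mul_of_nonneg_left c1 (sub_nonneg.2 hs1)
  have f2 := mul_le_mul_of_nonneg_left c2 hs0
  have f3 := mul_le_mul_of_nonneg_left d1 (sub_nonneg.2 hs1)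
  have f4 := mul_le_mul_of_nonneg_left d2 hs0
  linarith

def au1 (b0 b1 b2 b3 : ℕ) (w : Row) : ℕ := b0 * w.u01 + b1 * w.u11 + b2 * w.u21 + b3 * w.u31
def au2 (b0 b1 b2 b3 : ℕ) (w : Row) : ℕ := b0 * w.u02 + b1 * w.u12 + b2 * w.u22 + b3 * w.u32

lemma abs_interp (x y s : ℝ) (hs0 : 0 ≤ s) (hs1 : s ≤ 1) :
    |(1 - s) * x + s * y| ≤ (1 - s) * |x| + s * |y| := by
  refine (abs_add_le _ _).trans (le_of_eq ?_)
  rw [abs_mul, abs_mul, abs_of_nonneg hs0, abs_of_nonneg (sub_nonneg.2 hs1)]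

lemma rowOK_sound {w : Row} (h : rowOK w = true) (b0 b1 b2 b3 : ℕ) {r s : ℝ} (hr : Gd r)
    (hs0 : 0 ≤ s) (hs1 : s ≤ 1) (hrs : r * SS = (1 - s) * w.g1 + s * w.g2) :
    SS * aux b0 b1 b2 b3 r ≤ (1 - s) * au1 b0 b1 b2 b3 w + s * au2 b0 b1 b2 b3 w
      - 16 * SS * (b0 + b1 + b2 + b3) := by
  simp only [rowOK, Bool.and_eq_true, Nat.ble_eq] at h
  obtain ⟨⟨⟨⟨hg, h0⟩, h1⟩, h2⟩, h3⟩ := h
  obtain ⟨r0, r1, r2, r3⟩ := hr
  have hS := SS_pos
  have k0 := uOK3_sound h0 r0 hs0 hs1 (by push_cast; nlinarith)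
  have k1 := uOK3_sound h1 (q := |r - 1|) (abs_pos.2 (sub_ne_zero.2 r1)) hs0 hs1 (by
    push_cast
    rw [ad_cast, ad_cast]
    have := abs_interp ((w.g1 : ℝ) - SS) ((w.g2 : ℝ) - SS) s hs0 hs1
    rw [show (1 - s) * ((w.g1 : ℝ) - SS) + s * ((w.g2 : ℝ) - SS) = (r - 1) * SS by linarith,
      abs_mul, abs_of_pos hS] at this
    nlinarith)
  have k2 := uOK3_sound h2 (q := |r - 2|) (abs_pos.2 (sub_ne_zero.2 r2)) hs0 hs1 (by
    push_cast
    rw [ad_cast, ad_cast]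
    push_cast
    have := abs_interp ((w.g1 : ℝ) - 2 * SS) ((w.g2 : ℝ) - 2 * SS) s hs0 hs1
    rw [show (1 - s) * ((w.g1 : ℝ) - 2 * SS) + s * ((w.g2 : ℝ) - 2 * SS) = (r - 2) * SS by
      linarith, abs_mul, abs_of_pos hS] at this
    nlinarith)
  have k3 := uOK3_sound h3 (q := |r ^ 2 - 3 * r + 1|) (abs_pos.2 r3) hs0 hs1 (by
    have c := cast_div_lt ((w.g2 - w.g1) * (w.g2 - w.g1)) 4 (by norm_num)
    rw [Nat.cast_add (ad _ _), Nat.cast_add (ad _ _), ad_cast, ad_cast]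
    set E : ℝ := (((w.g2 - w.g1) * (w.g2 - w.g1) / 4 + 1 : ℕ) : ℝ)
    push_cast [Nat.cast_sub hg] at c ⊢
    set x : ℝ := (w.g1 : ℝ)
    set y : ℝ := (w.g2 : ℝ)
    have e : (r ^ 2 - 3 * r + 1) * (SS * SS) = ((1 - s) * (x * x + SS * SS - 3 * x * SS)
        + s * (y * y + SS * SS - 3 * y * SS)) - s * (1 - s) * (y - x) ^ 2 := by
      have : (r ^ 2 - 3 * r + 1) * (SS * SS) = (r * SS) ^ 2 - 3 * (r * SS) * SS + SS * SS := by ring
      rw [this, hrs]; ring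
    have h5 := abs_interp (x * x + SS * SS - 3 * x * SS) (y * y + SS * SS - 3 * y * SS) s hs0 hs1
    have h6 : |s * (1 - s) * (y - x) ^ 2| ≤ E := by
      rw [abs_of_nonneg (mul_nonneg (mul_nonneg hs0 (sub_nonneg.2 hs1)) (sq_nonneg _))]
      nlinarith [mul_nonneg (sq_nonneg (s - 1 / 2)) (sq_nonneg (y - x))]
    have h7 : |r ^ 2 - 3 * r + 1| * ((SS : ℝ) * SS) = |(r ^ 2 - 3 * r + 1) * ((SS : ℝ) * SS)| := by
      rw [abs_mul (r ^ 2 - 3 * r + 1), abs_of_pos (mul_pos hS hS)]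
    rw [h7, e]
    refine (abs_sub _ _).trans ?_
    linarith)
  unfold aux au1 au2
  push_cast
  nlinarith [mul_le_mul_of_nonneg_left k0 (Nat.cast_nonneg (α := ℝ) b0),
    mul_le_mul_of_nonneg_left k1 (Nat.cast_nonneg (α := ℝ) b1),
    mul_le_mul_of_nonneg_left k2 (Nat.cast_nonneg (α := ℝ) b2),
    mul_le_mul_of_nonneg_left k3 (Nat.cast_nonneg (α := ℝ) b3)]

lemma tblOK_cover {T : List Row} {g e : ℕ} (h : tblOK g T e = true) {x : ℝ} (h1 : (g : ℝ) ≤ x)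
    (h2 : x < e) : ∃ w ∈ T, rowOK w = true ∧ ∃ s : ℝ, 0 ≤ s ∧ s ≤ 1 ∧
      x = (1 - s) * w.g1 + s * w.g2 ∧ x ≤ w.g2 := by
  induction T generalizing g with
  | nil =>
    simp only [tblOK, Nat.ble_eq] at h
    have : (e : ℝ) ≤ g := by exact_mod_cast h
    linarith
  | cons w T ih =>
    simp only [tblOK, Bool.and_eq_true, Nat.ble_eq] at h
    obtain ⟨⟨ha, hb⟩, hc⟩ := h
    by_cases hx : x < w.g2
    · have ha' : (w.g1 : ℝ) ≤ g := by exact_mod_cast ha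
      have hd : (0 : ℝ) < w.g2 - w.g1 := by linarith
      refine ⟨w, List.mem_cons_self, hb, (x - w.g1) / (w.g2 - w.g1),
        div_nonneg (by linarith) hd.le, (div_le_one hd).2 (by linarith), ?_, hx.le⟩
      field_simp; ring
    · obtain ⟨w', hw', h'⟩ := ih hc (by linarith)
      exact ⟨w', List.mem_cons_of_mem _ hw', h'⟩

lemma interp_log {A B s : ℝ} (hA : 0 < A) (hB : 0 < B) (hs0 : 0 ≤ s) (hs1 : s ≤ 1) :
    (1 - s) * Real.log A + s * Real.log B ≤ Real.log ((1 - s) * A + s * B) := by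
  have := strictConcaveOn_log_Ioi.concaveOn.2 (Set.mem_Ioi.2 hA) (Set.mem_Ioi.2 hB)
    (sub_nonneg.2 hs1) hs0 (by ring)
  simpa using this

lemma aux_tail (b0 b1 b2 b3 : ℕ) {r : ℝ} (hr : Gd r) (h3 : 3 ≤ r) :
    aux b0 b1 b2 b3 r ≤ ((b0 + b1 + b2 + 2 * b3 : ℕ) : ℝ) * Real.log r := by
  obtain ⟨r0, r1, r2, r3⟩ := hr
  have k1 : Real.log |r - 1| ≤ Real.log r :=
    Real.log_le_log (abs_pos.2 (sub_ne_zero.2 r1)) (by rw [abs_of_nonneg] <;> linarith)
  have k2 : Real.log |r - 2| ≤ Real.log r :=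
    Real.log_le_log (abs_pos.2 (sub_ne_zero.2 r2)) (by rw [abs_of_nonneg] <;> linarith)
  have k3 : Real.log |r ^ 2 - 3 * r + 1| ≤ 2 * Real.log r := by
    have : Real.log (r ^ 2) = 2 * Real.log r := by rw [Real.log_pow]; norm_num
    rw [← this]
    exact Real.log_le_log (abs_pos.2 r3) (by rw [abs_of_nonneg] <;> nlinarith)
  unfold aux
  push_cast
  nlinarith [mul_le_mul_of_nonneg_left k1 (Nat.cast_nonneg (α := ℝ) b1),
    mul_le_mul_of_nonneg_left k2 (Nat.cast_nonneg (α := ℝ) b2),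
    mul_le_mul_of_nonneg_left k3 (Nat.cast_nonneg (α := ℝ) b3)]

structure Cert where
  tn : ℕ
  td : ℕ
  lam : ℕ
  c : ℕ
  b0 : ℕ
  b1 : ℕ
  b2 : ℕ
  b3 : ℕ
  lD : ℕ

def endA (z : Cert) (arg Yo Ys au : ℕ) : Bool :=
  Nat.ble (SS * (z.lD + z.lam) + au)
    (SS * (lgLo arg + z.c + 4 * z.lam * (SS * z.td) * Yo / (Ys * Ys))
      + 16 * SS * (z.b0 + z.b1 + z.b2 + z.b3))

def rowA2 (z : Cert) (a1 a2 Y1 Y2 : ℕ) (w : Row) : Bool :=
  endA z a1 Y2 (Y1 + Y2) (au1 z.b0 z.b1 z.b2 z.b3 w) &&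
  endA z a2 Y1 (Y1 + Y2) (au2 z.b0 z.b1 z.b2 z.b3 w)

def rowA1 (z : Cert) (star : ℕ) (Y1 Y2 : ℕ) (w : Row) : Bool :=
  bif Nat.ble w.g2 star then rowA2 z Y1 Y2 Y1 Y2 w
  else Nat.ble 1 w.g1 && rowA2 z (w.g1 * z.tn) (w.g2 * z.tn) Y1 Y2 w

def rowA (z : Cert) (star : ℕ) (w : Row) : Bool :=
  rowA1 z star (SS * z.td + w.g1 * z.tn) (SS * z.td + w.g2 * z.tn) w

def tailA (z : Cert) (LR : ℕ) : Bool :=
  Nat.ble 1 z.tn && Nat.ble 1 z.td && Nat.ble (lgHi (SS * z.td)) z.lD &&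
  Nat.ble (z.b0 + z.b1 + z.b2 + 2 * z.b3) SS &&
  Nat.ble (SS * (lgHi z.td + z.lam))
    ((SS - (z.b0 + z.b1 + z.b2 + 2 * z.b3)) * LR + SS * (lgLo z.tn + z.c))

def chkA (T : List Row) (LR : ℕ) (star : ℕ) (z : Cert) : Bool := tailA z LR && T.all (rowA z star)

def TblGood (T : List Row) (RM LR : ℕ) : Prop :=
  tblOK 0 T RM = true ∧ 10 * SS ≤ RM ∧ 22327833570 + LR ≤ lgLo RM

noncomputable def Cert.t (z : Cert) : ℝ := (z.tn : ℝ) / z.td
noncomputable def Cert.l (z : Cert) : ℝ := (z.lam : ℝ) / SS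
noncomputable def Cert.cc (z : Cert) : ℝ := (z.c : ℝ) / SS
noncomputable def Cert.ax (z : Cert) (r : ℝ) : ℝ := aux z.b0 z.b1 z.b2 z.b3 r / SS

lemma endA_sound {z : Cert} {arg Yo Ys au : ℕ} (h : endA z arg Yo Ys au = true) (ha : arg ≠ 0)
    (hD : lgHi (SS * z.td) ≤ z.lD) (htd : 1 ≤ z.td) :
    (au : ℝ) - 16 * SS * (z.b0 + z.b1 + z.b2 + z.b3) ≤
      SS * (SS * (Real.log arg - Real.log (SS * z.td)) + z.c - z.lam
        + z.lam * (4 * (SS * z.td) * Yo / (Ys * Ys))) := by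
  simp only [endA, Nat.ble_eq] at h
  have hS := SS_pos
  have h1 : ((SS * (z.lD + z.lam) + au : ℕ) : ℝ) ≤ ((SS * (lgLo arg + z.c
      + 4 * z.lam * (SS * z.td) * Yo / (Ys * Ys)) + 16 * SS * (z.b0 + z.b1 + z.b2 + z.b3) : ℕ) : ℝ) := by
    exact_mod_cast h
  have h2 : ((4 * z.lam * (SS * z.td) * Yo / (Ys * Ys) : ℕ) : ℝ) ≤
      ((4 * z.lam * (SS * z.td) * Yo : ℕ) : ℝ) / ((Ys * Ys : ℕ) : ℝ) := Nat.cast_div_le
  rw [Nat.cast_add, Nat.cast_add, Nat.cast_mul SS (lgLo arg + z.c + _), Nat.cast_add (lgLo arg + z.c)]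
    at h1
  set Q : ℝ := ((4 * z.lam * (SS * z.td) * Yo / (Ys * Ys) : ℕ) : ℝ)
  push_cast at h1 h2
  have h3 := lgLo_le arg ha
  have h4 := le_lgHi (SS * z.td) (Nat.mul_ne_zero (by norm_num [SS]) (by omega))
  have h5 : (lgHi (SS * z.td) : ℝ) ≤ z.lD := by exact_mod_cast hD
  push_cast at h4
  have h6 : Q ≤ z.lam * (4 * (SS * z.td) * Yo / (Ys * Ys)) := by
    refine h2.trans (le_of_eq ?_); ring
  nlinarith

lemma rowA2_sound {z : Cert} {a1 a2 : ℕ} {w : Row} (hw : rowOK w = true)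
    (h : rowA2 z a1 a2 (SS * z.td + w.g1 * z.tn) (SS * z.td + w.g2 * z.tn) w = true)
    (h1 : a1 ≠ 0) (h2 : a2 ≠ 0) (hD : lgHi (SS * z.td) ≤ z.lD) (htd : 1 ≤ z.td)
    {r s : ℝ} (hr : Gd r) (hs0 : 0 ≤ s) (hs1 : s ≤ 1)
    (hrs : r * SS = (1 - s) * w.g1 + s * w.g2) :
    z.ax r ≤ Real.log (((1 - s) * a1 + s * a2) / (SS * z.td))
      - z.l * (r * z.t / (1 + r * z.t)) + z.cc := by
  simp only [rowA2, Bool.and_eq_true] at h
  have e1 := endA_sound h.1 h1 hD htd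
  have e2 := endA_sound h.2 h2 hD htd
  have e3 := rowOK_sound hw z.b0 z.b1 z.b2 z.b3 hr hs0 hs1 hrs
  have hS := SS_pos
  have rtd : (0 : ℝ) < z.td := by exact_mod_cast htd
  have ra1 : (0 : ℝ) < a1 := by positivity
  have ra2 : (0 : ℝ) < a2 := by positivity
  have e4 := interp_log ra1 ra2 hs0 hs1
  have hpos : 0 < (1 - s) * (a1 : ℝ) + s * a2 := by
    rcases hs0.eq_or_lt with h0 | h0
    · subst h0; simpa using ra1
    · nlinarith [mul_nonneg (sub_nonneg.2 hs1) ra1.le, mul_pos h0 ra2]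
  rw [Real.log_div hpos.ne' (by positivity)]
  push_cast at e1 e2
  set D : ℝ := SS * z.td with hDd
  set Y1 : ℝ := D + w.g1 * z.tn with hY1
  set Y2 : ℝ := D + w.g2 * z.tn with hY2
  have hD0 : 0 < D := by positivity
  have hY10 : 0 < Y1 := by positivity
  have hY20 : 0 < Y2 := by positivity
  have r0 := hr.1
  have ht0 : 0 ≤ z.t := by unfold Cert.t; positivity
  have hy : (1 + r * z.t) * D = (1 - s) * Y1 + s * Y2 := by
    have : r * z.t * D = (r * SS) * z.tn := by unfold Cert.t; rw [hDd]; field_simp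
    rw [add_mul, this, hrs, hY1, hY2]; ring
  have hy0 : 0 < 1 + r * z.t := by positivity
  have e5 : (1 - s) * (4 * D * Y2 / ((Y1 + Y2) * (Y1 + Y2)))
      + s * (4 * D * Y1 / ((Y1 + Y2) * (Y1 + Y2))) ≤ 1 - r * z.t / (1 + r * z.t) := by
    have a : 1 - r * z.t / (1 + r * z.t) = 1 / (1 + r * z.t) := by field_simp; ring
    have b : (1 - s) * (4 * D * Y2 / ((Y1 + Y2) * (Y1 + Y2)))
      + s * (4 * D * Y1 / ((Y1 + Y2) * (Y1 + Y2)))
        = 4 * D * (Y1 + Y2 - (1 + r * z.t) * D) / ((Y1 + Y2) * (Y1 + Y2)) := by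
      rw [hy]; field_simp; ring
    rw [a, b, div_le_div_iff₀ (by positivity) hy0]
    nlinarith [sq_nonneg (Y1 + Y2 - 2 * ((1 + r * z.t) * D))]
  have hl : (0 : ℝ) ≤ z.lam := by positivity
  have e6 := mul_le_mul_of_nonneg_left e5 hl
  have key : aux z.b0 z.b1 z.b2 z.b3 r ≤ SS * (Real.log ((1 - s) * a1 + s * a2) - Real.log D)
      - z.lam * (r * z.t / (1 + r * z.t)) + z.c := by
    refine le_of_mul_le_mul_left ?_ hS
    have f1 := mul_le_mul_of_nonneg_left e1 (sub_nonneg.2 hs1)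
    have f2 := mul_le_mul_of_nonneg_left e2 hs0
    have f3 := mul_le_mul_of_nonneg_left (mul_le_mul_of_nonneg_left e4 hS.le) hS.le
    have f4 := mul_le_mul_of_nonneg_left e6 hS.le
    linarith
  unfold Cert.ax Cert.l Cert.cc
  rw [div_le_iff₀ hS]
  have : (Real.log ((1 - s) * a1 + s * a2) - Real.log D
      - (z.lam : ℝ) / SS * (r * z.t / (1 + r * z.t)) + (z.c : ℝ) / SS) * SS
      = SS * (Real.log ((1 - s) * a1 + s * a2) - Real.log D)
      - z.lam * (r * z.t / (1 + r * z.t)) + z.c := by field_simp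
  rw [this]; exact key

lemma tailA_sound {z : Cert} {RM LR : ℕ} (h : tailA z LR = true) (hRM : 10 * SS ≤ RM)
    (hLR : 22327833570 + LR ≤ lgLo RM) {r : ℝ}
    (hr : Gd r) (hx : (RM : ℝ) ≤ r * SS) :
    z.ax r ≤ Real.log (r * z.t) - z.l + z.cc ∧ 0 ≤ Real.log (r * z.t) - z.l + z.cc := by
  simp only [tailA, Bool.and_eq_true, Nat.ble_eq] at h
  obtain ⟨⟨⟨⟨htn, htd⟩, -⟩, hB⟩, h⟩ := h
  have hS := SS_pos
  have hRM' : 10 * (SS : ℝ) ≤ RM := by exact_mod_cast hRM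
  have h10 : 10 ≤ r := le_of_mul_le_mul_right (hRM'.trans hx) hS
  have a1 := aux_tail z.b0 z.b1 z.b2 z.b3 hr (by linarith)
  set B : ℕ := z.b0 + z.b1 + z.b2 + 2 * z.b3
  have rtd : (0 : ℝ) < z.td := by exact_mod_cast htd
  have rtn : (0 : ℝ) < z.tn := by exact_mod_cast htn
  have r0 := hr.1
  have hlr : 0 ≤ Real.log r := Real.log_nonneg (by linarith)
  have a2 : (LR : ℝ) ≤ SS * Real.log r := by
    have b0 := (Nat.cast_le (α := ℝ)).2 hLR
    have hRM0 : RM ≠ 0 := by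
      rintro rfl
      simp at hRM'
      linarith
    have b1 := lgLo_le RM hRM0
    have b2 := log_SS_hi
    have b3 : Real.log RM ≤ Real.log r + Real.log SS := by
      rw [← Real.log_mul r0.ne' hS.ne']
      exact Real.log_le_log (by linarith) hx
    push_cast at b0
    nlinarith
  have a3 := (Nat.cast_le (α := ℝ)).2 h
  push_cast [Nat.cast_sub hB] at a3
  have a4 := lgLo_le z.tn (by omega)
  have a5 := le_lgHi z.td (by omega)
  have hB' : (B : ℝ) ≤ SS := by exact_mod_cast hB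
  have hB0 : (0 : ℝ) ≤ B := by positivity
  have a6 : Real.log (r * z.t) = Real.log r + (Real.log z.tn - Real.log z.td) := by
    unfold Cert.t
    rw [Real.log_mul r0.ne' (by positivity), Real.log_div rtn.ne' rtd.ne']
  have key : B * Real.log r ≤ SS * Real.log (r * z.t) - z.lam + z.c := by
    refine le_of_mul_le_mul_left ?_ hS
    rw [a6]
    have f1 := mul_le_mul_of_nonneg_left a2 (sub_nonneg.2 hB')
    have f2 := mul_le_mul_of_nonneg_left a4 hS.le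
    have f3 := mul_le_mul_of_nonneg_left a5 hS.le
    linarith
  have e : (Real.log (r * z.t) - z.l + z.cc) * SS = SS * Real.log (r * z.t) - z.lam + z.c := by
    unfold Cert.l Cert.cc; field_simp
  constructor
  · unfold Cert.ax
    rw [div_le_iff₀ hS, e]; linarith
  · have : 0 ≤ (Real.log (r * z.t) - z.l + z.cc) * SS := by
      rw [e]; nlinarith [mul_nonneg hB0 hlr]
    exact nonneg_of_mul_nonneg_left this hS

lemma tailA_pos {z : Cert} {LR : ℕ} (h : tailA z LR = true) :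
    1 ≤ z.tn ∧ 1 ≤ z.td ∧ lgHi (SS * z.td) ≤ z.lD := by
  simp only [tailA, Bool.and_eq_true, Nat.ble_eq] at h
  exact ⟨h.1.1.1.1, h.1.1.1.2, h.1.1.2⟩

lemma Cert.t_pos {z : Cert} (h1 : 1 ≤ z.tn) (h2 : 1 ≤ z.td) : 0 < z.t := by
  unfold Cert.t
  have rtd : (0 : ℝ) < z.td := by exact_mod_cast h2
  have rtn : (0 : ℝ) < z.tn := by exact_mod_cast h1
  positivity

lemma Cert.l_nonneg (z : Cert) : 0 ≤ z.l := by unfold Cert.l; positivity
lemma Cert.cc_nonneg (z : Cert) : 0 ≤ z.cc := by unfold Cert.cc; positivity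

theorem chkA_sound {T : List Row} {RM LR star : ℕ} {z : Cert} (hG : TblGood T RM LR)
    (h : chkA T LR star z = true) {r : ℝ} (hr : Gd r) :
    (r * SS ≤ star ∧ z.ax r ≤ Real.log (1 + r * z.t) - z.l * (r * z.t / (1 + r * z.t)) + z.cc) ∨
      z.ax r ≤ Real.log (r * z.t) - z.l * (r * z.t / (1 + r * z.t)) + z.cc := by
  obtain ⟨hT, hRM, hLR⟩ := hG
  simp only [chkA, Bool.and_eq_true, List.all_eq_true] at h
  obtain ⟨ht, hall⟩ := h
  obtain ⟨htn, htd, hD⟩ := tailA_pos ht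
  have hS := SS_pos
  have r0 := hr.1
  have t0 := Cert.t_pos htn htd
  have rtd : (0 : ℝ) < z.td := by exact_mod_cast htd
  by_cases hx : r * SS < RM
  · obtain ⟨w, hw, hwok, s, hs0, hs1, hrs, hle⟩ := tblOK_cover hT (x := r * SS)
      (by push_cast; positivity) hx
    have h1 := hall w hw
    unfold rowA rowA1 at h1
    have hSN : 0 < SS * z.td := Nat.mul_pos (by norm_num [SS]) (by omega)
    cases hb : Nat.ble w.g2 star with
    | true =>
      rw [hb, cond_true] at h1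
      left
      have hb' : (w.g2 : ℝ) ≤ star := by exact_mod_cast Nat.le_of_ble_eq_true hb
      refine ⟨hle.trans hb', ?_⟩
      have := rowA2_sound hwok h1 (by omega) (by omega) hD htd hr hs0 hs1 hrs
      convert this using 4
      push_cast
      have : r * z.t = (r * SS) * z.tn / (SS * z.td) := by unfold Cert.t; field_simp
      rw [this, hrs]; field_simp; ring
    | false =>
      rw [hb, cond_false, Bool.and_eq_true, Nat.ble_eq] at h1
      right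
      have hg : w.g1 ≤ w.g2 := by
        simp only [rowOK, Bool.and_eq_true, Nat.ble_eq] at hwok
        exact hwok.1.1.1.1
      have := rowA2_sound hwok h1.2 (Nat.mul_ne_zero (by omega) (by omega))
        (Nat.mul_ne_zero (by omega) (by omega)) hD htd hr hs0 hs1 hrs
      convert this using 4
      push_cast
      have : r * z.t = (r * SS) * z.tn / (SS * z.td) := by unfold Cert.t; field_simp
      rw [this, hrs]; field_simp
  · right
    have h1 := (tailA_sound ht hRM hLR hr (by linarith)).1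
    have h2 : r * z.t / (1 + r * z.t) ≤ 1 := by
      rw [div_le_one (by positivity)]; linarith
    nlinarith [mul_le_mul_of_nonneg_left h2 z.l_nonneg]

theorem chkA_sound' {T : List Row} {RM LR star : ℕ} {z : Cert} (hG : TblGood T RM LR)
    (h : chkA T LR star z = true) {r : ℝ} (hr : Gd r) :
    z.ax r ≤ Real.log (1 + r * z.t) - z.l * (r * z.t / (1 + r * z.t)) + z.cc := by
  rcases chkA_sound hG h hr with h1 | h1
  · exact h1.2
  · simp only [chkA, Bool.and_eq_true] at h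
    obtain ⟨htn, htd, -⟩ := tailA_pos h.1
    have : Real.log (r * z.t) ≤ Real.log (1 + r * z.t) :=
      Real.log_le_log (mul_pos hr.1 (Cert.t_pos htn htd)) (by linarith)
    linarith

def endB (z : Cert) (D Y Y0 l0 au : ℕ) : Bool :=
  Nat.ble (D * au + SS * Y * z.lD + SS * SS * Y0 + SS * z.lam * Y)
    (SS * Y * l0 + SS * SS * Y + SS * z.lam * D + D * (16 * SS * (z.b0 + z.b1 + z.b2 + z.b3)))

def rowB1 (z : Cert) (D Y1 Y2 Y0 : ℕ) (w : Row) : Bool :=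
  endB z D Y1 Y0 (lgLo Y0) (au1 z.b0 z.b1 z.b2 z.b3 w) &&
  endB z D Y2 Y0 (lgLo Y0) (au2 z.b0 z.b1 z.b2 z.b3 w)

def rowB (z : Cert) (w : Row) : Bool :=
  rowB1 z (SS * z.td) (SS * z.td + w.g1 * z.tn) (SS * z.td + w.g2 * z.tn)
    (SS * z.td + (w.g1 + w.g2) / 2 * z.tn) w

def chkB (T : List Row) (LR : ℕ) (z : Cert) : Bool :=
  tailA z LR && Nat.ble z.c 0 && T.all (rowB z)

theorem chkB_sound {T : List Row} {RM LR : ℕ} {z : Cert} (hG : TblGood T RM LR)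
    (h : chkB T LR z = true) {r : ℝ} (hr : Gd r) :
    z.ax r ≤ (1 + r * z.t) * Real.log (1 + r * z.t) - z.l * (r * z.t) := by
  obtain ⟨hT, hRM, hLR⟩ := hG
  simp only [chkB, Bool.and_eq_true, List.all_eq_true, Nat.ble_eq] at h
  obtain ⟨⟨ht, hc⟩, hall⟩ := h
  obtain ⟨htn, htd, hD⟩ := tailA_pos ht
  have hS := SS_pos
  have r0 := hr.1
  have t0 := Cert.t_pos htn htd
  have rtd : (0 : ℝ) < z.td := by exact_mod_cast htd
  have hx0 : 0 < r * z.t := by positivity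
  by_cases hx : r * SS < RM
  · obtain ⟨w, hw, hwok, s, hs0, hs1, hrs, hle⟩ := tblOK_cover hT (x := r * SS)
      (by push_cast; positivity) hx
    have h1 := hall w hw
    simp only [rowB, rowB1, endB, Bool.and_eq_true, Nat.ble_eq] at h1
    obtain ⟨h1, h2⟩ := h1
    have e3 := rowOK_sound hwok z.b0 z.b1 z.b2 z.b3 hr hs0 hs1 hrs
    have hSN : 0 < SS * z.td := Nat.mul_pos (by norm_num [SS]) (by omega)
    set Y0 : ℕ := SS * z.td + (w.g1 + w.g2) / 2 * z.tn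
    have hY0 : 0 < Y0 := by omega
    have rY0 : (0 : ℝ) < Y0 := by exact_mod_cast hY0
    have a1 := lgLo_le Y0 hY0.ne'
    have a2 := le_lgHi (SS * z.td) hSN.ne'
    have a3 : (lgHi (SS * z.td) : ℝ) ≤ z.lD := by exact_mod_cast hD
    have h1' := (Nat.cast_le (α := ℝ)).2 h1
    have h2' := (Nat.cast_le (α := ℝ)).2 h2
    push_cast at h1' h2' a2
    set D : ℝ := SS * z.td with hDd
    have hD0 : 0 < D := by positivity
    set Y1 : ℝ := D + w.g1 * z.tn with hY1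
    set Y2 : ℝ := D + w.g2 * z.tn with hY2
    set y : ℝ := 1 + r * z.t with hyd
    have hy0 : 0 < y := by positivity
    have hy : y * D = (1 - s) * Y1 + s * Y2 := by
      have : r * z.t * D = (r * SS) * z.tn := by unfold Cert.t; rw [hDd]; field_simp
      rw [hyd, add_mul, this, hrs, hY1, hY2]; ring
    have a4 : Real.log (Y0 / (y * D)) ≤ Y0 / (y * D) - 1 :=
      Real.log_le_sub_one_of_pos (by positivity)
    rw [Real.log_div rY0.ne' (by positivity), Real.log_mul hy0.ne' hD0.ne'] at a4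
    have a5 : y * D * (Real.log Y0 - (Real.log y + Real.log D)) ≤ Y0 - y * D := by
      have := mul_le_mul_of_nonneg_left a4 (mul_pos hy0 hD0).le
      rwa [mul_sub (y * D) _ 1, mul_one, mul_div_cancel₀ _ (mul_pos hy0 hD0).ne'] at this
    have a6 : (lgLo Y0 : ℝ) - z.lD ≤ SS * (Real.log Y0 - Real.log D) := by linarith
    have a7 := mul_le_mul_of_nonneg_left a6 (mul_pos hS (mul_pos hy0 hD0)).le
    have f1 := mul_le_mul_of_nonneg_left h1' (sub_nonneg.2 hs1)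
    have f2 := mul_le_mul_of_nonneg_left h2' hs0
    have f3 := mul_le_mul_of_nonneg_left e3 hD0.le
    have f4 := mul_le_mul_of_nonneg_left a5 (mul_pos hS hS).le
    have f5 : D * ((1 - s) * au1 z.b0 z.b1 z.b2 z.b3 w + s * au2 z.b0 z.b1 z.b2 z.b3 w)
        + SS * (y * D) * z.lD + SS * SS * Y0 + SS * z.lam * (y * D)
        ≤ SS * (y * D) * lgLo Y0 + SS * SS * (y * D) + SS * z.lam * D
          + D * (16 * SS * (z.b0 + z.b1 + z.b2 + z.b3)) := by
      rw [hy]; linarith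
    have key : aux z.b0 z.b1 z.b2 z.b3 r ≤ SS * (y * Real.log y) - z.lam * (y - 1) := by
      refine le_of_mul_le_mul_left ?_ (mul_pos hD0 hS)
      linarith
    unfold Cert.ax Cert.l
    rw [div_le_iff₀ hS]
    have : (y * Real.log y - (z.lam : ℝ) / SS * (r * z.t)) * SS
        = SS * (y * Real.log y) - z.lam * (y - 1) := by rw [hyd]; field_simp; ring
    rw [this]; exact key
  · obtain ⟨h1, h2⟩ := tailA_sound ht hRM hLR hr (by linarith)
    have hcc : z.cc = 0 := by unfold Cert.cc; rw [Nat.le_zero.1 hc]; simp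
    have : Real.log (r * z.t) ≤ Real.log (1 + r * z.t) := Real.log_le_log hx0 (by linarith)
    have hl := z.l_nonneg
    nlinarith [mul_nonneg hx0.le (show 0 ≤ Real.log (1 + r * z.t) - z.l by linarith)]

def rowP (b0 b1 b2 b3 : ℕ) (w : Row) : Bool :=
  Nat.ble (4 * au1 b0 b1 b2 b3 w + (w.g1 + w.g2) * (w.g1 + w.g2) + 10 * SS * w.g1)
    (4 * (w.g1 + w.g2) * w.g1 + 64 * SS * (b0 + b1 + b2 + b3)) &&
  Nat.ble (4 * au2 b0 b1 b2 b3 w + (w.g1 + w.g2) * (w.g1 + w.g2) + 10 * SS * w.g2)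
    (4 * (w.g1 + w.g2) * w.g2 + 64 * SS * (b0 + b1 + b2 + b3))

def chkP (T : List Row) (b0 b1 b2 b3 : ℕ) : Bool :=
  Nat.ble (b0 + b1 + b2 + 2 * b3) (5 * SS) && T.all (rowP b0 b1 b2 b3)

theorem chkP_sound {T : List Row} {RM LR b0 b1 b2 b3 : ℕ} (hG : TblGood T RM LR)
    (h : chkP T b0 b1 b2 b3 = true) {r : ℝ} (hr : Gd r) :
    aux b0 b1 b2 b3 r / SS ≤ r ^ 2 - 5 / 2 * r := by
  obtain ⟨hT, hRM, hLR⟩ := hG
  simp only [chkP, Bool.and_eq_true, List.all_eq_true, Nat.ble_eq] at h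
  obtain ⟨hB, hall⟩ := h
  have hS := SS_pos
  have r0 := hr.1
  rw [div_le_iff₀ hS]
  by_cases hx : r * SS < RM
  · obtain ⟨w, hw, hwok, s, hs0, hs1, hrs, hle⟩ := tblOK_cover hT (x := r * SS)
      (by push_cast; positivity) hx
    have h1 := hall w hw
    simp only [rowP, Bool.and_eq_true, Nat.ble_eq] at h1
    obtain ⟨h1, h2⟩ := h1
    have e3 := rowOK_sound hwok b0 b1 b2 b3 hr hs0 hs1 hrs
    have h1' := (Nat.cast_le (α := ℝ)).2 h1
    have h2' := (Nat.cast_le (α := ℝ)).2 h2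
    push_cast at h1' h2'
    have f1 := mul_le_mul_of_nonneg_left h1' (sub_nonneg.2 hs1)
    have f2 := mul_le_mul_of_nonneg_left h2' hs0
    have f5 : 4 * ((1 - s) * au1 b0 b1 b2 b3 w + s * au2 b0 b1 b2 b3 w)
        + ((w.g1 : ℝ) + w.g2) * (w.g1 + w.g2) + 10 * SS * (r * SS)
        ≤ 4 * (w.g1 + w.g2) * (r * SS) + 64 * SS * (b0 + b1 + b2 + b3) := by
      rw [hrs]; linarith
    refine le_of_mul_le_mul_left ?_ hS
    nlinarith [sq_nonneg (2 * (r * SS) - (w.g1 + w.g2))]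
  · have hRM' : 10 * (SS : ℝ) ≤ RM := by exact_mod_cast hRM
    have h10 : 10 ≤ r := le_of_mul_le_mul_right (hRM'.trans (by linarith)) hS
    have a1 := aux_tail b0 b1 b2 b3 hr (by linarith)
    have hB' : ((b0 + b1 + b2 + 2 * b3 : ℕ) : ℝ) ≤ 5 * SS := by exact_mod_cast hB
    have hlr : 0 ≤ Real.log r := Real.log_nonneg (by linarith)
    have h2 := Real.log_le_sub_one_of_pos r0
    have h3 := mul_le_mul_of_nonneg_right hB' hlr
    have h4 : 5 * Real.log r ≤ r ^ 2 - 5 / 2 * r := by nlinarith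
    nlinarith [mul_le_mul_of_nonneg_left h4 hS.le]

end Pool.Agent.Lib.MP_961538_co
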