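import Mathlib

/-! Hoeffding's extremal principle for sums of independent Bernoulli variables and two
consequences for the coefficients of real-rooted polynomials. -/

namespace Pool.Agent.Lib.MP_961538_co

open Polynomial

noncomputable def lin (p : ℝ) : ℝ[X] := C (1 - p) + C p * X

noncomputable def PP (M : Multiset ℝ) : ℝ[X] := (M.map lin).prod

@[simp] lemma PP_zero : PP 0 = 1 := by simp [PP]
@[simp] lemma PP_cons (p : ℝ) (M : Multiset ℝ) : PP (p ::ₘ M) = lin p * PP M := by simp [PP]
lemma PP_add (M N : Multiset ℝ) : PP (M + N) = PP M * PP N := by simp [PP]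
lemma PP_replicate (n : ℕ) (x : ℝ) : PP (Multiset.replicate n x) = lin x ^ n := by simp [PP]

lemma lin_zero : lin 0 = 1 := by simp [lin]
lemma lin_one : lin 1 = X := by simp [lin]

lemma lin_mul (p q p' q' : ℝ) (h : p + q = p' + q') :
    lin p * lin q = lin p' * lin q' + C (p * q - p' * q') * (1 - X) ^ 2 := by
  obtain rfl : q' = p + q - p' := by linarith
  simp only [lin, map_sub, map_add, map_mul, map_one]
  ring

lemma sum_lt_of_forall_lt (M : Multiset ℝ) (x : ℝ) (h : ∀ p ∈ M, p < x) (hM : M ≠ 0) :
    M.sum < M.card * x := by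
  induction M using Multiset.induction_on with
  | empty => exact absurd rfl hM
  | cons a M ih =>
    have ha := h a (Multiset.mem_cons_self _ _)
    by_cases h0 : M = 0
    · subst h0; simpa using ha
    · have := ih (fun p hp => h p (Multiset.mem_cons_of_mem hp)) h0
      simp only [Multiset.sum_cons, Multiset.card_cons]
      push_cast; linarith

lemma lt_sum_of_forall_lt (M : Multiset ℝ) (x : ℝ) (h : ∀ p ∈ M, x < p) (hM : M ≠ 0) :
    M.card * x < M.sum := by
  induction M using Multiset.induction_on with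
  | empty => exact absurd rfl hM
  | cons a M ih =>
    have ha := h a (Multiset.mem_cons_self _ _)
    by_cases h0 : M = 0
    · subst h0; simpa using ha
    · have := ih (fun p hp => h p (Multiset.mem_cons_of_mem hp)) h0
      simp only [Multiset.sum_cons, Multiset.card_cons]
      push_cast; linarith

lemma sum_bounds (M : Multiset ℝ) (h : ∀ p ∈ M, 0 ≤ p ∧ p ≤ 1) :
    0 ≤ M.sum ∧ M.sum ≤ M.card := by
  induction M using Multiset.induction_on with
  | empty => simp
  | cons a M ih =>
    have ha := h a (Multiset.mem_cons_self _ _)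
    have := ih (fun p hp => h p (Multiset.mem_cons_of_mem hp))
    simp only [Multiset.sum_cons, Multiset.card_cons]
    push_cast
    constructor <;> linarith [ha.1, ha.2, this.1, this.2]

theorem extremal (L : ℝ[X] →ₗ[ℝ] ℝ) (d : ℕ) (s : ℝ)
    (hL : ∀ (b n : ℕ) (x : ℝ), 0 ≤ x → x ≤ 1 → b + n ≤ d → b + n * x = s →
      0 ≤ L (X ^ b * lin x ^ n)) (N : ℕ) :
    ∀ (b : ℕ) (M : Multiset ℝ), M.card = N → (∀ p ∈ M, 0 ≤ p ∧ p ≤ 1) → b + N ≤ d →
      b + M.sum = s → 0 ≤ L (X ^ b * PP M) := by
  induction N with
  | zero =>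
    intro b M hM _ hb hs
    rw [Multiset.card_eq_zero] at hM
    subst hM
    simpa using hL b 0 0 le_rfl zero_le_one hb (by simpa using hs)
  | succ N ih =>
    intro b M hM h01 hb hs
    set x : ℝ := M.sum / (N + 1) with hx
    have hN : (0 : ℝ) < N + 1 := by positivity
    have hsb := sum_bounds M h01
    rw [hM] at hsb
    push_cast at hsb
    have hx0 : 0 ≤ x := div_nonneg hsb.1 hN.le
    have hx1 : x ≤ 1 := (div_le_one hN).2 hsb.2
    have hxs : b + ((N : ℝ) + 1) * x = s := by rw [← hs, hx]; field_simp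
    have inner : ∀ (j n : ℕ) (M' : Multiset ℝ), n + j = N + 1 → M'.card = j →
        (∀ p ∈ M', 0 ≤ p ∧ p ≤ 1) → M'.sum = j * x → 0 ≤ L (X ^ b * lin x ^ n * PP M') := by
      intro j
      induction j with
      | zero =>
        intro n M' hn hc _ _
        rw [Multiset.card_eq_zero] at hc
        subst hc
        obtain rfl : n = N + 1 := by omega
        simpa using hL b (N + 1) x hx0 hx1 hb (by push_cast; exact hxs)
      | succ j ihj =>
        intro n M' hn hc h01' hsum
        by_cases hmem : x ∈ M'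
        · obtain ⟨M'', rfl⟩ := Multiset.exists_cons_of_mem hmem
          have := ihj (n + 1) M'' (by omega) (by simpa using hc)
            (fun p hp => h01' p (Multiset.mem_cons_of_mem hp))
            (by simp only [Multiset.sum_cons] at hsum; push_cast at hsum; linarith)
          rw [PP_cons]
          convert this using 2
          ring
        have hne : M' ≠ 0 := by rintro rfl; simp at hc
        obtain ⟨p, hp, hpx⟩ : ∃ p ∈ M', p < x := by
          by_contra hcon
          push Not at hcon
          have := lt_sum_of_forall_lt M' x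
            (fun p hp => lt_of_le_of_ne (hcon p hp) (by rintro rfl; exact hmem hp)) hne
          rw [hc, hsum] at this
          exact lt_irrefl _ this
        obtain ⟨q, hq, hqx⟩ : ∃ q ∈ M', x < q := by
          by_contra hcon
          push Not at hcon
          have := sum_lt_of_forall_lt M' x
            (fun p hp => lt_of_le_of_ne (hcon p hp) (by rintro rfl; exact hmem hp)) hne
          rw [hc, hsum] at this
          exact lt_irrefl _ this
        obtain ⟨M1, rfl⟩ := Multiset.exists_cons_of_mem hp
        have hq1 : q ∈ M1 := by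
          rcases Multiset.mem_cons.1 hq with h | h
          · linarith
          · exact h
        obtain ⟨M2, rfl⟩ := Multiset.exists_cons_of_mem hq1
        have hp01 := h01' p hp
        have hq01 := h01' q hq
        have h2 : ∀ r ∈ M2, 0 ≤ r ∧ r ≤ 1 := fun r hr =>
          h01' r (Multiset.mem_cons_of_mem (Multiset.mem_cons_of_mem hr))
        simp only [Multiset.sum_cons, Multiset.card_cons] at hsum hc
        push_cast at hsum
        have hnj : (n : ℝ) + (j + 1) = N + 1 := by exact_mod_cast hn
        set Rr : ℝ[X] := X ^ b * lin x ^ n * PP M2 with hR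
        set β : ℝ := L (Rr * (1 - X) ^ 2) with hβ
        have key : ∀ p' q' : ℝ, p + q = p' + q' →
            L (X ^ b * lin x ^ n * PP (p ::ₘ q ::ₘ M2))
              = L (Rr * (lin p' * lin q')) + (p * q - p' * q') * β := by
          intro p' q' h
          have : X ^ b * lin x ^ n * PP (p ::ₘ q ::ₘ M2)
              = Rr * (lin p' * lin q') + (p * q - p' * q') • (Rr * (1 - X) ^ 2) := by
            rw [PP_cons, PP_cons, ← mul_assoc (lin p), lin_mul p q p' q' h, smul_eq_C_mul, hR]
            ring
          rw [this, map_add, map_smul, smul_eq_mul]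
        have hrep : ∀ (y : ℝ), 0 ≤ y → y ≤ 1 →
            ∀ r ∈ y ::ₘ (M2 + Multiset.replicate n x), 0 ≤ r ∧ r ≤ 1 := by
          intro y hy0 hy1 r hr
          rcases Multiset.mem_cons.1 hr with h | h
          · subst h; exact ⟨hy0, hy1⟩
          rcases Multiset.mem_add.1 h with h | h
          · exact h2 r h
          · rw [Multiset.eq_of_mem_replicate h]; exact ⟨hx0, hx1⟩
        rcases le_total 0 β with hβ0 | hβ0
        · rcases le_total (p + q) 1 with hσ | hσ
          · rw [key 0 (p + q) (by ring)]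
            have h3 := ih b ((p + q) ::ₘ (M2 + Multiset.replicate n x))
              (by simp; omega) (hrep _ (by linarith [hp01.1, hq01.1]) hσ) (by omega)
              (by simp; nlinarith)
            rw [PP_cons, PP_add, PP_replicate] at h3
            have e : Rr * (lin 0 * lin (p + q)) = X ^ b * (lin (p + q) * (PP M2 * lin x ^ n)) := by
              rw [lin_zero, hR]; ring
            rw [e]
            have : 0 ≤ (p * q - 0 * (p + q)) * β :=
              mul_nonneg (by nlinarith [mul_nonneg hp01.1 hq01.1]) hβ0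
            linarith
          · rw [key 1 (p + q - 1) (by ring)]
            have h3 := ih (b + 1) ((p + q - 1) ::ₘ (M2 + Multiset.replicate n x))
              (by simp; omega) (hrep _ (by linarith) (by linarith [hp01.2, hq01.2])) (by omega)
              (by simp; nlinarith)
            rw [PP_cons, PP_add, PP_replicate] at h3
            have e : Rr * (lin 1 * lin (p + q - 1))
                = X ^ (b + 1) * (lin (p + q - 1) * (PP M2 * lin x ^ n)) := by
              rw [lin_one, hR]; ring
            rw [e]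
            have : 0 ≤ (p * q - 1 * (p + q - 1)) * β :=
              mul_nonneg (by nlinarith [mul_nonneg (sub_nonneg.2 hp01.2) (sub_nonneg.2 hq01.2)]) hβ0
            linarith
        · rw [key x (p + q - x) (by ring)]
          have h3 := ihj (n + 1) ((p + q - x) ::ₘ M2) (by omega) (by simp; omega)
            (fun r hr => by
              rcases Multiset.mem_cons.1 hr with h | h
              · subst h; constructor <;> linarith [hp01.1, hq01.2]
              · exact h2 r h)
            (by simp only [Multiset.sum_cons]; linarith)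
          rw [PP_cons] at h3
          have e : Rr * (lin x * lin (p + q - x))
              = X ^ b * lin x ^ (n + 1) * (lin (p + q - x) * PP M2) := by
            rw [hR]; ring
          rw [e]
          have : 0 ≤ (p * q - x * (p + q - x)) * β :=
            mul_nonneg_of_nonpos_of_nonpos
              (by nlinarith [mul_pos (sub_pos.2 hpx) (sub_pos.2 hqx)]) hβ0
          linarith
    have := inner (N + 1) 0 M (by simp) hM h01 (by push_cast; rw [hx]; field_simp)
    simpa using this

lemma coeff_lin_mul_zero (p : ℝ) (P : ℝ[X]) : (lin p * P).coeff 0 = (1 - p) * P.coeff 0 := by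
  simp [lin, add_mul, mul_assoc]

lemma coeff_lin_mul_succ (p : ℝ) (P : ℝ[X]) (i : ℕ) :
    (lin p * P).coeff (i + 1) = (1 - p) * P.coeff (i + 1) + p * P.coeff i := by
  simp only [lin, add_mul, mul_assoc, coeff_add, coeff_C_mul, coeff_X_mul]

lemma coeff_lin_pow (x : ℝ) (n i : ℕ) :
    (lin x ^ n).coeff i = (n.choose i : ℝ) * x ^ i * (1 - x) ^ (n - i) := by
  induction n generalizing i with
  | zero =>
    cases i with
    | zero => simp
    | succ i => simp [coeff_one]
  | succ n ih =>
    rw [pow_succ']
    cases i with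
    | zero => rw [coeff_lin_mul_zero, ih]; simp [pow_succ']
    | succ i =>
      rw [coeff_lin_mul_succ, ih, ih, Nat.choose_succ_succ']
      rw [show n + 1 - (i + 1) = n - i by omega]
      by_cases h : i + 1 ≤ n
      · obtain ⟨m, rfl⟩ : ∃ m, n = i + 1 + m := ⟨n - (i + 1), by omega⟩
        rw [show i + 1 + m - (i + 1) = m by omega, show i + 1 + m - i = m + 1 by omega]
        push_cast; ring
      · rw [Nat.choose_eq_zero_of_lt (by omega : n < i + 1)]
        push_cast; ring

lemma eval_one_lin (p : ℝ) : (lin p).eval 1 = 1 := by simp [lin]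

lemma eval_one_PP (M : Multiset ℝ) : (PP M).eval 1 = 1 := by
  induction M using Multiset.induction_on with
  | empty => simp
  | cons a M ih => rw [PP_cons, eval_mul, ih, eval_one_lin, one_mul]

noncomputable def Aseq (n : ℕ) : ℝ := ((n : ℝ) + 1) ^ n / (n : ℝ) ^ n

lemma Aseq_pos (n : ℕ) : 0 < Aseq n := by
  unfold Aseq
  rcases Nat.eq_zero_or_pos n with h | h
  · subst h; simp
  · positivity

lemma Aseq_succ (n : ℕ) : Aseq n ≤ Aseq (n + 1) := by
  rcases Nat.eq_zero_or_pos n with h | h
  · subst h; simp [Aseq]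
  have hn : (0 : ℝ) < n := by exact_mod_cast h
  unfold Aseq
  push_cast
  rw [div_le_div_iff₀ (by positivity) (by positivity)]
  have hb : 1 + (n : ℝ) * (-1 / ((n : ℝ) + 1) ^ 2) ≤ (1 + (-1 / ((n : ℝ) + 1) ^ 2)) ^ n := by
    apply one_add_mul_le_pow
    rw [le_div_iff₀ (by positivity)]
    nlinarith
  have e : (1 + (-1 / ((n : ℝ) + 1) ^ 2)) = n * (n + 1 + 1) / ((n + 1) * (n + 1)) := by
    field_simp; ring
  rw [e, div_pow, mul_pow, mul_pow, le_div_iff₀ (by positivity)] at hb
  have h3 : ((n : ℝ) + 1) ≤ (n + 1 + 1) * (1 + (n : ℝ) * (-1 / ((n : ℝ) + 1) ^ 2)) := by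
    have : ((n : ℝ) + 1 + 1) * (1 + (n : ℝ) * (-1 / ((n : ℝ) + 1) ^ 2)) - (n + 1)
        = 1 / ((n : ℝ) + 1) ^ 2 := by field_simp; ring
    have h4 : 0 ≤ 1 / ((n : ℝ) + 1) ^ 2 := by positivity
    linarith
  have hp : 0 < ((n : ℝ) + 1) ^ n * ((n : ℝ) + 1) ^ n := by positivity
  calc ((n : ℝ) + 1) ^ n * ((n : ℝ) + 1) ^ (n + 1)
      = ((n : ℝ) + 1) * (((n : ℝ) + 1) ^ n * ((n : ℝ) + 1) ^ n) := by ring
    _ ≤ ((n + 1 + 1) * (1 + (n : ℝ) * (-1 / ((n : ℝ) + 1) ^ 2)))
          * (((n : ℝ) + 1) ^ n * ((n : ℝ) + 1) ^ n) := by gcongr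
    _ = (n + 1 + 1) * ((1 + (n : ℝ) * (-1 / ((n : ℝ) + 1) ^ 2))
          * (((n : ℝ) + 1) ^ n * ((n : ℝ) + 1) ^ n)) := by ring
    _ ≤ (n + 1 + 1) * ((n : ℝ) ^ n * (n + 1 + 1) ^ n) := by gcongr
    _ = _ := by ring

lemma Aseq_mono : Monotone Aseq := monotone_nat_of_le_succ Aseq_succ

noncomputable def beta (i l : ℕ) : ℝ :=
  ((i + l).choose i : ℝ) * (i : ℝ) ^ i * (l : ℝ) ^ l / ((i : ℝ) + l) ^ (i + l)

lemma pow_self_pos (n : ℕ) : 0 < (n : ℝ) ^ n := by
  rcases Nat.eq_zero_or_pos n with h | h
  · subst h; simp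
  · positivity

lemma beta_pos (i l : ℕ) : 0 < beta i l := by
  unfold beta
  have h1 : (0 : ℝ) < (i + l).choose i := by exact_mod_cast Nat.choose_pos (by omega)
  have h2 := pow_self_pos i
  have h3 := pow_self_pos l
  have h4 := pow_self_pos (i + l)
  push_cast at h4
  positivity

lemma beta_symm (i l : ℕ) : beta i l = beta l i := by
  unfold beta
  rw [add_comm l i, Nat.choose_symm_add, add_comm (l : ℝ)]
  ring

lemma beta_succ (i l : ℕ) : beta (i + 1) l ≤ beta i l := by
  have h : beta (i + 1) l * Aseq (i + l) = beta i l * Aseq i := by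
    unfold beta Aseq
    have h0 := Nat.add_one_mul_choose_eq (i + l) i
    have h1 : (((i + l + 1) * (i + l).choose i : ℕ) : ℝ)
        = (((i + l + 1).choose (i + 1) * (i + 1) : ℕ) : ℝ) := by rw [h0]
    have h2 := pow_self_pos i
    have h4 := pow_self_pos (i + l)
    rw [show i + 1 + l = i + l + 1 by ring]
    push_cast at *
    have h5 : (((i + l + 1).choose (i + 1) : ℕ) : ℝ)
        = ((i : ℝ) + l + 1) * ((i + l).choose i : ℕ) / (i + 1) := by
      rw [h1]; field_simp
    rw [h5, show (i : ℝ) + 1 + l = i + l + 1 by ring]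
    field_simp
    ring
  have h1 : Aseq i ≤ Aseq (i + l) := Aseq_mono (by omega)
  have h2 := Aseq_pos (i + l)
  have h3 := beta_pos i l
  by_contra hc
  push Not at hc
  nlinarith [mul_lt_mul_of_pos_right hc h2, mul_le_mul_of_nonneg_left h1 h3.le]

lemma beta_anti {i i' l l' : ℕ} (hi : i ≤ i') (hl : l ≤ l') : beta i' l' ≤ beta i l := by
  have h1 : ∀ l, Antitone (fun i => beta i l) := fun l =>
    antitone_nat_of_succ_le (fun i => beta_succ i l)
  calc beta i' l' ≤ beta i l' := h1 l' hi
    _ = beta l' i := beta_symm _ _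
    _ ≤ beta l i := h1 i hl
    _ = beta i l := beta_symm _ _

lemma ext_split {b n k : ℕ} {x : ℝ} (hx0 : 0 ≤ x) (hx1 : x ≤ 1) (hs : (b : ℝ) + n * x = k) :
    ∃ i, k = i + b ∧ i ≤ n ∧ (n : ℝ) * x = i := by
  have h1 : (b : ℝ) ≤ k := by nlinarith [mul_nonneg (Nat.cast_nonneg (α := ℝ) n) hx0]
  have h2 : b ≤ k := by exact_mod_cast h1
  refine ⟨k - b, by omega, ?_, by push_cast [Nat.cast_sub h2]; linarith⟩
  have h3 : ((k - b : ℕ) : ℝ) ≤ n := by
    push_cast [Nat.cast_sub h2]
    nlinarith [mul_nonneg (Nat.cast_nonneg (α := ℝ) n) (sub_nonneg.2 hx1)]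
  exact_mod_cast h3

theorem hoeff1 (M : Multiset ℝ) (k : ℕ) (h01 : ∀ p ∈ M, 0 ≤ p ∧ p ≤ 1) (hs : M.sum = k) :
    ((k : ℝ) + 1) * (PP M).coeff (k + 1) ≤ k * (PP M).coeff k := by
  have := extremal ((k : ℝ) • lcoeff ℝ k - ((k : ℝ) + 1) • lcoeff ℝ (k + 1)) M.card k
    (fun b n x hx0 hx1 _ hs => by
      obtain ⟨i, rfl, hi, hx⟩ := ext_split hx0 hx1 hs
      simp only [LinearMap.sub_apply, LinearMap.smul_apply, lcoeff_apply, smul_eq_mul]
      rw [show i + b + 1 = (i + 1) + b by ring, coeff_X_pow_mul, coeff_X_pow_mul,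
        coeff_lin_pow, coeff_lin_pow]
      have hx1' : 0 ≤ 1 - x := by linarith
      rcases hi.eq_or_lt with h | h
      · subst h
        rw [Nat.choose_eq_zero_of_lt (by omega : i < i + 1)]
        simp; positivity
      · obtain ⟨m, rfl⟩ : ∃ m, n = i + 1 + m := ⟨n - (i + 1), by omega⟩
        rw [show i + 1 + m - (i + 1) = m by omega, show i + 1 + m - i = m + 1 by omega]
        have h0 := Nat.choose_succ_right_eq (i + 1 + m) i
        rw [show i + 1 + m - i = m + 1 by omega] at h0
        have h1 : (((i + 1 + m).choose (i + 1) * (i + 1) : ℕ) : ℝ)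
          = (((i + 1 + m).choose i * (m + 1) : ℕ) : ℝ) := by rw [h0]
        push_cast at *
        have h5 : (((i + 1 + m).choose (i + 1) : ℕ) : ℝ)
            = ((i + 1 + m).choose i : ℕ) * ((m : ℝ) + 1) / (i + 1) := by
          rw [← h1]; field_simp
        have h6 : ((m : ℝ) + 1) * x = i * (1 - x) := by linarith
        have e : ((i : ℝ) + b) * (((i + 1 + m).choose i : ℕ) * x ^ i * (1 - x) ^ (m + 1))
            - ((i : ℝ) + b + 1) * (((i + 1 + m).choose (i + 1) : ℕ) * x ^ (i + 1) * (1 - x) ^ m)
            = ((i + 1 + m).choose i : ℕ) * x ^ i * (1 - x) ^ (m + 1) * b / (i + 1) := by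
          rw [h5]
          have : (((i + 1 + m).choose i : ℕ) : ℝ) * ((m : ℝ) + 1) / (i + 1) * x ^ (i + 1) * (1 - x) ^ m
              = ((i + 1 + m).choose i : ℕ) * x ^ i * (1 - x) ^ m * (((m : ℝ) + 1) * x) / (i + 1) := by
            ring
          rw [this, h6]
          field_simp
          ring
        rw [e]
        positivity) M.card 0 M rfl h01 (by simp) (by simpa using hs)
  simp only [LinearMap.sub_apply, LinearMap.smul_apply, lcoeff_apply, smul_eq_mul, pow_zero,
    one_mul] at this
  linarith

theorem hoeff2 (M : Multiset ℝ) (k q : ℕ) (h01 : ∀ p ∈ M, 0 ≤ p ∧ p ≤ 1) (hs : M.sum = k)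
    (hd : M.card ≤ k + q) : beta k q ≤ (PP M).coeff k := by
  have := extremal (lcoeff ℝ k - (beta k q) • leval (1 : ℝ)) (k + q) k
    (fun b n x hx0 hx1 hb hs => by
      obtain ⟨i, rfl, hi, hx⟩ := ext_split hx0 hx1 hs
      simp only [LinearMap.sub_apply, LinearMap.smul_apply, lcoeff_apply, smul_eq_mul, leval_apply]
      rw [coeff_X_pow_mul, coeff_lin_pow, eval_mul, eval_pow, eval_pow, eval_one_lin, eval_X]
      obtain ⟨l, rfl⟩ : ∃ l, n = i + l := ⟨n - i, by omega⟩
      have h1 : beta (i + b) q ≤ beta i l := beta_anti (by omega) (by omega)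
      have h2 : beta i l = ((i + l).choose i : ℝ) * x ^ i * (1 - x) ^ (i + l - i) := by
        rw [show i + l - i = l by omega]
        rcases Nat.eq_zero_or_pos (i + l) with h | h
        · obtain ⟨rfl, rfl⟩ : i = 0 ∧ l = 0 := by omega
          simp [beta]
        · have hp : (0 : ℝ) < i + l := by exact_mod_cast h
          push_cast at hx
          have e1 : x = i / (i + l) := by field_simp; linarith
          have e2 : 1 - x = l / (i + l) := by rw [e1]; field_simp; ring
          rw [e2, e1, beta, div_pow, div_pow, pow_add]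
          field_simp
      simp only [one_pow, mul_one]
      linarith) M.card 0 M rfl h01 (by simpa using hd) (by simpa using hs)
  simp only [LinearMap.sub_apply, LinearMap.smul_apply, lcoeff_apply, smul_eq_mul, pow_zero,
    one_mul, leval_apply, eval_one_PP, mul_one] at this
  linarith

end Pool.Agent.Lib.MP_961538_co
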