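import Pool.Agent.Lib.MP_961538_co.Gam
import Pool.Agent.Lib.MP_961538_co.Hoeff
import Pool.Agent.Lib.MP_961538_co.Check

/-! The analytic core: from a certificate to one Kruskal-Katona inequality. -/

namespace Pool.Agent.Lib.MP_961538_co

open Polynomial Filter Topology

noncomputable def EE (R : Multiset ℝ) : ℝ[X] := (R.map fun r => 1 + C r * X).prod

@[simp] lemma EE_zero : EE 0 = 1 := by simp [EE]
lemma EE_cons (r : ℝ) (R : Multiset ℝ) : EE (r ::ₘ R) = (1 + C r * X) * EE R := by simp [EE]

lemma EE_coeff_zero (R : Multiset ℝ) : (EE R).coeff 0 = 1 := by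
  induction R using Multiset.induction_on with
  | empty => simp
  | cons r R ih => rw [EE_cons, mul_coeff_zero, ih]; simp

lemma EE_coeff_succ (r : ℝ) (R : Multiset ℝ) (j : ℕ) :
    (EE (r ::ₘ R)).coeff (j + 1) = (EE R).coeff (j + 1) + r * (EE R).coeff j := by
  rw [EE_cons, add_mul, one_mul, coeff_add, mul_assoc, coeff_C_mul, coeff_X_mul]

lemma EE_coeff_big (R : Multiset ℝ) (j : ℕ) (h : R.card < j) : (EE R).coeff j = 0 := by
  induction R using Multiset.induction_on generalizing j with
  | empty => rw [EE_zero, coeff_one, if_neg (by simp at h; omega)]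
  | cons r R ih =>
    rw [Multiset.card_cons] at h
    obtain ⟨i, rfl⟩ : ∃ i, j = i + 1 := ⟨j - 1, by omega⟩
    rw [EE_coeff_succ, ih _ (by omega), ih _ (by omega)]; simp

lemma EE_coeff_nonneg (R : Multiset ℝ) (h : ∀ r ∈ R, 0 < r) (j : ℕ) : 0 ≤ (EE R).coeff j := by
  induction R using Multiset.induction_on generalizing j with
  | empty => rw [EE_zero, coeff_one]; split_ifs <;> norm_num
  | cons r R ih =>
    have h1 := h r (Multiset.mem_cons_self _ _)
    have h2 := ih (fun p hp => h p (Multiset.mem_cons_of_mem hp))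
    cases j with
    | zero => rw [EE_coeff_zero]; norm_num
    | succ j => rw [EE_coeff_succ]; have := h2 j; have := h2 (j + 1); positivity

lemma EE_coeff_card (R : Multiset ℝ) : (EE R).coeff R.card = R.prod := by
  induction R using Multiset.induction_on with
  | empty => simp
  | cons r R ih =>
    rw [Multiset.card_cons, EE_coeff_succ, ih, EE_coeff_big _ _ (by omega)]; simp

lemma tilt (R : Multiset ℝ) (t : ℝ) (h : ∀ r ∈ R, 0 < r) (ht : 0 ≤ t) (j : ℕ) :
    (PP (R.map fun r => r * t / (1 + r * t))).coeff j * (R.map fun r => 1 + r * t).prod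
      = (EE R).coeff j * t ^ j := by
  induction R using Multiset.induction_on generalizing j with
  | empty => simp [coeff_one]; split_ifs with h <;> simp [h]
  | cons r R ih =>
    have h1 := h r (Multiset.mem_cons_self _ _)
    have h2 := ih (fun p hp => h p (Multiset.mem_cons_of_mem hp))
    have h3 : (1 + r * t) ≠ 0 := by positivity
    simp only [Multiset.map_cons, PP_cons, Multiset.prod_cons]
    cases j with
    | zero =>
      have := h2 0
      rw [coeff_lin_mul_zero, EE_coeff_zero]
      rw [EE_coeff_zero] at this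
      rw [← this]; field_simp; ring
    | succ j =>
      rw [coeff_lin_mul_succ, EE_coeff_succ, add_mul ((EE R).coeff (j + 1)), ← h2 (j + 1),
        mul_assoc r, pow_succ, ← mul_assoc ((EE R).coeff j), ← h2 j]
      field_simp; ring

def kap (d : ℕ) : ℕ → ℕ
  | 0 => 0
  | j + 1 => (d - 1).choose j

lemma amgm (R : Multiset ℝ) (h : ∀ r ∈ R, 0 < r) (j : ℕ) (y : ℝ) (hy : 0 < y) :
    (R.card.choose j : ℝ) * (1 + Real.log y) + kap R.card j * (R.map Real.log).sum
      ≤ y * (EE R).coeff j := by
  induction R using Multiset.induction_on generalizing j y with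
  | empty =>
    cases j with
    | zero => simp; linarith [Real.log_le_sub_one_of_pos hy]
    | succ j => simp [coeff_one]
  | cons r R ih =>
    have h1 := h r (Multiset.mem_cons_self _ _)
    have h2 := ih (fun p hp => h p (Multiset.mem_cons_of_mem hp))
    cases j with
    | zero => simp [kap, EE_coeff_zero]; linarith [Real.log_le_sub_one_of_pos hy]
    | succ j =>
      have a1 := h2 (j + 1) y hy
      have a2 := h2 j (y * r) (by positivity)
      rw [Real.log_mul hy.ne' h1.ne'] at a2
      have a3 : ((kap R.card (j + 1) : ℝ) + kap R.card j) * (R.map Real.log).sum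
          = (R.card.choose j : ℝ) * (R.map Real.log).sum := by
        by_cases h0 : R = 0
        · subst h0; simp
        · obtain ⟨m, hm⟩ : ∃ m, R.card = m + 1 :=
            ⟨R.card - 1, by have := Multiset.card_pos.2 h0; omega⟩
          rw [hm]
          cases j with
          | zero => simp [kap]
          | succ j => simp only [kap, Nat.add_sub_cancel]; rw [Nat.choose_succ_succ' m j]; push_cast; ring
      rw [EE_coeff_succ, Multiset.card_cons, Nat.choose_succ_succ', Multiset.map_cons,
        Multiset.sum_cons]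
      simp only [kap, Nat.add_sub_cancel] at *
      push_cast
      linarith

lemma exists_tilt (R : Multiset ℝ) (h : ∀ r ∈ R, 0 < r) (k : ℕ) (hk : 1 ≤ k) (hd : k < R.card) :
    ∃ t : ℝ, 0 < t ∧ (R.map fun r => r * t / (1 + r * t)).sum = k := by
  have hc : ∀ R : Multiset ℝ, (∀ r ∈ R, 0 < r) →
      ContinuousOn (fun t : ℝ => (R.map fun r => r * t / (1 + r * t)).sum) (Set.Ici 0) := by
    intro R h
    induction R using Multiset.induction_on with
    | empty => simpa using continuousOn_const
    | cons r R ih =>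
      have h1 := h r (Multiset.mem_cons_self _ _)
      have h2 := ih (fun p hp => h p (Multiset.mem_cons_of_mem hp))
      simp only [Multiset.map_cons, Multiset.sum_cons]
      refine ContinuousOn.add (ContinuousOn.div (by fun_prop) (by fun_prop) ?_) h2
      intro t ht
      have : 0 ≤ t := ht
      positivity
  have hl : ∀ R : Multiset ℝ, (∀ r ∈ R, 0 < r) →
      Tendsto (fun t : ℝ => (R.map fun r => r * t / (1 + r * t)).sum) atTop (𝓝 R.card) := by
    intro R h
    induction R using Multiset.induction_on with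
    | empty => simp
    | cons r R ih =>
      have h1 := h r (Multiset.mem_cons_self _ _)
      have h2 := ih (fun p hp => h p (Multiset.mem_cons_of_mem hp))
      simp only [Multiset.map_cons, Multiset.sum_cons, Multiset.card_cons]
      push_cast
      rw [add_comm (R.card : ℝ)]
      refine Tendsto.add ?_ h2
      have a1 : Tendsto (fun t : ℝ => 1 + r * t) atTop atTop :=
        tendsto_atTop_add_const_left _ _ (tendsto_id.const_mul_atTop h1)
      have a2 := (tendsto_const_nhds (x := (1 : ℝ))).sub a1.inv_tendsto_atTop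
      rw [sub_zero] at a2
      refine a2.congr' ?_
      filter_upwards [eventually_ge_atTop 0] with t ht
      have : (1 + r * t) ≠ 0 := by positivity
      simp only [Pi.inv_apply]
      field_simp; ring
  have hd' : (k : ℝ) < R.card := by exact_mod_cast hd
  obtain ⟨T, hT, hT0⟩ := (((hl R h).eventually (lt_mem_nhds hd')).and (eventually_ge_atTop 0)).exists
  have hiv := intermediate_value_Icc hT0 ((hc R h).mono (Set.Icc_subset_Ici_self))
  have hk' : (1 : ℝ) ≤ k := by exact_mod_cast hk
  obtain ⟨t, ht, hts⟩ := hiv (show (k : ℝ) ∈ Set.Icc _ _ from ⟨by simp, hT.le⟩)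
  refine ⟨t, lt_of_le_of_ne ht.1 ?_, hts⟩
  rintro rfl
  simp at hts
  linarith

def Good (R : Multiset ℝ) : Prop :=
  (∀ r ∈ R, Gd r) ∧ 0 ≤ (R.map Real.log).sum ∧ 0 ≤ (R.map fun r => Real.log |r - 1|).sum ∧
    0 ≤ (R.map fun r => Real.log |r - 2|).sum ∧
    0 ≤ (R.map fun r => Real.log |r ^ 2 - 3 * r + 1|).sum

def Adm (φ : ℝ → ℝ) : Prop := ∀ R, Good R → 0 ≤ (R.map φ).sum

lemma sum_aux (b0 b1 b2 b3 θ : ℝ) (R : Multiset ℝ) :
    (R.map fun r => θ * aux b0 b1 b2 b3 r).sum = θ * (b0 * (R.map Real.log).sum
      + b1 * (R.map fun r => Real.log |r - 1|).sum + b2 * (R.map fun r => Real.log |r - 2|).sum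
      + b3 * (R.map fun r => Real.log |r ^ 2 - 3 * r + 1|).sum) := by
  induction R using Multiset.induction_on with
  | empty => simp
  | cons r R ih => simp only [Multiset.map_cons, Multiset.sum_cons, ih]; unfold aux; ring

lemma adm_of {φ : ℝ → ℝ} (b0 b1 b2 b3 : ℕ) (θ : ℝ) (hθ : 0 ≤ θ)
    (h : ∀ r, Gd r → θ * aux b0 b1 b2 b3 r ≤ φ r) : Adm φ := by
  intro R ⟨h0, h1, h2, h3, h4⟩
  refine le_trans ?_ (Multiset.sum_map_le_sum_map _ _ (fun r hr => h r (h0 r hr)))
  rw [sum_aux]
  positivity

def CertA (t l c : ℝ) : Prop :=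
  Adm fun r => Real.log (1 + r * t) - l * (r * t / (1 + r * t)) + c

noncomputable def WW (k n : ℕ) : ℝ :=
  Real.log (k + n + 1) - Real.log (n + 1) + (k + n) * Real.log (k + n) - k * Real.log k
    - n * Real.log n

def Cover (k n : ℕ) : Prop :=
  ∃ γ t l c : ℝ, GamOK k n γ ∧ γ < n ∧ k ≤ t * (n - γ) ∧ 0 < t ∧ 0 ≤ c ∧ CertA t l c ∧
    WW k n ≤ l * k - c * (k + n) - k * Real.log t

lemma sum_cert (R : Multiset ℝ) (t l c : ℝ) :
    (R.map fun r => Real.log (1 + r * t) - l * (r * t / (1 + r * t)) + c).sum
      = (R.map fun r => Real.log (1 + r * t)).sum - l * (R.map fun r => r * t / (1 + r * t)).sum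
        + c * R.card := by
  induction R using Multiset.induction_on with
  | empty => simp
  | cons r R ih =>
    simp only [Multiset.map_cons, Multiset.sum_cons, ih, Multiset.card_cons]; push_cast; ring

lemma shift (R : Multiset ℝ) (h : ∀ r ∈ R, 0 < r) {t u : ℝ} (ht : 0 < t) (htu : t ≤ u) :
    (R.map fun r => Real.log (1 + r * u)).sum
        - (Real.log u - Real.log t) * (R.map fun r => r * u / (1 + r * u)).sum
        ≤ (R.map fun r => Real.log (1 + r * t)).sum ∧
      (R.map fun r => r * t / (1 + r * t)).sum ≤ (R.map fun r => r * u / (1 + r * u)).sum ∧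
      0 ≤ (R.map fun r => Real.log (1 + r * t)).sum ∧
      Real.log (R.map fun r => 1 + r * t).prod = (R.map fun r => Real.log (1 + r * t)).sum ∧
      0 < (R.map fun r => 1 + r * t).prod := by
  induction R using Multiset.induction_on with
  | empty => simp
  | cons r R ih =>
    have h1 := h r (Multiset.mem_cons_self _ _)
    obtain ⟨a1, a2, a3, a4, a5⟩ := ih (fun p hp => h p (Multiset.mem_cons_of_mem hp))
    have hu : 0 < u := by linarith
    have b0 : 0 < 1 + r * t := by positivity
    have b1 : 0 < 1 + r * u := by positivity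
    simp only [Multiset.map_cons, Multiset.sum_cons, Multiset.prod_cons]
    refine ⟨?_, ?_, ?_, ?_, by positivity⟩
    · have c := interp_log (A := 1) (B := t / u) (s := r * u / (1 + r * u)) one_pos
        (by positivity) (by positivity) (by rw [div_le_one b1]; linarith)
      have e : (1 - r * u / (1 + r * u)) * 1 + r * u / (1 + r * u) * (t / u)
          = (1 + r * t) / (1 + r * u) := by field_simp; ring
      rw [e, Real.log_one, Real.log_div b0.ne' b1.ne', Real.log_div ht.ne' hu.ne'] at c
      linarith
    · have : r * t / (1 + r * t) ≤ r * u / (1 + r * u) := by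
        rw [div_le_div_iff₀ b0 b1]; nlinarith
      linarith
    · have : 0 ≤ Real.log (1 + r * t) := Real.log_nonneg (by nlinarith [mul_pos h1 ht])
      linarith
    · rw [Real.log_mul b0.ne' a5.ne', a4]

theorem core (R : Multiset ℝ) (hR : Good R) (e : ℕ → ℕ) (he : ∀ j, (e j : ℝ) = (EE R).coeff j)
    (k : ℕ) (hk : 1 ≤ k) (hc : ∀ n, 1 ≤ n → Cover k n) : sh (k + 1) (e (k + 1)) ≤ e k := by
  by_contra hcon
  push Not at hcon
  have hpos : ∀ r ∈ R, 0 < r := fun r hr => (hR.1 r hr).1
  have hm : e (k + 1) ≠ 0 := by intro h; rw [h] at hcon; simp at hcon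
  have hd : k < R.card := by
    by_contra h
    have := EE_coeff_big R (k + 1) (by omega)
    rw [← he] at this
    exact hm (by exact_mod_cast this)
  obtain ⟨a, y, ha, hy, hay⟩ := decomp k _ hm
  obtain ⟨n, rfl⟩ : ∃ n, a = k + n := ⟨a - k, by omega⟩
  have hn : 1 ≤ n := by omega
  have hda : R.card ≤ k + n := by
    have h1 := amgm R hpos (k + 1) 1 one_pos
    rw [Real.log_one, ← he] at h1
    have h2 : (0 : ℝ) ≤ kap R.card (k + 1) * (R.map Real.log).sum :=
      mul_nonneg (by positivity) hR.2.1
    have h3 : R.card.choose (k + 1) ≤ e (k + 1) := by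
      have : (R.card.choose (k + 1) : ℝ) ≤ e (k + 1) := by linarith
      exact_mod_cast this
    by_contra h
    have h4 : (k + n + 1).choose (k + 1) ≤ R.card.choose (k + 1) :=
      Nat.choose_le_choose _ (by omega)
    rw [Nat.choose_succ_succ'] at h4
    omega
  obtain ⟨γ, u, l, c, hG, hγ, hku, hu, hc0, hA, hW⟩ := hc n hn
  have g1 := gam_use hG hn hy
  rw [← hay] at g1
  have g2 : sh (k + 1) (e (k + 1)) ≤ (k + n + 1).choose k :=
    sh_le (by rw [Nat.choose_succ_succ']; omega)
  obtain ⟨t, ht, hS⟩ := exists_tilt R hpos k hk hd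
  have h01 : ∀ p ∈ R.map fun r => r * t / (1 + r * t), 0 ≤ p ∧ p ≤ 1 := by
    intro p hp
    obtain ⟨r, hr, rfl⟩ := Multiset.mem_map.1 hp
    have := hpos r hr
    exact ⟨by positivity, by rw [div_le_one (by positivity)]; linarith⟩
  have H1 := hoeff1 _ k h01 hS
  have H2 := hoeff2 _ k n h01 hS (by simpa using hda)
  have T1 := tilt R t hpos ht.le k
  have T2 := tilt R t hpos ht.le (k + 1)
  rw [← he] at T1 T2
  obtain ⟨-, -, -, -, hF⟩ := shift R hpos ht le_rfl
  set F := (R.map fun r => 1 + r * t).prod
  have htk : 0 < t ^ k := by positivity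
  have rk : (0 : ℝ) < k := by exact_mod_cast hk
  have rn : (0 : ℝ) < n := by exact_mod_cast hn
  have hcon' : (e k : ℝ) < sh (k + 1) (e (k + 1)) := by exact_mod_cast hcon
  have e1 : ((k : ℝ) + 1) * e (k + 1) * t ≤ k * e k := by
    have := mul_le_mul_of_nonneg_right H1 hF.le
    rw [mul_assoc, mul_assoc, T1, T2, pow_succ] at this
    refine le_of_mul_le_mul_right ?_ htk
    linarith
  have e2 : beta k n * F ≤ e k * t ^ k := by
    rw [← T1]; exact mul_le_mul_of_nonneg_right H2 hF.le
  have hb := beta_pos k n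
  have hek : (0 : ℝ) < e k := by
    have : 0 < (e k : ℝ) * t ^ k := lt_of_lt_of_le (by positivity) e2
    exact (mul_pos_iff_of_pos_right htk).1 this
  have htu : t ≤ u := by
    have hγ' : 0 < (n : ℝ) - γ := by linarith
    have f1 : ((n : ℝ) - γ) * e k * t ≤ k * e k := by
      have := mul_le_mul_of_nonneg_right ((mul_le_mul_of_nonneg_left hcon'.le hγ'.le).trans g1) ht.le
      linarith
    have f2 : ((n : ℝ) - γ) * t ≤ k := by
      refine le_of_mul_le_mul_right ?_ hek
      linarith
    refine le_of_mul_le_mul_left ?_ hγ'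
    linarith
  obtain ⟨s1, s2, s3, s4, -⟩ := shift R hpos ht htu
  have s5 := hA R hR
  rw [sum_cert] at s5
  rw [hS] at s2
  have hda' : (R.card : ℝ) ≤ k + n := by exact_mod_cast hda
  have s6 : l * k - c * (k + n) - k * Real.log u ≤ Real.log F - k * Real.log t := by
    rw [s4]
    have := mul_le_mul_of_nonneg_left hda' hc0
    rcases le_total (Real.log u - Real.log t) l with h | h
    · nlinarith [mul_le_mul_of_nonneg_left s2 (sub_nonneg.2 h)]
    · nlinarith [mul_le_mul_of_nonneg_left h rk.le, mul_nonneg hc0 (Nat.cast_nonneg (α := ℝ) R.card)]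
  have g3 : (e k : ℝ) < (k + n + 1).choose k := by
    have : e k < (k + n + 1).choose k := by omega
    exact_mod_cast this
  have g4 : (((k + n + 1).choose k : ℕ) : ℝ) * (n + 1) = (k + n).choose k * (k + n + 1) := by
    have := Nat.choose_mul_succ_eq (k + n) k
    rw [show k + n + 1 - k = n + 1 by omega] at this
    exact_mod_cast this.symm
  have hC : (0 : ℝ) < (k + n).choose k := by exact_mod_cast Nat.choose_pos (by omega)
  have g5 : (k : ℝ) ^ k * (n : ℝ) ^ n * F * (n + 1) < (k + n + 1) * ((k : ℝ) + n) ^ (k + n) * t ^ k := by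
    have p1 : beta k n * F * (n + 1) < (k + n).choose k * (k + n + 1) * t ^ k := by
      rw [← g4]
      have := mul_lt_mul_of_pos_right g3 htk
      nlinarith
    unfold beta at p1
    have p2 : (0 : ℝ) < ((k : ℝ) + n) ^ (k + n) := by positivity
    rw [div_mul_eq_mul_div, div_mul_eq_mul_div, div_lt_iff₀ p2] at p1
    refine lt_of_mul_lt_mul_left ?_ hC.le
    linarith
  have g6 := Real.log_lt_log (by positivity) g5
  rw [Real.log_mul (by positivity) (by positivity), Real.log_mul (by positivity) (by positivity),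
    Real.log_mul (by positivity) (by positivity), Real.log_mul (by positivity) (by positivity),
    Real.log_mul (by positivity) (by positivity), Real.log_pow, Real.log_pow, Real.log_pow,
    Real.log_pow] at g6
  unfold WW at hW
  push_cast at g6
  linarith

end Pool.Agent.Lib.MP_961538_co
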