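import Pool.Agent.Lib.MP_961538_co.Core

/-! Covering all pairs `(k, n)` by certificates. -/

namespace Pool.Agent.Lib.MP_961538_co

def gg (n : ℕ) : ℕ := if n = 1 then 0 else if n = 2 then 30 else 50

lemma gamGen {k : ℕ} (hk : 3 ≤ k) (n : ℕ) : GamOK k n ((gg n : ℝ) / 100) := by
  unfold gg
  split_ifs with h1 h2
  · subst h1; simpa using gam1 k
  · subst h2; have := gam2 k; norm_num at this ⊢; exact this
  · have := gam3 k n hk; norm_num at this ⊢; exact this

lemma WW_le {k n : ℕ} (hk : 1 ≤ k) (hn : 1 ≤ n) {τ : ℝ} (hτ : 0 < τ) :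
    WW k n ≤ (k + n + 1) * Real.log (1 + τ) - k * Real.log τ := by
  have rk : (0 : ℝ) < k := by exact_mod_cast hk
  have rn : (0 : ℝ) < n := by exact_mod_cast hn
  have h1 : Aseq n ≤ Aseq (k + n) := Aseq_mono (by omega)
  have h2 := Real.log_le_log (Aseq_pos n) h1
  unfold Aseq at h2
  push_cast at h2
  rw [Real.log_div (by positivity) (by positivity), Real.log_div (by positivity) (by positivity),
    Real.log_pow, Real.log_pow, Real.log_pow, Real.log_pow] at h2
  have h3 : Real.log (((k : ℝ) + n + 1) * τ / (k * (1 + τ))) ≤ _ :=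
    Real.log_le_sub_one_of_pos (by positivity)
  have h4 : Real.log (((k : ℝ) + n + 1) / ((n + 1) * (1 + τ))) ≤ _ :=
    Real.log_le_sub_one_of_pos (by positivity)
  rw [Real.log_div (by positivity) (by positivity), Real.log_mul (by positivity) (by positivity),
    Real.log_mul (by positivity) (by positivity)] at h3
  rw [Real.log_div (by positivity) (by positivity),
    Real.log_mul (by positivity) (by positivity)] at h4
  have h5 := mul_le_mul_of_nonneg_left h3 rk.le
  have h6 := mul_le_mul_of_nonneg_left h4 (show (0 : ℝ) ≤ n + 1 by positivity)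
  have e : (k : ℝ) * ((k + n + 1) * τ / (k * (1 + τ)) - 1)
      + (n + 1) * ((k + n + 1) / ((n + 1) * (1 + τ)) - 1) = 0 := by field_simp; ring
  unfold WW
  push_cast at h2
  linarith

lemma F_mono {x y : ℝ} (hx : 0 < x) (hxy : x ≤ y) :
    ((1 + y) * Real.log (1 + y) - y) / y ^ 2 ≤ ((1 + x) * Real.log (1 + x) - x) / x ^ 2 := by
  have hd : ∀ u : ℝ, 0 < u → HasDerivAt (fun u : ℝ => ((1 + u) * Real.log (1 + u) - u) / u ^ 2)
      ((2 * u - (u + 2) * Real.log (1 + u)) / u ^ 3) u := by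
    intro u hu
    have a1 : HasDerivAt (fun u : ℝ => 1 + u) 1 u := (hasDerivAt_id u).const_add 1
    have a2 := a1.log (by positivity)
    have a3 := ((a1.mul a2).sub (hasDerivAt_id u)).div (hasDerivAt_pow 2 u) (by positivity)
    refine a3.congr_deriv ?_
    simp only [id, Pi.mul_apply, Pi.sub_apply]
    field_simp
    ring
  have hanti : AntitoneOn (fun u : ℝ => ((1 + u) * Real.log (1 + u) - u) / u ^ 2) (Set.Ioi 0) := by
    apply antitoneOn_of_deriv_nonpos (convex_Ioi 0)
    · exact fun u hu => (hd u hu).continuousAt.continuousWithinAt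
    · rw [interior_Ioi]; exact fun u hu => (hd u hu).differentiableAt.differentiableWithinAt
    · rw [interior_Ioi]
      intro u hu
      have hu' : 0 < u := hu
      rw [(hd u hu).deriv]
      apply div_nonpos_of_nonpos_of_nonneg _ (by positivity)
      have := Real.le_log_one_add_of_nonneg hu'.le
      rw [div_le_iff₀ (by positivity)] at this
      linarith
  exact hanti hx (lt_of_lt_of_le hx hxy) hxy

lemma log_le_pade {t : ℝ} (ht : 0 ≤ t) : (1 + t) * Real.log (1 + t) ≤ t + t ^ 2 / 2 := by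
  have h0 : 0 ≤ Real.log (1 + t) := Real.log_nonneg (by linarith)
  have h1 := Real.self_le_sinh_iff.2 h0
  rw [Real.sinh_log (by positivity)] at h1
  have h2 := mul_le_mul_of_nonneg_left h1 (show 0 ≤ 1 + t by positivity)
  refine h2.trans (le_of_eq ?_)
  field_simp; ring

def chkS (T : List Row) (RM LR : ℕ) (z : Cert) : Bool :=
  chkA T LR RM z && chkB T LR z && Nat.beq z.tn 1 && Nat.beq z.td 5 && Nat.ble (6 * SS) (5 * z.lam)

lemma famS {T : List Row} {RM LR : ℕ} {z : Cert} (hG : TblGood T RM LR)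
    (h : chkS T RM LR z = true) {t : ℝ} (ht : 0 < t) (ht5 : t ≤ 1 / 5) : CertA t (1 + t) 0 := by
  simp only [chkS, Bool.and_eq_true, Nat.ble_eq, Nat.beq_eq] at h
  obtain ⟨⟨⟨⟨hA, hB⟩, h1⟩, h5⟩, hl⟩ := h
  have hS := SS_pos
  refine adm_of z.b0 z.b1 z.b2 z.b3 ((5 * t) ^ 2 / SS) (by positivity) (fun r hr => ?_)
  have a1 := chkA_sound' hG hA hr
  have a2 := chkB_sound hG hB hr
  have hc : z.cc = 0 := by
    simp only [chkB, Bool.and_eq_true, Nat.ble_eq] at hB
    unfold Cert.cc; rw [Nat.le_zero.1 hB.1.2]; simp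
  have hzt : z.t = 1 / 5 := by unfold Cert.t; rw [h1, h5]; norm_num
  have hl' : 6 / 5 ≤ z.l := by
    unfold Cert.l
    rw [le_div_iff₀ hS]
    have := (Nat.cast_le (α := ℝ)).2 hl
    push_cast at this; linarith
  rw [hzt] at a1 a2
  rw [hc] at a1
  have r0 := hr.1
  set y := r * (1 / 5) with hy
  have y0 : 0 < y := by positivity
  have x0 : 0 < r * t := by positivity
  have hxy : r * t ≤ y := mul_le_mul_of_nonneg_left ht5 r0.le
  set N := (1 + y) * Real.log (1 + y) - y - y / 5 with hN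
  have b2 : z.ax r ≤ N := by nlinarith
  have b1 : z.ax r ≤ N / (1 + y) := by
    have e : N / (1 + y) = Real.log (1 + y) - 6 / 5 * (y / (1 + y)) := by
      rw [hN]; field_simp; ring
    have : 0 ≤ y / (1 + y) := by positivity
    rw [e]; nlinarith
  have b3 : z.ax r ≤ N / (1 + r * t) := by
    rcases le_total 0 N with h0 | h0
    · exact b1.trans (div_le_div_of_nonneg_left h0 (by positivity) (by linarith))
    · refine b2.trans ?_
      rw [le_div_iff₀ (by positivity)]
      nlinarith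
  have b4 := F_mono x0 hxy
  have b5 : (5 * t) ^ 2 * N ≤ (1 + r * t) * Real.log (1 + r * t) - r * t - t * (r * t) := by
    rw [div_le_div_iff₀ (by positivity) (by positivity)] at b4
    have e1 : (r * t) ^ 2 = (5 * t) ^ 2 * y ^ 2 := by rw [hy]; ring
    rw [e1] at b4
    have b6 : (5 * t) ^ 2 * ((1 + y) * Real.log (1 + y) - y)
        ≤ (1 + r * t) * Real.log (1 + r * t) - r * t := by
      refine le_of_mul_le_mul_right ?_ (show 0 < y ^ 2 by positivity)
      linarith
    have e2 : (5 * t) ^ 2 * (y / 5) = t * (r * t) := by rw [hy]; ring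
    rw [hN, mul_sub, e2]; linarith
  have e3 : (5 * t) ^ 2 / SS * aux z.b0 z.b1 z.b2 z.b3 r = (5 * t) ^ 2 * z.ax r := by
    unfold Cert.ax; ring
  have e4 : Real.log (1 + r * t) - (1 + t) * (r * t / (1 + r * t)) + 0
      = ((1 + r * t) * Real.log (1 + r * t) - r * t - t * (r * t)) / (1 + r * t) := by
    field_simp; ring
  rw [e3, e4]
  calc (5 * t) ^ 2 * z.ax r ≤ (5 * t) ^ 2 * (N / (1 + r * t)) := by gcongr
    _ = (5 * t) ^ 2 * N / (1 + r * t) := by ring
    _ ≤ _ := by gcongr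

lemma coverS (hS : ∀ t : ℝ, 0 < t → t ≤ 1 / 5 → CertA t (1 + t) 0) {k n : ℕ} (hk : 3 ≤ k)
    (hn : 5 * k + 1 ≤ n) : Cover k n := by
  have rk : (3 : ℝ) ≤ k := by exact_mod_cast hk
  have rn : 5 * (k : ℝ) + 1 ≤ n := by exact_mod_cast hn
  have hν : (0 : ℝ) < n - 1 / 2 := by linarith
  set t : ℝ := k / (n - 1 / 2) with ht
  have t0 : 0 < t := by positivity
  have e : t * (n - 1 / 2) = k := div_mul_cancel₀ _ hν.ne'
  have t5 : t ≤ 1 / 5 := by rw [ht, div_le_iff₀ hν]; linarith
  refine ⟨1 / 2, t, 1 + t, 0, gam3 k n hk, by linarith, e.ge, t0, le_rfl, hS t t0 t5, ?_⟩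
  refine (WW_le (by omega) (by omega) t0).trans ?_
  have h1 := log_le_pade t0.le
  have h2 : Real.log (1 + t) ≤ t := by
    have := Real.log_le_sub_one_of_pos (show 0 < 1 + t by positivity); linarith
  have h3 : ((k : ℝ) + n + 1) * Real.log (1 + t) ≤ (1 + t) * k := by
    refine le_of_mul_le_mul_left ?_ t0
    have e2 : t * (((k : ℝ) + n + 1) * Real.log (1 + t))
        = k * ((1 + t) * Real.log (1 + t)) + 3 / 2 * t * Real.log (1 + t) := by
      have : t * n = k + t / 2 := by linarith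
      have e3 : t * (((k : ℝ) + n + 1) * Real.log (1 + t))
        = (t * k + t * n + t) * Real.log (1 + t) := by ring
      rw [e3, this]; ring
    rw [e2]
    have f1 := mul_le_mul_of_nonneg_left h1 (show (0 : ℝ) ≤ k by linarith)
    have f2 := mul_le_mul_of_nonneg_left h2 (show (0 : ℝ) ≤ 3 / 2 * t by positivity)
    nlinarith [mul_le_mul_of_nonneg_left rk (sq_nonneg t)]
  linarith

def chkL (T : List Row) (LR star : ℕ) (z : Cert) : Bool :=
  chkA T LR star z && Nat.beq z.tn 16 && Nat.beq z.td 1 && Nat.ble (SS + 16 * star) z.lam &&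
    Nat.ble (1000 * z.lam) (10288 * SS) && Nat.ble (366 * SS + 100 * z.c) (100 * z.lam)

def FamL : Prop := ∃ B C0 : ℝ, B ≤ 643 / 1000 ∧ 8874 / 10000 ≤ C0 ∧ ∀ t : ℝ, 16 ≤ t →
  0 ≤ B * t - Real.log t - C0 ∧ CertA t (B * t) (B * t - Real.log t - C0)

lemma log16 : Real.log 16 ≤ 27726 / 10000 := by
  have h := Real.log_two_lt_d9
  rw [show (16 : ℝ) = 2 ^ 4 by norm_num, Real.log_pow]
  norm_num at *; linarith

lemma log_tan {t : ℝ} (ht : 16 ≤ t) : Real.log t ≤ Real.log 16 + t / 16 - 1 := by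
  have := Real.log_le_sub_one_of_pos (show 0 < t / 16 by positivity)
  rw [Real.log_div (by positivity) (by norm_num)] at this
  linarith

lemma famL {T : List Row} {RM LR star : ℕ} {z : Cert} (hG : TblGood T RM LR)
    (h : chkL T LR star z = true) : FamL := by
  simp only [chkL, Bool.and_eq_true, Nat.ble_eq, Nat.beq_eq] at h
  obtain ⟨⟨⟨⟨⟨hA, h1⟩, h2⟩, h3⟩, h4⟩, h5⟩ := h
  have hS := SS_pos
  have h3' := (Nat.cast_le (α := ℝ)).2 h3
  have h4' := (Nat.cast_le (α := ℝ)).2 h4
  have h5' := (Nat.cast_le (α := ℝ)).2 h5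
  push_cast at h3' h4' h5'
  have el : (z.lam : ℝ) = z.l * SS := by unfold Cert.l; field_simp
  have ec : (z.c : ℝ) = z.cc * SS := by unfold Cert.cc; field_simp
  rw [el] at h3' h4' h5'
  rw [ec] at h5'
  have k4 : 1000 * z.l ≤ 10288 := le_of_mul_le_mul_right (by linarith) hS
  have k5 : 366 + 100 * z.cc ≤ 100 * z.l := le_of_mul_le_mul_right (by linarith) hS
  have k1 : 1 ≤ z.l := by
    refine le_of_mul_le_mul_right ?_ hS
    have : (0 : ℝ) ≤ star := by positivity
    linarith
  have hzt : z.t = 16 := by unfold Cert.t; rw [h1, h2]; norm_num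
  refine ⟨z.l / 16, z.l - Real.log 16 - z.cc, by linarith, by linarith [log16], fun t ht => ?_⟩
  have t0 : 0 < t := by linarith
  constructor
  · have := log_tan ht
    have := z.cc_nonneg
    nlinarith
  refine adm_of z.b0 z.b1 z.b2 z.b3 (1 / SS) (by positivity) (fun r hr => ?_)
  have e3 : 1 / SS * aux z.b0 z.b1 z.b2 z.b3 r = z.ax r := by unfold Cert.ax; ring
  rw [e3]
  have r0 := hr.1
  have key : ∀ u : ℝ, 0 < u → Real.log (1 + r * u) - z.l / 16 * u * (r * u / (1 + r * u))
      + (z.l / 16 * u - Real.log u) = Real.log (r + 1 / u) + z.l / 16 / (r + 1 / u) := by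
    intro u hu
    have : r + 1 / u = (1 + r * u) / u := by field_simp; ring_nf
    rw [this, Real.log_div (by positivity) hu.ne']
    field_simp; ring
  have k16 := key 16 (by norm_num)
  have kt := key t t0
  have hyy : r + 1 / t ≤ r + 1 / 16 := by
    have := one_div_le_one_div_of_le (by norm_num : (0 : ℝ) < 16) ht
    linarith
  have y0 : 0 < r + 1 / t := by positivity
  rw [show z.l / 16 * 16 = z.l by ring] at k16
  rcases chkA_sound hG hA hr with ⟨hr1, a1⟩ | a1
  · rw [hzt] at a1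
    have b1 : r + 1 / 16 ≤ z.l / 16 := by
      have : 1 + 16 * r ≤ z.l := le_of_mul_le_mul_right (by linarith) hS
      linarith
    set y := r + 1 / t
    set w := r + 1 / 16
    have w0 : 0 < w := by linarith
    have c1 : Real.log (w / y) ≤ w / y - 1 := Real.log_le_sub_one_of_pos (by positivity)
    rw [Real.log_div w0.ne' y0.ne'] at c1
    have c2 : w / y - 1 ≤ z.l / 16 / y - z.l / 16 / w := by
      have e1 : z.l / 16 / y - z.l / 16 / w - (w / y - 1) = (w - y) * (z.l / 16 - w) / (y * w) := by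
        field_simp
      have : 0 ≤ (w - y) * (z.l / 16 - w) / (y * w) :=
        div_nonneg (mul_nonneg (by linarith) (by linarith)) (by positivity)
      linarith
    linarith
  · rw [hzt, Real.log_mul r0.ne' (by norm_num)] at a1
    have c1 : Real.log r ≤ Real.log (r + 1 / t) :=
      Real.log_le_log r0 (by have : 0 < 1 / t := by positivity
                             linarith)
    have c2 : z.l / 16 / (r + 1 / 16) ≤ z.l / 16 / (r + 1 / t) :=
      div_le_div_of_nonneg_left (by linarith) y0 hyy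
    have c3 : z.l / 16 / (r + 1 / 16) = z.l - z.l * (r * 16 / (1 + r * 16)) := by
      field_simp; ring
    linarith

lemma coverL (hL : FamL) {k n : ℕ} (hk : 3 ≤ k) (hn : 1 ≤ n)
    (h : 1600 * n ≤ 100 * k + 16 * gg n) : Cover k n := by
  obtain ⟨B, C0, hB, hC, hL⟩ := hL
  have rk : (3 : ℝ) ≤ k := by exact_mod_cast hk
  have rn : (1 : ℝ) ≤ n := by exact_mod_cast hn
  have h' := (Nat.cast_le (α := ℝ)).2 h
  push_cast at h'
  have hg : (gg n : ℝ) ≤ 50 := by
    have : gg n ≤ 50 := by unfold gg; split_ifs <;> omega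
    exact_mod_cast this
  have hν : (0 : ℝ) < n - gg n / 100 := by linarith
  set t : ℝ := k / (n - gg n / 100) with ht
  have e : t * (n - gg n / 100) = k := div_mul_cancel₀ _ hν.ne'
  have t16 : 16 ≤ t := by rw [ht, le_div_iff₀ hν]; linarith
  have t0 : 0 < t := by linarith
  obtain ⟨c0, hA⟩ := hL t t16
  refine ⟨gg n / 100, t, B * t, _, gamGen hk n, by linarith, e.ge, t0, c0, hA, ?_⟩
  refine (WW_le (by omega) hn t0).trans ?_
  have h1 : Real.log (1 + t) ≤ Real.log t + 1 / t := by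
    have := Real.log_le_sub_one_of_pos (show 0 < (1 + t) / t by positivity)
    rw [Real.log_div (by positivity) t0.ne'] at this
    have e2 : (1 + t) / t - 1 = 1 / t := by field_simp; ring
    linarith
  have h2 := log_tan t16
  have h3 := log16
  have h4 : 1 / t ≤ 1 / 16 := one_div_le_one_div_of_le (by norm_num) t16
  have h5 := mul_le_mul_of_nonneg_left h1 (show (0 : ℝ) ≤ k + n + 1 by positivity)
  have h6 : (k : ℝ) * (1 / t) = n - gg n / 100 := by rw [← e]; field_simp
  have h7 := mul_le_mul_of_nonneg_left h4 (show (0 : ℝ) ≤ n + 1 by positivity)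
  have h8 := mul_le_mul_of_nonneg_left hC (show (0 : ℝ) ≤ k + n by positivity)
  have h9 := mul_le_mul_of_nonneg_left hB (show (0 : ℝ) ≤ t * n by positivity)
  have key : Real.log t + (n - gg n / 100) + (n + 1) * (1 / 16)
      ≤ (k + n) * (8874 / 10000) - t * n * (643 / 1000) := by
    rw [← e]
    unfold gg
    split_ifs with a1 a2
    · subst a1; push_cast; linarith
    · subst a2; push_cast; linarith
    · have r3 : (3 : ℝ) ≤ n := by exact_mod_cast (by omega : 3 ≤ n)
      push_cast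
      nlinarith [mul_nonneg (sub_nonneg.2 r3) (sub_nonneg.2 t16)]
  nlinarith

structure CP where
  z : Cert
  P : ℕ

def chkCP (T : List Row) (RM LR : ℕ) (w : CP) : Bool :=
  chkA T LR RM w.z && Nat.ble (w.P + lgHi w.z.tn) (4 * SS + w.z.lam + lgLo w.z.td)

def CPgood (w : CP) : Prop :=
  1 ≤ w.z.tn ∧ 1 ≤ w.z.td ∧ CertA w.z.t w.z.l w.z.cc ∧
    (w.P : ℝ) ≤ SS * (4 + w.z.l - Real.log w.z.t)

lemma log_t {z : Cert} (h1 : 1 ≤ z.tn) (h2 : 1 ≤ z.td) :
    Real.log z.t = Real.log z.tn - Real.log z.td := by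
  have rtd : (0 : ℝ) < z.td := by exact_mod_cast h2
  have rtn : (0 : ℝ) < z.tn := by exact_mod_cast h1
  unfold Cert.t; rw [Real.log_div rtn.ne' rtd.ne']

lemma chkCP_sound {T : List Row} {RM LR : ℕ} {w : CP} (hG : TblGood T RM LR)
    (h : chkCP T RM LR w = true) : CPgood w := by
  simp only [chkCP, Bool.and_eq_true, Nat.ble_eq] at h
  obtain ⟨hA, hP⟩ := h
  have hS := SS_pos
  obtain ⟨htn, htd, -⟩ := tailA_pos (z := w.z) (LR := LR) (by
    simp only [chkA, Bool.and_eq_true] at hA; exact hA.1)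
  refine ⟨htn, htd, ?_, ?_⟩
  · refine adm_of w.z.b0 w.z.b1 w.z.b2 w.z.b3 (1 / SS) (by positivity) (fun r hr => ?_)
    have e3 : 1 / SS * aux w.z.b0 w.z.b1 w.z.b2 w.z.b3 r = w.z.ax r := by unfold Cert.ax; ring
    rw [e3]; exact chkA_sound' hG hA hr
  · have h' := (Nat.cast_le (α := ℝ)).2 hP
    push_cast at h'
    have a4 := le_lgHi w.z.tn (by omega)
    have a5 := lgLo_le w.z.td (by omega)
    have el : (w.z.lam : ℝ) = w.z.l * SS := by unfold Cert.l; field_simp
    rw [log_t htn htd]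
    linarith

def cov (k n g Wp Wm : ℕ) (w : CP) : Bool :=
  Nat.ble (100 * k * w.z.td + w.z.tn * g) (100 * n * w.z.tn) &&
    Nat.ble (w.z.c * (k + n) + Wp) (w.P * k + Wm)

def Wp (k n : ℕ) : ℕ := lgHi (k + n + 1) + (k + n) * lgHi (k + n) + 4 * SS * k
def Wm (k n : ℕ) : ℕ := lgLo (n + 1) + k * lgLo k + n * lgLo n

lemma cov_sound {k n g : ℕ} {w : CP} (hw : CPgood w) (hk : 1 ≤ k) (hn : 1 ≤ n)
    (hG : GamOK k n ((g : ℝ) / 100)) (h : cov k n g (Wp k n) (Wm k n) w = true) : Cover k n := by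
  simp only [cov, Bool.and_eq_true, Nat.ble_eq] at h
  obtain ⟨h1, h2⟩ := h
  obtain ⟨htn, htd, hA, hP⟩ := hw
  have hS := SS_pos
  have h1' := (Nat.cast_le (α := ℝ)).2 h1
  have h2' := (Nat.cast_le (α := ℝ)).2 h2
  unfold Wp Wm at h2'
  push_cast at h1' h2'
  have rk : (0 : ℝ) < k := by exact_mod_cast hk
  have rn : (0 : ℝ) < n := by exact_mod_cast hn
  have rtd : (0 : ℝ) < w.z.td := by exact_mod_cast htd
  have rtn : (0 : ℝ) < w.z.tn := by exact_mod_cast htn
  have t0 := Cert.t_pos htn htd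
  have hkt : (k : ℝ) ≤ w.z.t * (n - g / 100) := by
    unfold Cert.t
    rw [div_mul_eq_mul_div, le_div_iff₀ rtd]; linarith
  refine ⟨g / 100, w.z.t, w.z.l, w.z.cc, hG, ?_, hkt, t0, w.z.cc_nonneg, hA, ?_⟩
  · by_contra hc
    have : w.z.t * (n - g / 100) ≤ 0 := mul_nonpos_of_nonneg_of_nonpos t0.le (by linarith)
    linarith
  · have a1 := le_lgHi (k + n + 1) (by omega)
    have a2 := le_lgHi (k + n) (by omega)
    have a3 := lgLo_le (n + 1) (by omega)
    have a4 := lgLo_le k (by omega)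
    have a5 := lgLo_le n (by omega)
    push_cast at a1 a2 a3
    have ec : (w.z.c : ℝ) = w.z.cc * SS := by unfold Cert.cc; field_simp
    rw [ec] at h2'
    refine le_of_mul_le_mul_left ?_ hS
    unfold WW
    have f2 := mul_le_mul_of_nonneg_left a2 (show (0 : ℝ) ≤ k + n by positivity)
    have f4 := mul_le_mul_of_nonneg_left a4 rk.le
    have f5 := mul_le_mul_of_nonneg_left a5 rn.le
    have f6 := mul_le_mul_of_nonneg_left hP rk.le
    linarith

def pairOK2 (L : List CP) (k n p m : ℕ) : Bool :=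
  L.any (cov k n (gg n) p m) ||
    [16, 19, 28, 30, 33].any fun g => gamChk k n g && L.any (cov k n g p m)

def pairOK (L : List CP) (k n : ℕ) : Bool :=
  Nat.ble (1600 * n) (100 * k + 16 * gg n) || pairOK2 L k n (Wp k n) (Wm k n)

lemma pairOK_sound {L : List CP} (hL : ∀ w ∈ L, CPgood w) (hF : FamL) {k n : ℕ} (hk : 3 ≤ k)
    (hn : 1 ≤ n) (h : pairOK L k n = true) : Cover k n := by
  simp only [pairOK, pairOK2, Bool.or_eq_true, Nat.ble_eq, List.any_eq_true, Bool.and_eq_true] at h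
  rcases h with h | ⟨w, hw, h⟩ | ⟨g, -, hg, w, hw, h⟩
  · exact coverL hF hk hn h
  · exact cov_sound (hL w hw) (by omega) hn (gamGen hk n) h
  · exact cov_sound (hL w hw) (by omega) hn (gamChk_sound hg) h

def allN (f : ℕ → Bool) : ℕ → Bool
  | 0 => true
  | n + 1 => f n && allN f n

lemma allN_sound {f : ℕ → Bool} {N : ℕ} (h : allN f N = true) {n : ℕ} (hn : n < N) :
    f n = true := by
  induction N with
  | zero => omega
  | succ N ih =>
    simp only [allN, Bool.and_eq_true] at h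
    rcases (Nat.lt_succ_iff.1 hn).lt_or_eq with h' | h'
    · exact ih h.2 h'
    · subst h'; exact h.1

def rowPairs (L : List CP) (k : ℕ) : Bool := allN (fun n => pairOK L k (n + 1)) (5 * k)

structure Cone where
  i : ℕ
  un : ℕ
  ud : ℕ
  xn : ℕ
  xd : ℕ
  ch : ℕ

def coneOK (z : Cert) (w : Cone) : Bool :=
  Nat.ble 1 w.un && Nat.ble 1 w.ud && Nat.ble 1 w.xd &&
  Nat.ble (lgHi (w.un + w.ud)) (w.ch + lgLo w.ud) &&
  Nat.ble (64 * w.xd * (z.c + lgHi z.tn + lgHi (w.un + w.ud)) + 64 * w.xn * (z.c + w.ch)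
      + w.xd * (3 * w.ch + z.c))
    (64 * w.xd * (z.lam + lgLo z.td + lgLo w.un))

lemma coneOK_sound {v : CP} {w : Cone} (hv : CPgood v) (h : coneOK v.z w = true) {k n : ℕ}
    (hk : 32 ≤ k) (hn : 1 ≤ n) (h1 : (k : ℝ) ≤ v.z.t * (n - 1 / 2))
    (h2 : ((n : ℝ) - 1 / 2) * w.xd ≤ k * w.xn) : Cover k n := by
  simp only [coneOK, Bool.and_eq_true, Nat.ble_eq] at h
  obtain ⟨⟨⟨⟨hun, hud⟩, hxd⟩, hch⟩, h⟩ := h
  obtain ⟨htn, htd, hA, -⟩ := hv
  have hS := SS_pos
  have h' := (Nat.cast_le (α := ℝ)).2 h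
  have hch' := (Nat.cast_le (α := ℝ)).2 hch
  push_cast at h' hch'
  have rk : (32 : ℝ) ≤ k := by exact_mod_cast hk
  have rn : (1 : ℝ) ≤ n := by exact_mod_cast hn
  have run : (0 : ℝ) < w.un := by exact_mod_cast hun
  have rud : (0 : ℝ) < w.ud := by exact_mod_cast hud
  have rxd : (0 : ℝ) < w.xd := by exact_mod_cast hxd
  have rxn : (0 : ℝ) ≤ w.xn := by positivity
  have t0 := Cert.t_pos htn htd
  refine ⟨1 / 2, v.z.t, v.z.l, v.z.cc, gam3 k n (by omega), by linarith, h1, t0, v.z.cc_nonneg,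
    hA, ?_⟩
  refine (WW_le (τ := (w.un : ℝ) / w.ud) (by omega) hn (by positivity)).trans ?_
  have e1 : Real.log (1 + (w.un : ℝ) / w.ud) = Real.log (w.un + w.ud) - Real.log w.ud := by
    rw [← Real.log_div (by positivity) rud.ne']; congr 1; field_simp; ring
  have c0 : 0 ≤ Real.log (1 + (w.un : ℝ) / w.ud) :=
    Real.log_nonneg (by have : 0 ≤ (w.un : ℝ) / w.ud := by positivity
                        linarith)
  rw [Real.log_div run.ne' rud.ne', log_t htn htd]
  have a1 := le_lgHi (w.un + w.ud) (by omega)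
  have a2 := lgLo_le w.ud (by omega)
  have a3 := lgLo_le w.un (by omega)
  have a4 := le_lgHi v.z.tn (by omega)
  have a5 := lgLo_le v.z.td (by omega)
  push_cast at a1
  have el : (v.z.lam : ℝ) = v.z.l * SS := by unfold Cert.l; field_simp
  have ec : (v.z.c : ℝ) = v.z.cc * SS := by unfold Cert.cc; field_simp
  rw [el, ec] at h'
  set Cc := Real.log (1 + (w.un : ℝ) / w.ud) with hCc
  have b1 : SS * Cc ≤ w.ch := by rw [e1]; linarith
  set A := v.z.l - v.z.cc - (Real.log v.z.tn - Real.log v.z.td)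
    + (Real.log w.un - Real.log w.ud) - Cc with hA'
  have c1 := v.z.cc_nonneg
  have b2 : 64 * w.xn * (v.z.cc + Cc) + w.xd * (3 * Cc + v.z.cc) ≤ 64 * w.xd * A := by
    refine le_of_mul_le_mul_left ?_ hS
    have f1 := mul_le_mul_of_nonneg_left b1 rxn
    have f2 := mul_le_mul_of_nonneg_left b1 rxd.le
    have f3 : SS * (Real.log v.z.tn + Real.log (w.un + w.ud) - Real.log v.z.td - Real.log w.un)
        ≤ lgHi v.z.tn + lgHi (w.un + w.ud) - lgLo v.z.td - lgLo w.un := by linarith
    have f4 := mul_le_mul_of_nonneg_left f3 rxd.le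
    rw [hA', e1] at *
    linarith
  have b3 : (v.z.cc + Cc) * n + Cc ≤ A * k := by
    refine le_of_mul_le_mul_left ?_ (show 0 < 64 * (w.xd : ℝ) by positivity)
    have f1 := mul_le_mul_of_nonneg_left h2 (show 0 ≤ v.z.cc + Cc by positivity)
    have f2 := mul_le_mul_of_nonneg_left b2 (show (0 : ℝ) ≤ k by positivity)
    have f3 := mul_le_mul_of_nonneg_left rk (show 0 ≤ w.xd * (3 * Cc + v.z.cc) by positivity)
    linarith
  rw [hA'] at b3
  linarith

def coneStep (pn pd : ℕ) (w : Cone) : Option CP → Bool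
  | none => false
  | some v => Nat.ble (v.z.td * pd) (pn * v.z.tn) && coneOK v.z w

def chainOK (L : List CP) : ℕ → ℕ → List Cone → Bool
  | pn, pd, [] => Nat.ble (5 * pd) pn
  | pn, pd, w :: C => coneStep pn pd w L[w.i]? && chainOK L w.xn w.xd C

lemma chainOK_sound {L : List CP} (hL : ∀ w ∈ L, CPgood w) {C : List Cone} {pn pd : ℕ}
    (hpd : 1 ≤ pd) (h : chainOK L pn pd C = true) {k n : ℕ} (hk : 32 ≤ k) (hn : 1 ≤ n)
    (hn5 : n ≤ 5 * k) (h1 : (k : ℝ) * pn ≤ (n - 1 / 2) * pd) : Cover k n := by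
  have rk : (32 : ℝ) ≤ k := by exact_mod_cast hk
  induction C generalizing pn pd with
  | nil =>
    exfalso
    simp only [chainOK, Nat.ble_eq] at h
    have h' := (Nat.cast_le (α := ℝ)).2 h
    have h5 := (Nat.cast_le (α := ℝ)).2 hn5
    have rpd : (1 : ℝ) ≤ pd := by exact_mod_cast hpd
    push_cast at h' h5
    nlinarith [mul_le_mul_of_nonneg_left h' (show (0 : ℝ) ≤ k by linarith),
      mul_le_mul_of_nonneg_left h5 (show (0 : ℝ) ≤ pd by linarith)]
  | cons w C ih =>
    simp only [chainOK, Bool.and_eq_true] at h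
    obtain ⟨ha, hb⟩ := h
    cases hv : L[w.i]? with
    | none => rw [hv] at ha; simp [coneStep] at ha
    | some v =>
      rw [hv] at ha
      simp only [coneStep, Bool.and_eq_true, Nat.ble_eq] at ha
      have hvg := hL v (List.mem_of_getElem? hv)
      by_cases hx : ((n : ℝ) - 1 / 2) * w.xd ≤ k * w.xn
      · refine coneOK_sound hvg ha.2 hk hn ?_ hx
        have h' := (Nat.cast_le (α := ℝ)).2 ha.1
        push_cast at h'
        have rpd : (0 : ℝ) < pd := by exact_mod_cast hpd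
        have rtd : (0 : ℝ) < v.z.td := by exact_mod_cast hvg.2.1
        have rtn : (0 : ℝ) ≤ v.z.tn := by positivity
        unfold Cert.t
        rw [div_mul_eq_mul_div, le_div_iff₀ rtd]
        refine le_of_mul_le_mul_right ?_ rpd
        nlinarith [mul_le_mul_of_nonneg_left h' (show (0 : ℝ) ≤ k by linarith),
          mul_le_mul_of_nonneg_left h1 rtn]
      · have hxd : 1 ≤ w.xd := by
          have := ha.2
          simp only [coneOK, Bool.and_eq_true, Nat.ble_eq] at this
          exact this.1.1.2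
        exact ih hxd hb (by linarith)

theorem cover_all {L : List CP} {C : List Cone} (hL : ∀ w ∈ L, CPgood w) (hF : FamL)
    (hS : ∀ t : ℝ, 0 < t → t ≤ 1 / 5 → CertA t (1 + t) 0)
    (hP : ∀ k, 3 ≤ k → k < 32 → rowPairs L k = true) (hC : chainOK L 1 16 C = true)
    {k n : ℕ} (hk : 3 ≤ k) (hn : 1 ≤ n) : Cover k n := by
  by_cases h5 : 5 * k + 1 ≤ n
  · exact coverS hS hk h5
  by_cases h32 : k < 32
  · obtain ⟨m, rfl⟩ : ∃ m, n = m + 1 := ⟨n - 1, by omega⟩
    exact pairOK_sound hL hF hk hn (allN_sound (hP k hk h32) (by omega))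
  by_cases h : 1600 * n ≤ 100 * k + 16 * gg n
  · exact coverL hF hk hn h
  · have h3 : 2 * k + 16 ≤ 32 * n := by
      unfold gg at h
      split_ifs at h <;> omega
    have h' := (Nat.cast_le (α := ℝ)).2 h3
    push_cast at h'
    exact chainOK_sound hL (by norm_num) hC (by omega) hn (by omega) (by push_cast; linarith)

end Pool.Agent.Lib.MP_961538_co
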