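import Mathlib

namespace Pool.Agent.Lib.MP_961538_co

/-- `m = C(a_i, i) + ... + C(a_j, j)` with `1 ≤ j ≤ i` and `a_i > ... > a_j ≥ j`:
the `i`-th binomial expansion of `m`. -/
def IsExpansion (m i j : ℕ) (a : ℕ → ℕ) : Prop :=
  1 ≤ j ∧ j ≤ i ∧ j ≤ a j ∧ (∀ k, j ≤ k → k < i → a k < a (k + 1)) ∧
    m = ∑ k ∈ Finset.Icc j i, (a k).choose k

end Pool.Agent.Lib.MP_961538_co
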