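import Pool.Agent.Lib.MP_961538_co.Data

namespace Pool.Agent.Lib.MP_961538_co

theorem tbl_ok : tblOK 0 tbl RMx = true := by decide +kernel

theorem tbl_good : TblGood tbl RMx LRx :=
  ⟨tbl_ok, by decide +kernel, by decide +kernel⟩

theorem chkS_ok : chkS tbl RMx LRx zS = true := by decide +kernel
theorem chkL_ok : chkL tbl LRx starx zL = true := by decide +kernel
theorem chkP_ok : chkP tbl bP0 bP1 bP2 bP3 = true := by decide +kernel
theorem chain_ok : chainOK cps 1 16 cones = true := by decide +kernel
theorem cps0_ok : cps0.all (chkCP tbl RMx LRx) = true := by decide +kernel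

end Pool.Agent.Lib.MP_961538_co
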