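import Pool.Agent.Lib.MP_961538_co.Data

namespace Pool.Agent.Lib.MP_961538_co

theorem cps1_ok : cps1.all (chkCP tbl RMx LRx) = true := by decide +kernel
theorem cps2_ok : cps2.all (chkCP tbl RMx LRx) = true := by decide +kernel

end Pool.Agent.Lib.MP_961538_co
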