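import Pool.Agent.Lib.MP_961538_co.Data

namespace Pool.Agent.Lib.MP_961538_co

theorem pairs_ok : allN (fun j => rowPairs cps (j + 3)) 29 = true := by decide +kernel

end Pool.Agent.Lib.MP_961538_co
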