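import Pool.Agent.Lib.MP_961538_co.Low
import Pool.Agent.Lib.MP_961538_co.Run0
import Pool.Agent.Lib.MP_961538_co.Run1
import Pool.Agent.Lib.MP_961538_co.Run2

/-! Removing the factors `1+t`, `1+2t`, `1+3t+t^2` and the main theorem. -/

namespace Pool.Agent.Lib.MP_961538_co

open Polynomial Finset

theorem cps_good : ∀ w ∈ cps, CPgood w := by
  intro w hw
  simp only [cps, List.mem_append] at hw
  rcases hw with (hw | hw) | hw
  · exact chkCP_sound tbl_good (List.all_eq_true.1 cps0_ok w hw)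
  · exact chkCP_sound tbl_good (List.all_eq_true.1 cps1_ok w hw)
  · exact chkCP_sound tbl_good (List.all_eq_true.1 cps2_ok w hw)

theorem cover_ok (k n : ℕ) (hk : 3 ≤ k) (hn : 1 ≤ n) : Cover k n :=
  cover_all cps_good (famL tbl_good chkL_ok) (fun _ h1 h2 => famS tbl_good chkS_ok h1 h2)
    (fun k h1 h2 => by
      obtain ⟨j, rfl⟩ : ∃ j, k = j + 3 := ⟨k - 3, by omega⟩
      exact allN_sound (f := fun j => rowPairs cps (j + 3)) pairs_ok (by omega))
    chain_ok hk hn

theorem admP : Adm fun r => r ^ 2 - 5 / 2 * r :=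
  adm_of bP0 bP1 bP2 bP3 (1 / SS) (by positivity) (fun r hr => by
    have := chkP_sound tbl_good chkP_ok hr
    rw [one_div_mul_eq_div]; exact this)

def Intg (R : Multiset ℝ) : Prop := ∀ j, ∃ z : ℤ, (EE R).coeff j = z

lemma exists_nat {R : Multiset ℝ} (h : ∀ r ∈ R, 0 < r) (hI : Intg R) :
    ∃ e : ℕ → ℕ, ∀ j, (e j : ℝ) = (EE R).coeff j := by
  have : ∀ j, ∃ n : ℕ, (n : ℝ) = (EE R).coeff j := by
    intro j
    obtain ⟨z, hz⟩ := hI j
    have h0 := EE_coeff_nonneg R h j
    rw [hz] at h0 ⊢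
    have h1 : 0 ≤ z := by exact_mod_cast h0
    obtain ⟨n, rfl⟩ := Int.eq_ofNat_of_zero_le h1
    exact ⟨n, by simp⟩
  choose e he using this
  exact ⟨e, he⟩

lemma Intg_one {R : Multiset ℝ} (c : ℤ) (hI : Intg ((c : ℝ) ::ₘ R)) : Intg R := by
  intro j
  induction j with
  | zero => exact ⟨1, by simp [EE_coeff_zero]⟩
  | succ j ih =>
    obtain ⟨z, hz⟩ := ih
    obtain ⟨w, hw⟩ := hI (j + 1)
    rw [EE_coeff_succ, hz] at hw
    exact ⟨w - c * z, by push_cast; linarith⟩

lemma coeff_two1 (R : Multiset ℝ) {x y : ℝ} (h1 : x + y = 3) :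
    (EE (x ::ₘ y ::ₘ R)).coeff 1 = (EE R).coeff 1 + 3 := by
  have a := EE_coeff_succ x (y ::ₘ R) 0
  have b := EE_coeff_succ y R 0
  rw [EE_coeff_zero] at a b
  norm_num at a b
  rw [a, b]; linarith

lemma coeff_two2 (R : Multiset ℝ) {x y : ℝ} (h1 : x + y = 3) (h2 : x * y = 1) (j : ℕ) :
    (EE (x ::ₘ y ::ₘ R)).coeff (j + 2)
      = (EE R).coeff (j + 2) + 3 * (EE R).coeff (j + 1) + (EE R).coeff j := by
  rw [EE_coeff_succ x _ (j + 1), EE_coeff_succ y _ (j + 1), EE_coeff_succ y _ j]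
  linear_combination (EE R).coeff (j + 1) * h1 + (EE R).coeff j * h2

lemma Intg_two {R : Multiset ℝ} {x y : ℝ} (h1 : x + y = 3) (h2 : x * y = 1)
    (hI : Intg (x ::ₘ y ::ₘ R)) : Intg R := by
  have : ∀ j, (∃ z : ℤ, (EE R).coeff j = z) ∧ ∃ z : ℤ, (EE R).coeff (j + 1) = z := by
    intro j
    induction j with
    | zero =>
      refine ⟨⟨1, by simp [EE_coeff_zero]⟩, ?_⟩
      obtain ⟨w, hw⟩ := hI 1
      rw [coeff_two1 R h1] at hw
      exact ⟨w - 3, by push_cast; linarith⟩
    | succ j ih =>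
      obtain ⟨⟨z, hz⟩, ⟨u, hu⟩⟩ := ih
      refine ⟨⟨u, hu⟩, ?_⟩
      obtain ⟨w, hw⟩ := hI (j + 2)
      rw [coeff_two2 R h1 h2, hz, hu] at hw
      exact ⟨w - 3 * u - z, by push_cast; linarith⟩
  exact fun j => (this j).1

lemma EE_eval (R : Multiset ℝ) (y : ℝ) : (EE R).eval y = (R.map fun r => 1 + r * y).prod := by
  induction R using Multiset.induction_on with
  | empty => simp
  | cons r R ih => rw [EE_cons, eval_mul, ih]; simp

lemma EE_eval_sum (R : Multiset ℝ) (y : ℝ) :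
    (R.map fun r => 1 + r * y).prod = ∑ j ∈ range (R.card + 1), (EE R).coeff j * y ^ j := by
  rw [← EE_eval]
  apply eval_eq_sum_range'
  rw [Nat.lt_succ_iff, natDegree_le_iff_coeff_eq_zero]
  exact fun j hj => EE_coeff_big R j hj

lemma sum_log_abs (R : Multiset ℝ) (g : ℝ → ℝ) (h : ∀ r ∈ R, g r ≠ 0) :
    (R.map fun r => Real.log |g r|).sum = Real.log |(R.map g).prod| ∧ (R.map g).prod ≠ 0 := by
  induction R using Multiset.induction_on with
  | empty => simp
  | cons r R ih =>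
    have h1 := h r (Multiset.mem_cons_self _ _)
    obtain ⟨a1, a2⟩ := ih (fun p hp => h p (Multiset.mem_cons_of_mem hp))
    simp only [Multiset.map_cons, Multiset.sum_cons, Multiset.prod_cons]
    refine ⟨?_, mul_ne_zero h1 a2⟩
    rw [a1, abs_mul, Real.log_mul (abs_ne_zero.2 h1) (abs_ne_zero.2 a2)]

lemma sum_log_nonneg (R : Multiset ℝ) (g : ℝ → ℝ) (h : ∀ r ∈ R, g r ≠ 0) (z : ℤ)
    (hz : (R.map g).prod = z) : 0 ≤ (R.map fun r => Real.log |g r|).sum := by
  obtain ⟨a1, a2⟩ := sum_log_abs R g h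
  rw [a1, hz]
  rw [hz] at a2
  have h0 : z ≠ 0 := by rintro rfl; simp at a2
  apply Real.log_nonneg
  have := Int.one_le_abs h0
  exact_mod_cast this

lemma int_sum (N : ℕ) (f : ℕ → ℝ) (h : ∀ j < N, ∃ z : ℤ, f j = z) :
    ∃ z : ℤ, ∑ j ∈ range N, f j = z := by
  induction N with
  | zero => exact ⟨0, by simp⟩
  | succ N ih =>
    obtain ⟨z, hz⟩ := ih (fun j hj => h j (by omega))
    obtain ⟨w, hw⟩ := h N (by omega)
    exact ⟨z + w, by rw [sum_range_succ, hz, hw]; push_cast; ring⟩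

lemma golden_lin {R : Multiset ℝ} (hI : Intg R) : ∃ α β : ℤ, ∀ y : ℝ, y ^ 2 + 3 * y + 1 = 0 →
    (R.map fun r => 1 + r * y).prod = α * y + β := by
  have hp : ∀ j : ℕ, ∃ α β : ℤ, ∀ y : ℝ, y ^ 2 + 3 * y + 1 = 0 → y ^ j = α * y + β := by
    intro j
    induction j with
    | zero => exact ⟨0, 1, fun y _ => by simp⟩
    | succ j ih =>
      obtain ⟨α, β, h⟩ := ih
      refine ⟨β - 3 * α, -α, fun y hy => ?_⟩
      rw [pow_succ, h y hy]
      push_cast
      linear_combination (α : ℝ) * hy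
  have hs : ∀ N : ℕ, ∃ α β : ℤ, ∀ y : ℝ, y ^ 2 + 3 * y + 1 = 0 →
      ∑ j ∈ range N, (EE R).coeff j * y ^ j = α * y + β := by
    intro N
    induction N with
    | zero => exact ⟨0, 0, fun y _ => by simp⟩
    | succ N ih =>
      obtain ⟨α, β, h⟩ := ih
      obtain ⟨α', β', h'⟩ := hp N
      obtain ⟨z, hz⟩ := hI N
      refine ⟨α + z * α', β + z * β', fun y hy => ?_⟩
      rw [sum_range_succ, h y hy, h' y hy, hz]
      push_cast; ring
  obtain ⟨α, β, h⟩ := hs (R.card + 1)
  exact ⟨α, β, fun y hy => by rw [EE_eval_sum, h y hy]⟩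

lemma prod_golden (R : Multiset ℝ) {x y : ℝ} (h1 : x + y = -3) (h2 : x * y = 1) :
    (R.map fun r => r ^ 2 - 3 * r + 1).prod
      = (R.map fun r => 1 + r * x).prod * (R.map fun r => 1 + r * y).prod := by
  rw [← Multiset.prod_map_mul]
  congr 1
  refine Multiset.map_congr rfl (fun r _ => ?_)
  linear_combination (-r) * h1 - r ^ 2 * h2

lemma good_or {R : Multiset ℝ} (h : ∀ r ∈ R, 0 < r) (hI : Intg R) :
    Good R ∨ (1 : ℝ) ∈ R ∨ (2 : ℝ) ∈ R ∨
      ∃ x y R', x + y = 3 ∧ x * y = 1 ∧ R = x ::ₘ y ::ₘ R' := by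
  by_cases h1 : (1 : ℝ) ∈ R
  · exact Or.inr (Or.inl h1)
  by_cases h2 : (2 : ℝ) ∈ R
  · exact Or.inr (Or.inr (Or.inl h2))
  obtain ⟨α, β, hg⟩ := golden_lin hI
  have s5 : √(5 : ℝ) ^ 2 = 5 := Real.sq_sqrt (by norm_num)
  have s0 : 0 < √(5 : ℝ) := Real.sqrt_pos.2 (by norm_num)
  set x : ℝ := (-3 + √5) / 2 with hx
  set y : ℝ := (-3 - √5) / 2 with hy
  have e1 : x + y = -3 := by rw [hx, hy]; ring
  have e2 : x * y = 1 := by rw [hx, hy]; nlinarith
  have gx := hg x (by rw [hx]; nlinarith)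
  have gy := hg y (by rw [hy]; nlinarith)
  have pg := prod_golden R e1 e2
  by_cases h3 : ∃ r ∈ R, r ^ 2 - 3 * r + 1 = 0
  · right; right; right
    obtain ⟨r, hr, hr0⟩ := h3
    have z0 : (R.map fun r => r ^ 2 - 3 * r + 1).prod = 0 :=
      Multiset.prod_eq_zero (Multiset.mem_map.2 ⟨r, hr, hr0⟩)
    rw [z0, gx, gy] at pg
    have hirr : Irrational √(5 : ℝ) := by
      have := Nat.Prime.irrational_sqrt (p := 5) (by norm_num)
      simpa using this
    have hα : α = 0 := by
      by_contra hα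
      have ra : (α : ℝ) ≠ 0 := by exact_mod_cast hα
      rcases mul_eq_zero.1 pg.symm with h0 | h0
      · refine hirr ⟨3 - 2 * β / α, ?_⟩
        push_cast
        rw [hx] at h0
        field_simp
        linarith
      · refine hirr ⟨-3 + 2 * β / α, ?_⟩
        push_cast
        rw [hy] at h0
        field_simp
        linarith
    subst hα
    have hβ : (β : ℝ) = 0 := by
      simp at pg; exact_mod_cast pg
    rw [hβ] at gx gy
    simp only [Int.cast_zero, zero_mul, add_zero] at gx gy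
    obtain ⟨r1, hr1, q1⟩ := Multiset.mem_map.1 (Multiset.prod_eq_zero_iff.1 gx)
    obtain ⟨r2, hr2, q2⟩ := Multiset.mem_map.1 (Multiset.prod_eq_zero_iff.1 gy)
    have v1 : r1 = -y := by linear_combination y * q1 - r1 * e2
    have v2 : r2 = -x := by linear_combination x * q2 - r2 * e2
    have hne : r2 ≠ r1 := by rw [v1, v2, hx, hy]; intro h0; linarith
    obtain ⟨R1, rfl⟩ := Multiset.exists_cons_of_mem hr1
    have hr2' : r2 ∈ R1 := (Multiset.mem_cons.1 hr2).resolve_left hne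
    obtain ⟨R2, rfl⟩ := Multiset.exists_cons_of_mem hr2'
    exact ⟨r1, r2, R2, by rw [v1, v2]; linarith, by rw [v1, v2]; linarith, rfl⟩
  · left
    push Not at h3
    have n1 : ∀ r ∈ R, r ≠ 1 := fun r hr h0 => h1 (h0 ▸ hr)
    have n2 : ∀ r ∈ R, r ≠ 2 := fun r hr h0 => h2 (h0 ▸ hr)
    refine ⟨fun r hr => ⟨h r hr, n1 r hr, n2 r hr, h3 r hr⟩, ?_, ?_, ?_, ?_⟩
    · obtain ⟨z, hz⟩ := hI R.card
      rw [EE_coeff_card] at hz
      have := sum_log_nonneg R (fun r => r) (fun r hr => (h r hr).ne') z (by simpa using hz)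
      simpa using this
    · obtain ⟨z, hz⟩ := int_sum (R.card + 1) (fun j => (EE R).coeff j * (-1) ^ j) (fun j _ => by
        obtain ⟨w, hw⟩ := hI j
        exact ⟨w * (-1) ^ j, by rw [hw]; push_cast; ring⟩)
      rw [← EE_eval_sum] at hz
      have := sum_log_nonneg R (fun r => 1 + r * (-1))
        (fun r hr h0 => n1 r hr (by linarith)) z hz
      convert this using 3 with r
      rw [abs_sub_comm]; congr 2; ring
    · obtain ⟨z, hz⟩ := int_sum (R.card + 1)
        (fun j => 2 ^ R.card * ((EE R).coeff j * (-1 / 2) ^ j)) (fun j hj => by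
        obtain ⟨w, hw⟩ := hI j
        obtain ⟨i, hi⟩ : ∃ i, R.card = i + j := ⟨R.card - j, by omega⟩
        refine ⟨w * 2 ^ i * (-1) ^ j, ?_⟩
        rw [hw, hi, pow_add, div_pow]; push_cast; field_simp)
      rw [← mul_sum, ← EE_eval_sum] at hz
      have e : (R.map fun r => 2 * (1 + r * (-1 / 2))).prod
          = 2 ^ R.card * (R.map fun r => 1 + r * (-1 / 2)).prod := by
        rw [Multiset.prod_map_mul]; simp
      have := sum_log_nonneg R (fun r => 2 * (1 + r * (-1 / 2)))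
        (fun r hr h0 => n2 r hr (by linarith)) z (by rw [e, hz])
      convert this using 3 with r
      rw [abs_sub_comm]; congr 2; ring
    · refine sum_log_nonneg R (fun r => r ^ 2 - 3 * r + 1) h3 (α ^ 2 - 3 * α * β + β ^ 2) ?_
      rw [pg, gx, gy]
      push_cast
      linear_combination (α : ℝ) ^ 2 * e2 + (α : ℝ) * β * e1

/-- the sequence of `(1 + t) f`. -/
def up1 (e : ℕ → ℕ) : ℕ → ℕ
  | 0 => e 0
  | j + 1 => e (j + 1) + e j

/-- the sequence of `(1 + 2t) f`. -/
def up2 (e : ℕ → ℕ) : ℕ → ℕ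
  | 0 => e 0
  | j + 1 => e (j + 1) + 2 * e j

lemma KK_up1 {e : ℕ → ℕ} (h : KKseq e) : KKseq (up1 e) :=
  glue h h (fun _ => le_rfl) rfl (fun _ => rfl)

lemma KK_up2 {e : ℕ → ℕ} (h : KKseq e) : KKseq (up2 e) :=
  glue (KK_up1 h) h (fun i => by cases i <;> simp [up1]) rfl
    (fun i => by simp only [up1, up2]; ring)

theorem main_KK (N : ℕ) : ∀ R : Multiset ℝ, R.card = N → (∀ r ∈ R, 0 < r) → Intg R →
    ∀ e : ℕ → ℕ, (∀ j, (e j : ℝ) = (EE R).coeff j) → KKseq e := by
  induction N using Nat.strong_induction_on with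
  | _ N ih =>
  intro R hN hpos hI e he
  have e0 : ∀ {R : Multiset ℝ} {e : ℕ → ℕ}, (∀ j, (e j : ℝ) = (EE R).coeff j) → e 0 = 1 := by
    intro R e he
    have := he 0
    rw [EE_coeff_zero] at this
    exact_mod_cast this
  rcases good_or hpos hI with h | h | h | ⟨x, y, R', h1, h2, rfl⟩
  · exact good_KK admP cover_ok R h e he
  · obtain ⟨R', rfl⟩ := Multiset.exists_cons_of_mem h
    have hp' : ∀ r ∈ R', 0 < r := fun p hp => hpos p (Multiset.mem_cons_of_mem hp)
    have hI' : Intg R' := Intg_one 1 (by simpa using hI)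
    obtain ⟨e', he'⟩ := exists_nat hp' hI'
    have k := ih R'.card (by simp at hN; omega) R' rfl hp' hI' e' he'
    have : e = up1 e' := by
      funext j
      cases j with
      | zero => rw [e0 he, up1, e0 he']
      | succ j =>
        have := he (j + 1)
        rw [EE_coeff_succ, ← he', ← he', one_mul] at this
        rw [up1]; exact_mod_cast this
    rw [this]; exact KK_up1 k
  · obtain ⟨R', rfl⟩ := Multiset.exists_cons_of_mem h
    have hp' : ∀ r ∈ R', 0 < r := fun p hp => hpos p (Multiset.mem_cons_of_mem hp)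
    have hI' : Intg R' := Intg_one 2 (by simpa using hI)
    obtain ⟨e', he'⟩ := exists_nat hp' hI'
    have k := ih R'.card (by simp at hN; omega) R' rfl hp' hI' e' he'
    have : e = up2 e' := by
      funext j
      cases j with
      | zero => rw [e0 he, up2, e0 he']
      | succ j =>
        have := he (j + 1)
        rw [EE_coeff_succ, ← he', ← he'] at this
        rw [up2]; exact_mod_cast this
    rw [this]; exact KK_up2 k
  · have hp' : ∀ r ∈ R', 0 < r :=
      fun p hp => hpos p (Multiset.mem_cons_of_mem (Multiset.mem_cons_of_mem hp))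
    have hI' : Intg R' := Intg_two h1 h2 hI
    obtain ⟨e', he'⟩ := exists_nat hp' hI'
    have k := ih R'.card (by simp at hN; omega) R' rfl hp' hI' e' he'
    refine glue (KK_up2 k) (KK_up1 k) (fun i => by cases i <;> simp [up1, up2]; omega)
      (by rw [e0 he, up2, e0 he']) (fun i => ?_)
    cases i with
    | zero =>
      have := he 1
      rw [coeff_two1 R' h1, ← he'] at this
      simp only [up1, up2, e0 he', zero_add]
      have h3 : e 1 = e' 1 + 3 := by exact_mod_cast this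
      omega
    | succ i =>
      have := he (i + 2)
      rw [coeff_two2 R' h1 h2, ← he', ← he', ← he'] at this
      simp only [up1, up2]
      have h3 : e (i + 2) = e' (i + 2) + 3 * e' (i + 1) + e' i := by exact_mod_cast this
      rw [show i + 1 + 1 = i + 2 by ring]
      omega

end Pool.Agent.Lib.MP_961538_co
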