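import Pool.Agent.Lib.MP_961538_co.Defs
import Pool.Agent.Lib.MP_961538_co.Reduce

namespace Pool.Agent.Lib.MP_961538_co

open Polynomial Finset

lemma cas_expansion (φ : ℕ → ℕ → ℕ) (ψ : ℕ → ℕ) (h0 : ψ 0 = 0) (j : ℕ) (a : ℕ → ℕ) (hj : 1 ≤ j)
    (haj : j ≤ a j) (i : ℕ) (hji : j ≤ i) (hs : ∀ k, j ≤ k → k < i → a k < a (k + 1)) :
    i ≤ a i ∧ ∑ k ∈ Icc j i, (a k).choose k < (a i + 1).choose i ∧
      cas φ ψ i (∑ k ∈ Icc j i, (a k).choose k) = ∑ k ∈ Icc j i, φ (a k) (k - 1) := by
  induction i, hji using Nat.le_induction with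
  | base =>
    obtain ⟨l, rfl⟩ : ∃ l, j = l + 1 := ⟨j - 1, by omega⟩
    simp only [Icc_self, sum_singleton, Nat.add_sub_cancel]
    refine ⟨haj, ?_, cas_full φ ψ h0 haj⟩
    rw [Nat.choose_succ_succ']
    have : 0 < (a (l + 1)).choose l := Nat.choose_pos (by omega)
    omega
  | succ i hji ih =>
    obtain ⟨h1, h2, h3⟩ := ih (fun k hk hk' => hs k hk (by omega))
    have h4 := hs i hji (by omega)
    have h5 : (a i + 1).choose i ≤ (a (i + 1)).choose i := Nat.choose_le_choose _ h4
    rw [sum_Icc_succ_top (by omega), sum_Icc_succ_top (by omega)]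
    refine ⟨by omega, ?_, ?_⟩
    · rw [Nat.choose_succ_succ' (a (i + 1))]; omega
    · rw [add_comm (∑ k ∈ Icc j i, (a k).choose k), cas_lt φ ψ (by omega) (by omega), h3,
        Nat.add_sub_cancel, add_comm]

lemma GG_expansion {m i j : ℕ} {a : ℕ → ℕ} (h : IsExpansion m i j a) :
    GG i m = ∑ k ∈ Icc j i, (a k - 1).choose k := by
  obtain ⟨h1, h2, h3, h4, rfl⟩ := h
  have := (cas_expansion (fun a k => (a - 1).choose (k + 1)) (fun m => m) rfl j a h1 h3 i h2 h4).2.2
  refine this.trans (sum_congr rfl fun k hk => ?_)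
  have := (mem_Icc.1 hk).1
  rw [show k - 1 + 1 = k by omega]

lemma HH_expansion {m i j : ℕ} {a : ℕ → ℕ} (h : IsExpansion m i j a) :
    HH i m = ∑ k ∈ Icc j i, (a k - 1).choose (k - 1) := by
  obtain ⟨h1, h2, h3, h4, rfl⟩ := h
  exact (cas_expansion (fun a k => (a - 1).choose k) (fun _ => 0) rfl j a h1 h3 i h2 h4).2.2

/-- binomial expansions exist (not needed for the main theorem; it shows non-vacuity). -/
lemma exists_expansion (i m : ℕ) (hm : m ≠ 0) : ∃ j a, IsExpansion m (i + 1) j a := by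
  induction i generalizing m with
  | zero => exact ⟨1, fun _ => m, le_rfl, le_rfl, by simp only; omega, fun k h1 h2 => by omega, by simp⟩
  | succ i ih =>
    obtain ⟨b, y, hb, hy, rfl⟩ := decomp (i + 1) m hm
    by_cases h0 : y = 0
    · subst h0
      exact ⟨i + 1 + 1, fun _ => b, by omega, le_rfl, hb, fun k h1 h2 => by omega, by simp⟩
    · obtain ⟨j, a, h1, h2, h3, h4, h5⟩ := ih y h0
      have hlt : a (i + 1) < b := by
        by_contra hc
        have e1 : b.choose (i + 1) ≤ (a (i + 1)).choose (i + 1) :=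
          Nat.choose_le_choose _ (by omega)
        have e2 : (a (i + 1)).choose (i + 1) ≤ ∑ k ∈ Icc j (i + 1), (a k).choose k :=
          single_le_sum (f := fun k => (a k).choose k) (fun _ _ => Nat.zero_le _)
            (mem_Icc.2 ⟨h2, le_rfl⟩)
        omega
      refine ⟨j, fun k => if k = i + 1 + 1 then b else a k, h1, by omega, ?_, ?_, ?_⟩
      · simp only; rw [if_neg (by omega)]; exact h3
      · intro k hk hk'
        simp only
        rw [if_neg (by omega)]
        split_ifs with h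
        · obtain rfl : k = i + 1 := by omega
          exact hlt
        · exact h4 k hk (by omega)
      · rw [sum_Icc_succ_top (by omega), h5, add_comm]
        simp only [if_true]
        congr 1
        refine sum_congr rfl fun k hk => ?_
        have := (mem_Icc.1 hk).2
        rw [if_neg (by omega)]

lemma prod_X_add (m : Multiset ℝ) (h : ∀ s ∈ m, 0 < s) :
    (m.map (X + C ·)).prod = C m.prod * EE (m.map fun s => 1 / s) := by
  induction m using Multiset.induction_on with
  | empty => simp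
  | cons s m ih =>
    have h1 := h s (Multiset.mem_cons_self _ _)
    have h2 := ih (fun p hp => h p (Multiset.mem_cons_of_mem hp))
    have e : (X + C s : ℝ[X]) = C s * (1 + C (1 / s) * X) := by
      rw [mul_add, ← mul_assoc, ← C_mul, mul_one_div_cancel h1.ne', C_1]; ring
    simp only [Multiset.map_cons, Multiset.prod_cons, EE_cons]
    rw [h2, e, C_mul]; ring

lemma exists_roots (f : ℕ[X]) (h0 : f.coeff 0 = 1)
    (hreal : ∀ z : ℂ, aeval z f = 0 → z.im = 0) :
    ∃ R : Multiset ℝ, (∀ r ∈ R, 0 < r) ∧ ∀ j, (f.coeff j : ℝ) = (EE R).coeff j := by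
  set p : ℝ[X] := f.map (Nat.castRingHom ℝ) with hp
  have hc : ∀ j, p.coeff j = (f.coeff j : ℝ) := fun j => by rw [hp, coeff_map]; rfl
  have hs : p.Splits := by
    refine Splits.of_splits_map (algebraMap ℝ ℂ) (IsAlgClosed.splits _) (fun z hz => ?_)
    have h1 : aeval z f = 0 := by
      have := (mem_roots'.1 hz).2
      rw [IsRoot.def, hp, Polynomial.map_map, eval_map] at this
      rw [aeval_def, Subsingleton.elim (algebraMap ℕ ℂ)
        ((algebraMap ℝ ℂ).comp (Nat.castRingHom ℝ))]
      exact this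
    exact ⟨z.re, by apply Complex.ext <;> simp [hreal z h1]⟩
  obtain ⟨m, hm⟩ := splits_iff_exists_multiset'.1 hs
  have hpos : ∀ s ∈ m, 0 < s := by
    intro s hs
    by_contra hneg
    have e1 : p.eval (-s) = 0 := by
      rw [hm, eval_mul, eval_multiset_prod, Multiset.map_map]
      apply mul_eq_zero_of_right
      exact Multiset.prod_eq_zero (Multiset.mem_map.2 ⟨s, hs, by simp⟩)
    have e2 : 1 ≤ p.eval (-s) := by
      rw [eval_eq_sum_range, sum_range_succ', hc 0, h0]
      have : 0 ≤ ∑ k ∈ range p.natDegree, p.coeff (k + 1) * (-s) ^ (k + 1) :=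
        sum_nonneg fun k _ => mul_nonneg (by rw [hc]; positivity) (pow_nonneg (by linarith) _)
      simp only [pow_zero, Nat.cast_one]
      linarith
    linarith
  rw [prod_X_add m hpos, ← mul_assoc, ← C_mul] at hm
  have e3 : p.leadingCoeff * m.prod = 1 := by
    have := hc 0
    rw [hm, coeff_C_mul, EE_coeff_zero, h0] at this
    simpa using this
  rw [e3, C_1, one_mul] at hm
  refine ⟨m.map fun s => 1 / s, fun r hr => ?_, fun j => by rw [← hm, hc]⟩
  obtain ⟨s, hs, rfl⟩ := Multiset.mem_map.1 hr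
  have := hpos s hs
  positivity

theorem KK_of_real (f : ℕ[X]) (h0 : f.coeff 0 = 1)
    (hreal : ∀ z : ℂ, aeval z f = 0 → z.im = 0) : KKseq fun j => f.coeff j := by
  obtain ⟨R, h1, h2⟩ := exists_roots f h0 hreal
  exact main_KK _ R rfl h1 (fun j => ⟨f.coeff j, by rw [← h2]; simp⟩) _ h2

end Pool.Agent.Lib.MP_961538_co
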