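import Pool.Agent.Lib.MP_961538_co.KK

/-! Lower bounds for the average up-degree in colex segments. -/

namespace Pool.Agent.Lib.MP_961538_co

open Finset

def GamOK (k n : ℕ) (γ : ℝ) : Prop :=
  ∀ y : ℕ, ((n : ℝ) - γ) * (sh k y : ℝ) - ((k : ℝ) + 1) * y ≤ γ * ((k + n).choose k : ℝ)

lemma choose_succ_real (b i : ℕ) (h : i ≤ b) :
    (b.choose (i + 1) : ℝ) * ((i : ℝ) + 1) = (b.choose i : ℝ) * ((b : ℝ) - i) := by
  have := Nat.choose_succ_right_eq b i
  have h2 : ((b.choose (i + 1) * (i + 1) : ℕ) : ℝ) = ((b.choose i * (b - i) : ℕ) : ℝ) := by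
    rw [this]
  push_cast [Nat.cast_sub h] at h2
  exact h2

lemma gam_use {k n y : ℕ} {γ : ℝ} (h : GamOK k n γ) (hn : 1 ≤ n) (hy : y < (k + n).choose k) :
    ((n : ℝ) - γ) * (sh (k + 1) ((k + n).choose (k + 1) + y) : ℝ)
      ≤ ((k : ℝ) + 1) * (((k + n).choose (k + 1) + y : ℕ) : ℝ) := by
  rw [sh_lt (by omega) hy]
  have h1 := h y
  have h2 := choose_succ_real (k + n) k (by omega)
  push_cast at *
  nlinarith

/-- terms with large `b` are nonpositive. -/
lemma term_nonpos {N K : ℝ} {b i : ℕ} (hb : i ≤ b) (hK : (i : ℝ) + 1 ≤ K) (hN : N ≤ (b : ℝ) - i) :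
    N * (b.choose i : ℝ) - K * (b.choose (i + 1) : ℝ) ≤ 0 := by
  have h2 := choose_succ_real b i hb
  have h3 : (0 : ℝ) ≤ b.choose i := by positivity
  have h4 : (0 : ℝ) ≤ b.choose (i + 1) := by positivity
  nlinarith

lemma gam1 (k : ℕ) : GamOK k 1 0 := by
  intro y
  have := tau_bound ((1 : ℕ) - 0) ((k : ℝ) + 1) (by positivity) (fun _ => 0) (fun _ => le_rfl) k
    (fun i hi b hb => term_nonpos (by omega) (by exact_mod_cast (by omega : i + 1 ≤ k + 1))
      (by have : ((i + 1 : ℕ) : ℝ) ≤ b := by exact_mod_cast hb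
          push_cast at *; linarith)) y
  simpa using this

lemma gam2 (k : ℕ) : GamOK k 2 (3 / 10) := by
  intro y
  have hs : ∀ J : ℕ, ∑ i ∈ range J, max 0 (17 / 10 * ((i : ℝ) + 1) - (k + 1))
      ≤ (max 0 (17 / 10 * (J : ℝ) - (k + 1) + 17 / 20)) ^ 2 / (17 / 5) := by
    intro J
    induction J with
    | zero => simp; positivity
    | succ J ih =>
      rw [sum_range_succ]
      push_cast
      set x : ℝ := 17 / 10 * ((J : ℝ) + 1) - (k + 1) with hx
      have e1 : 17 / 10 * (J : ℝ) - (k + 1) + 17 / 20 = x - 17 / 20 := by rw [hx]; ring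
      rw [e1] at ih
      have : max 0 x ≤ ((max 0 (x + 17 / 20)) ^ 2 - (max 0 (x - 17 / 20)) ^ 2) / (17 / 5) := by
        rcases le_total x (-17 / 20) with h | h
        · rw [max_eq_left (by linarith), max_eq_left (by linarith), max_eq_left (by linarith)]
          simp
        rcases le_total x 0 with h0 | h0
        · rw [max_eq_left h0, max_eq_right (by linarith), max_eq_left (by linarith)]
          have := sq_nonneg (x + 17 / 20)
          nlinarith
        rcases le_total x (17 / 20) with h1 | h1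
        · rw [max_eq_right h0, max_eq_right (by linarith), max_eq_left (by linarith)]
          nlinarith [sq_nonneg (x - 17 / 20)]
        · rw [max_eq_right h0, max_eq_right (by linarith), max_eq_right (by linarith)]
          nlinarith
      linarith
  have h := tau_bound (((2 : ℕ) : ℝ) - 3 / 10) ((k : ℝ) + 1) (by positivity)
    (fun i => max 0 (17 / 10 * ((i : ℝ) + 1) - (k + 1))) (fun _ => le_max_left _ _) k
    (fun i hi b hb => by
      rcases hb.eq_or_lt with h | h
      · subst h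
        refine le_trans ?_ (le_max_right _ _)
        simp
        linarith
      · refine le_trans (term_nonpos (by omega) (by exact_mod_cast (by omega : i + 1 ≤ k + 1))
          ?_) (le_max_left _ _)
        have : ((i + 2 : ℕ) : ℝ) ≤ b := by exact_mod_cast h
        push_cast at *; linarith) y
  refine h.trans ((hs k).trans ?_)
  have e : ((k + 2).choose k : ℝ) = ((k : ℝ) + 2) * (k + 1) / 2 := by
    rw [Nat.choose_symm_add, Nat.cast_choose_two]
    push_cast; ring
  rw [e]
  have hk : (0 : ℝ) ≤ k := by positivity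
  rcases le_total (17 / 10 * (k : ℝ) - (k + 1) + 17 / 20) 0 with h0 | h0
  · rw [max_eq_left h0]; simp; positivity
  · rw [max_eq_right h0]; nlinarith

lemma choose_add_ge (b i l : ℕ) :
    b.choose (i + 1) + l * b.choose i ≤ (b + l).choose (i + 1) := by
  induction l with
  | zero => simp
  | succ l ih =>
    rw [← add_assoc, Nat.choose_succ_succ']
    have : b.choose i ≤ (b + l).choose i := Nat.choose_le_choose _ (by omega)
    nlinarith

lemma choose_add_ge2 (b i s : ℕ) :
    (b.choose (i + 2) : ℝ) + s * (b.choose (i + 1) : ℝ) + (s : ℝ) * (s - 1) / 2 * (b.choose i : ℝ)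
      ≤ ((b + s).choose (i + 2) : ℝ) := by
  induction s with
  | zero => simp
  | succ s ih =>
    rw [← add_assoc, Nat.choose_succ_succ' (b + s) (i + 1)]
    have h : ((b.choose (i + 1) + s * b.choose i : ℕ) : ℝ) ≤ ((b + s).choose (i + 1) : ℕ) := by
      exact_mod_cast choose_add_ge b i s
    push_cast at *
    nlinarith

lemma quad_aux (c I L : ℝ) (hc : 1 ≤ c) (hI : 2 ≤ I) (hL : 0 ≤ L) :
    0 ≤ 6 * c * (c + 1) + (I + 1) * (L * (I * (L + 1) - 2 * (c + 1))) := by
  rcases le_total (2 * c + 2) I with h | h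
  · have : 0 ≤ I * (L + 1) - 2 * (c + 1) := by nlinarith
    positivity
  · have h1 : -(c ^ 2) ≤ I * (L * (I * (L + 1) - 2 * (c + 1))) := by
      nlinarith [sq_nonneg (I * L - (2 * c + 2 - I) / 2), mul_nonneg (sub_nonneg.2 h)
        (show 0 ≤ 2 * c - (2 * c + 2 - I) by linarith)]
    have h2 : 0 ≤ I * (6 * c * (c + 1) + (I + 1) * (L * (I * (L + 1) - 2 * (c + 1)))) := by
      have : (I + 1) * (-(c ^ 2)) ≤ (I + 1) * (I * (L * (I * (L + 1) - 2 * (c + 1)))) :=
        mul_le_mul_of_nonneg_left h1 (by linarith)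
      nlinarith [mul_nonneg (show 0 ≤ I by linarith) (show 0 ≤ c by linarith), sq_nonneg c,
        mul_nonneg (show 0 ≤ I - 2 by linarith) (sq_nonneg c)]
    by_contra hneg
    have : I * (6 * c * (c + 1) + (I + 1) * (L * (I * (L + 1) - 2 * (c + 1)))) < 0 :=
      mul_neg_of_pos_of_neg (by linarith) (by linarith)
    linarith

lemma term_half {K : ℝ} {n b i : ℕ} (hi : 1 ≤ i) (hb : i + 2 ≤ b) (hK : (i : ℝ) + 3 ≤ K) :
    ((n : ℝ) - 1 / 2) * (b.choose (i + 1) : ℝ) - K * (b.choose (i + 2) : ℝ)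
      ≤ 1 / 2 * ((n + (i + 1)).choose (i + 2) : ℝ) := by
  obtain ⟨c, rfl⟩ : ∃ c, b = c + (i + 1) := ⟨b - (i + 1), by omega⟩
  by_cases hn : n ≤ c
  · refine le_trans (term_nonpos (i := i + 1) (by omega) (by push_cast; linarith) ?_)
      (by positivity)
    have : (n : ℝ) ≤ c := by exact_mod_cast hn
    push_cast; linarith
  obtain ⟨L, rfl⟩ : ∃ L, n = c + (L + 1) := ⟨n - (c + 1), by omega⟩
  have h1 := choose_add_ge2 (c + (i + 1)) i (L + 1)
  rw [show c + (i + 1) + (L + 1) = c + (L + 1) + (i + 1) by ring] at h1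
  have h2 := choose_succ_real (c + (i + 1)) (i + 1) (by omega)
  have h3 := choose_succ_real (c + (i + 1)) i (by omega)
  rw [show i + 1 + 1 = i + 2 by ring] at h2
  set C0 : ℝ := ((c + (i + 1)).choose (i + 1) : ℝ)
  set C1 : ℝ := ((c + (i + 1)).choose (i + 2) : ℝ)
  set C2 : ℝ := ((c + (i + 1)).choose i : ℝ)
  have p0 : 0 ≤ C0 := by positivity
  have p1 : 0 ≤ C1 := by positivity
  have hc : (1 : ℝ) ≤ c := by exact_mod_cast (by omega : 1 ≤ c)
  have hI : (2 : ℝ) ≤ (i : ℝ) + 1 := by
    have : (1 : ℝ) ≤ i := by exact_mod_cast hi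
    linarith
  have hq := quad_aux c ((i : ℝ) + 1) L hc hI (by positivity)
  push_cast at *
  have e1 : C1 = C0 * c / (i + 2) := by field_simp; linarith
  have e2 : C2 = C0 * (i + 1) / (c + 1) := by field_simp; linarith
  have key : ((c : ℝ) + (L + 1) - 1 / 2) * C0 - (i + 3) * C1
      ≤ 1 / 2 * (C1 + (L + 1) * C0 + (L + 1) * (L + 1 - 1) / 2 * C2) := by
    rw [e1, e2]
    have : 1 / 2 * (C0 * c / (i + 2) + (L + 1) * C0
        + (L + 1) * (L + 1 - 1) / 2 * (C0 * (i + 1) / (c + 1)))
        - (((c : ℝ) + (L + 1) - 1 / 2) * C0 - (i + 3) * (C0 * c / (i + 2)))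
        = C0 * (6 * c * (c + 1) + (i + 1 + 1) * (L * ((i + 1) * (L + 1) - 2 * (c + 1))))
          / (4 * (i + 2) * (c + 1)) := by
      field_simp; ring
    have h5 : 0 ≤ C0 * (6 * c * (c + 1) + (i + 1 + 1) * (L * ((i + 1) * (L + 1) - 2 * (c + 1))))
          / (4 * ((i : ℝ) + 2) * (c + 1)) := by positivity
    linarith
  nlinarith

lemma gam3 (k n : ℕ) (hk : 3 ≤ k) : GamOK k n (1 / 2) := by
  intro y
  let τ : ℕ → ℝ := fun i => if i = 0 then max 0 ((n : ℝ) - 9 / 2) else
    if i = 1 then ((n : ℝ) + 3 / 2) ^ 2 / 8 else 1 / 2 * ((n + i).choose (i + 1) : ℝ)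
  have hK : (4 : ℝ) ≤ (k : ℝ) + 1 := by
    have : (3 : ℝ) ≤ k := by exact_mod_cast hk
    linarith
  have h := tau_bound ((n : ℝ) - 1 / 2) ((k : ℝ) + 1) (by positivity) τ
    (fun i => by
      simp only [τ]
      split_ifs
      · exact le_max_left _ _
      · positivity
      · positivity) k
    (fun i hi b hb => by
      have hb1 : (1 : ℝ) ≤ b := by exact_mod_cast (by omega : 1 ≤ b)
      simp only [τ]
      split_ifs with h0 h1
      · subst h0
        refine le_trans ?_ (le_max_right _ _)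
        simp
        nlinarith
      · subst h1
        rw [Nat.choose_one_right, show 1 + 1 = 2 by rfl, Nat.cast_choose_two]
        nlinarith [sq_nonneg ((n : ℝ) + 3 / 2 - 4 * b), mul_nonneg (sub_nonneg.2 hK)
          (mul_nonneg (show (0 : ℝ) ≤ b by linarith) (sub_nonneg.2 hb1))]
      · obtain ⟨j, rfl⟩ : ∃ j, i = j + 1 := ⟨i - 1, by omega⟩
        refine term_half (by omega) (by omega) ?_
        have : ((j + 2 : ℕ) : ℝ) ≤ k := by exact_mod_cast (by omega : j + 2 ≤ k)
        push_cast at this; linarith) y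
  refine h.trans ?_
  have hs : ∀ J : ℕ, ∑ i ∈ range (J + 2), τ i ≤ 1 / 2 * ((J + 2 + n).choose (J + 2) : ℝ) := by
    intro J
    induction J with
    | zero =>
      simp only [zero_add, sum_range_succ, sum_range_zero, τ]
      rw [Nat.cast_choose_two ℝ (2 + n)]
      simp
      have hn : (0 : ℝ) ≤ n := by positivity
      rcases le_total ((n : ℝ) - 9 / 2) 0 with h0 | h0
      · rw [max_eq_left h0]; nlinarith
      · rw [max_eq_right h0]; nlinarith
    | succ J ih =>
      rw [show J + 1 + 2 = (J + 2) + 1 by ring, sum_range_succ,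
        show J + 2 + 1 + n = (J + 2 + n) + 1 by ring, Nat.choose_succ_succ' (J + 2 + n)]
      have : τ (J + 2) = 1 / 2 * ((J + 2 + n).choose (J + 2 + 1) : ℝ) := by
        simp only [τ]
        rw [if_neg (by omega), if_neg (by omega), add_comm n]
      rw [this]
      push_cast
      linarith
  obtain ⟨J, rfl⟩ : ∃ J, k = J + 2 := ⟨k - 2, by omega⟩
  exact hs J

/-- fast binomial coefficient. -/
def ch (n k : ℕ) : ℕ := n.descFactorial k / k.factorial

lemma ch_eq (n k : ℕ) : ch n k = n.choose k := (Nat.choose_eq_descFactorial_div_factorial n k).symm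

def mx (f : ℕ → ℕ) : ℕ → ℕ
  | 0 => 0
  | n + 1 => max (f n) (mx f n)

lemma le_mx (f : ℕ → ℕ) {c n : ℕ} (h : c < n) : f c ≤ mx f n := by
  induction n with
  | zero => omega
  | succ n ih =>
    rw [mx]
    rcases (Nat.lt_succ_iff.1 h).lt_or_eq with h | h
    · exact (ih h).trans (le_max_right _ _)
    · subst h; exact le_max_left _ _

def tauN (k n g i : ℕ) : ℕ :=
  mx (fun c => (100 * n - g) * ch (c + 1 + i) i - 100 * (k + 1) * ch (c + 1 + i) (i + 1)) n

def sumN (f : ℕ → ℕ) : ℕ → ℕ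
  | 0 => 0
  | n + 1 => sumN f n + f n

lemma sumN_eq (f : ℕ → ℕ) (n : ℕ) : sumN f n = ∑ i ∈ range n, f i := by
  induction n with
  | zero => rfl
  | succ n ih => rw [sumN, ih, sum_range_succ]

def gamChk (k n g : ℕ) : Bool :=
  Nat.ble g (100 * n) && Nat.ble (sumN (tauN k n g) k) (g * ch (k + n) k)

lemma gamChk_sound {k n g : ℕ} (h : gamChk k n g = true) : GamOK k n ((g : ℝ) / 100) := by
  intro y
  simp only [gamChk, Bool.and_eq_true, Nat.ble_eq] at h
  obtain ⟨hg, hs⟩ := h
  have h := tau_bound ((n : ℝ) - g / 100) ((k : ℝ) + 1) (by positivity)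
    (fun i => (tauN k n g i : ℝ) / 100) (fun _ => by positivity) k
    (fun i hi b hb => by
      by_cases hbn : b ≤ n + i
      · obtain ⟨c, rfl⟩ : ∃ c, b = c + 1 + i := ⟨b - (i + 1), by omega⟩
        have h1 := le_mx (fun c => (100 * n - g) * ch (c + 1 + i) i
          - 100 * (k + 1) * ch (c + 1 + i) (i + 1)) (c := c) (n := n) (by omega)
        have h2 : (100 * n - g) * ch (c + 1 + i) i
            ≤ tauN k n g i + 100 * (k + 1) * ch (c + 1 + i) (i + 1) := by
          unfold tauN; omega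
        rw [ch_eq, ch_eq] at h2
        have h3 : (((100 * n - g) * (c + 1 + i).choose i : ℕ) : ℝ)
            ≤ ((tauN k n g i + 100 * (k + 1) * (c + 1 + i).choose (i + 1) : ℕ) : ℝ) := by
          exact_mod_cast h2
        push_cast [Nat.cast_sub hg] at h3
        linarith
      · refine le_trans (term_nonpos (by omega) (by exact_mod_cast (by omega : i + 1 ≤ k + 1))
          ?_) (by positivity)
        have : ((n + i : ℕ) : ℝ) ≤ b := by exact_mod_cast (by omega : n + i ≤ b)
        have h0 : (0 : ℝ) ≤ g := by positivity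
        push_cast at *; linarith) y
  refine h.trans ?_
  rw [sumN_eq, ch_eq] at hs
  have h3 : ((∑ i ∈ range k, tauN k n g i : ℕ) : ℝ) ≤ ((g * (k + n).choose k : ℕ) : ℝ) := by
    exact_mod_cast hs
  push_cast at h3
  rw [← sum_div]
  linarith

end Pool.Agent.Lib.MP_961538_co
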