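import Mathlib

/-! Numerical Kruskal-Katona functions (shadow, link and deletion sizes of colex segments). -/

namespace Pool.Agent.Lib.MP_961538_co

open Finset

/-- the largest `a` with `C(a,k+1) ≤ m`. -/
def top (k m : ℕ) : ℕ := Nat.findGreatest (fun a => a.choose (k + 1) ≤ m) (m + k + 1)

/-- generic sum along the cascade. -/
def cas (φ : ℕ → ℕ → ℕ) (ψ : ℕ → ℕ) : ℕ → ℕ → ℕ
  | 0, m => ψ m
  | k + 1, m => if m = 0 then 0 else φ (top k m) k + cas φ ψ k (m - (top k m).choose (k + 1))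

def sh : ℕ → ℕ → ℕ := cas (fun a k => a.choose k) (fun _ => 0)
def HH : ℕ → ℕ → ℕ := cas (fun a k => (a - 1).choose k) (fun _ => 0)
def GG : ℕ → ℕ → ℕ := cas (fun a k => (a - 1).choose (k + 1)) (fun m => m)

lemma lt_choose_add (m k : ℕ) : m < (m + k + 1).choose (k + 1) := by
  induction m with
  | zero => simp
  | succ m ih =>
    have h : (m + 1 + k + 1).choose (k + 1)
        = (m + k + 1).choose k + (m + k + 1).choose (k + 1) := by
      rw [show m + 1 + k + 1 = (m + k + 1) + 1 by ring, Nat.choose_succ_succ']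
    have h2 : 0 < (m + k + 1).choose k := Nat.choose_pos (by omega)
    omega

lemma top_spec (k m : ℕ) (hm : m ≠ 0) :
    k + 1 ≤ top k m ∧ (top k m).choose (k + 1) ≤ m ∧ m < (top k m + 1).choose (k + 1) := by
  have h1 : k + 1 ≤ top k m :=
    Nat.le_findGreatest (P := fun a => a.choose (k + 1) ≤ m) (by omega) (by simp; omega)
  have h2 : (top k m).choose (k + 1) ≤ m :=
    Nat.findGreatest_spec (P := fun a => a.choose (k + 1) ≤ m) (m := k + 1) (by omega)
      (by simp; omega)
  refine ⟨h1, h2, ?_⟩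
  have h3 : top k m ≤ m + k + 1 := Nat.findGreatest_le _
  rcases h3.lt_or_eq with h | h
  · have := Nat.findGreatest_is_greatest (P := fun a => a.choose (k + 1) ≤ m)
      (n := m + k + 1) (k := top k m + 1) (by unfold top; omega) (by omega)
    omega
  · have := lt_choose_add m k
    rw [h] at h2
    omega

lemma decomp (k m : ℕ) (hm : m ≠ 0) :
    ∃ a y, k + 1 ≤ a ∧ y < a.choose k ∧ m = a.choose (k + 1) + y := by
  obtain ⟨h1, h2, h3⟩ := top_spec k m hm
  refine ⟨top k m, m - (top k m).choose (k + 1), h1, ?_, by omega⟩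
  rw [Nat.choose_succ_succ'] at h3
  omega

lemma top_eq {k a y : ℕ} (ha : k + 1 ≤ a) (hy : y < a.choose k) :
    top k (a.choose (k + 1) + y) = a := by
  have hp : 0 < a.choose (k + 1) := Nat.choose_pos ha
  obtain ⟨h1, h2, h3⟩ := top_spec k (a.choose (k + 1) + y) (by omega)
  apply le_antisymm
  · by_contra h
    have : (a + 1).choose (k + 1) ≤ (top k (a.choose (k + 1) + y)).choose (k + 1) :=
      Nat.choose_le_choose _ (by omega)
    rw [Nat.choose_succ_succ'] at this
    omega
  · by_contra h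
    have : (top k (a.choose (k + 1) + y) + 1).choose (k + 1) ≤ a.choose (k + 1) :=
      Nat.choose_le_choose _ (by omega)
    omega

lemma cas_lt (φ : ℕ → ℕ → ℕ) (ψ : ℕ → ℕ) {k a y : ℕ} (ha : k + 1 ≤ a) (hy : y < a.choose k) :
    cas φ ψ (k + 1) (a.choose (k + 1) + y) = φ a k + cas φ ψ k y := by
  have hp : 0 < a.choose (k + 1) := Nat.choose_pos ha
  rw [cas, if_neg (by omega), top_eq ha hy]
  congr 2
  omega

lemma cas_zero (φ : ℕ → ℕ → ℕ) (ψ : ℕ → ℕ) (h : ψ 0 = 0) (k : ℕ) : cas φ ψ k 0 = 0 := by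
  cases k with
  | zero => simp [cas, h]
  | succ k => simp [cas]

lemma cas_full (φ : ℕ → ℕ → ℕ) (ψ : ℕ → ℕ) (h : ψ 0 = 0) {k a : ℕ} (ha : k + 1 ≤ a) :
    cas φ ψ (k + 1) (a.choose (k + 1)) = φ a k := by
  have := cas_lt φ ψ (y := 0) ha (Nat.choose_pos (by omega))
  rw [cas_zero φ ψ h] at this
  simpa using this

@[simp] lemma sh_zero (k : ℕ) : sh k 0 = 0 := cas_zero _ _ rfl k
@[simp] lemma HH_zero (k : ℕ) : HH k 0 = 0 := cas_zero _ _ rfl k
@[simp] lemma GG_zero (k : ℕ) : GG k 0 = 0 := cas_zero _ _ rfl k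
@[simp] lemma sh_lev0 (m : ℕ) : sh 0 m = 0 := rfl
@[simp] lemma HH_lev0 (m : ℕ) : HH 0 m = 0 := rfl
@[simp] lemma GG_lev0 (m : ℕ) : GG 0 m = m := rfl

lemma sh_lt {k a y : ℕ} (ha : k + 1 ≤ a) (hy : y < a.choose k) :
    sh (k + 1) (a.choose (k + 1) + y) = a.choose k + sh k y := cas_lt _ _ ha hy
lemma HH_lt {k a y : ℕ} (ha : k + 1 ≤ a) (hy : y < a.choose k) :
    HH (k + 1) (a.choose (k + 1) + y) = (a - 1).choose k + HH k y := cas_lt _ _ ha hy
lemma GG_lt {k a y : ℕ} (ha : k + 1 ≤ a) (hy : y < a.choose k) :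
    GG (k + 1) (a.choose (k + 1) + y) = (a - 1).choose (k + 1) + GG k y := cas_lt _ _ ha hy
lemma sh_full {k a : ℕ} (ha : k + 1 ≤ a) : sh (k + 1) (a.choose (k + 1)) = a.choose k :=
  cas_full _ _ rfl ha
lemma HH_full {k a : ℕ} (ha : k + 1 ≤ a) : HH (k + 1) (a.choose (k + 1)) = (a - 1).choose k :=
  cas_full _ _ rfl ha
lemma GG_full {k a : ℕ} (ha : k + 1 ≤ a) :
    GG (k + 1) (a.choose (k + 1)) = (a - 1).choose (k + 1) := cas_full _ _ rfl ha

lemma sh_pascal {k a : ℕ} (ha : k ≤ a) :
    (a + 1).choose k = a.choose k + sh k (a.choose k) := by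
  cases k with
  | zero => simp
  | succ k => rw [sh_full ha, Nat.choose_succ_succ']; ring

lemma HH_pascal {k a : ℕ} (ha : k ≤ a) :
    (a + 1 - 1).choose k = (a - 1).choose k + HH k (a.choose k) := by
  cases k with
  | zero => simp
  | succ k =>
    rw [HH_full ha]
    obtain ⟨b, rfl⟩ : ∃ b, a = b + 1 := ⟨a - 1, by omega⟩
    simp only [Nat.add_sub_cancel]
    rw [Nat.choose_succ_succ']; ring

lemma GG_pascal {k a : ℕ} (ha : k + 1 ≤ a) :
    (a + 1 - 1).choose (k + 1) = (a - 1).choose (k + 1) + GG k (a.choose k) := by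
  obtain ⟨b, rfl⟩ : ∃ b, a = b + 1 := ⟨a - 1, by omega⟩
  simp only [Nat.add_sub_cancel]
  cases k with
  | zero => simp
  | succ k =>
    rw [GG_full (by omega)]
    simp only [Nat.add_sub_cancel]
    rw [Nat.choose_succ_succ' b (k + 1)]; ring

lemma sh_rec {k a y : ℕ} (ha : k ≤ a) (hy : y ≤ a.choose k) (h : k + 1 ≤ a ∨ 1 ≤ y) :
    sh (k + 1) (a.choose (k + 1) + y) = a.choose k + sh k y := by
  rcases hy.lt_or_eq with hy | hy
  · rcases h with h | h
    · exact sh_lt h hy
    · rcases ha.lt_or_eq with h' | h'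
      · exact sh_lt h' hy
      · subst h'; simp at hy; omega
  · subst hy
    rw [add_comm (a.choose (k + 1)), ← Nat.choose_succ_succ', sh_full (by omega), sh_pascal ha]

lemma HH_rec {k a y : ℕ} (ha : k + 1 ≤ a) (hy : y ≤ a.choose k) :
    HH (k + 1) (a.choose (k + 1) + y) = (a - 1).choose k + HH k y := by
  rcases hy.lt_or_eq with hy | hy
  · exact HH_lt ha hy
  · subst hy
    rw [add_comm (a.choose (k + 1)), ← Nat.choose_succ_succ', HH_full (by omega), HH_pascal (by omega)]

lemma GG_rec {k a y : ℕ} (ha : k + 1 ≤ a) (hy : y ≤ a.choose k) :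
    GG (k + 1) (a.choose (k + 1) + y) = (a - 1).choose (k + 1) + GG k y := by
  rcases hy.lt_or_eq with hy | hy
  · exact GG_lt ha hy
  · subst hy
    rw [add_comm (a.choose (k + 1)), ← Nat.choose_succ_succ', GG_full (by omega), GG_pascal ha]

lemma cas_mono (φ : ℕ → ℕ → ℕ) (ψ : ℕ → ℕ) (h0 : ψ 0 = 0) (hψ : Monotone ψ)
    (hφ : ∀ k a b, a ≤ b → φ a k ≤ φ b k)
    (hp : ∀ k a, k + 1 ≤ a → φ (a + 1) k = φ a k + cas φ ψ k (a.choose k)) (k : ℕ) :
    Monotone (cas φ ψ k) := by
  induction k with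
  | zero => exact hψ
  | succ k ih =>
    intro m m' hmm
    by_cases hm : m = 0
    · subst hm; rw [cas_zero φ ψ h0]; exact Nat.zero_le _
    obtain ⟨a, y, ha, hy, rfl⟩ := decomp k m hm
    obtain ⟨a', y', ha', hy', rfl⟩ := decomp k m' (by omega)
    rw [cas_lt φ ψ ha hy, cas_lt φ ψ ha' hy']
    rcases lt_trichotomy a a' with h | h | h
    · have h1 : cas φ ψ k y ≤ cas φ ψ k (a.choose k) := ih hy.le
      have h2 := hp k a ha
      have h3 := hφ k (a + 1) a' h
      omega
    · subst h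
      have : cas φ ψ k y ≤ cas φ ψ k y' := ih (by omega)
      omega
    · exfalso
      have : (a' + 1).choose (k + 1) ≤ a.choose (k + 1) := Nat.choose_le_choose _ h
      rw [Nat.choose_succ_succ'] at this
      omega

lemma sh_mono (k : ℕ) : Monotone (sh k) :=
  cas_mono (fun a k => a.choose k) (fun _ => 0) rfl monotone_const
    (fun _ _ _ h => Nat.choose_le_choose _ h)
    (fun k a h => sh_pascal (k := k) (a := a) (by omega)) k

lemma HH_mono (k : ℕ) : Monotone (HH k) :=
  cas_mono (fun a k => (a - 1).choose k) (fun _ => 0) rfl monotone_const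
    (fun _ _ _ h => Nat.choose_le_choose _ (by omega))
    (fun k a h => HH_pascal (k := k) (a := a) (by omega)) k

lemma GG_mono (k : ℕ) : Monotone (GG k) :=
  cas_mono (fun a k => (a - 1).choose (k + 1)) (fun m => m) rfl monotone_id
    (fun _ _ _ h => Nat.choose_le_choose _ (by omega))
    (fun k a h => GG_pascal (k := k) (a := a) h) k

lemma sh_le {k a y : ℕ} (hy : y ≤ a.choose (k + 1)) : sh (k + 1) y ≤ a.choose k := by
  by_cases ha : k + 1 ≤ a
  · rw [← sh_full ha]; exact sh_mono _ hy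
  · rw [Nat.choose_eq_zero_of_lt (by omega)] at hy
    obtain rfl : y = 0 := by omega
    simp

lemma HH_le {k a y : ℕ} (hy : y ≤ a.choose (k + 1)) : HH (k + 1) y ≤ (a - 1).choose k := by
  by_cases ha : k + 1 ≤ a
  · rw [← HH_full ha]; exact HH_mono _ hy
  · rw [Nat.choose_eq_zero_of_lt (by omega)] at hy
    obtain rfl : y = 0 := by omega
    simp

lemma GG_add_HH (k m : ℕ) : GG k m + HH k m = m := by
  induction k generalizing m with
  | zero => simp
  | succ k ih =>
    by_cases hm : m = 0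
    · subst hm; simp
    obtain ⟨a, y, ha, hy, rfl⟩ := decomp k m hm
    rw [GG_lt ha hy, HH_lt ha hy]
    have := ih y
    obtain ⟨b, rfl⟩ : ∃ b, a = b + 1 := ⟨a - 1, by omega⟩
    simp only [Nat.add_sub_cancel]
    rw [Nat.choose_succ_succ' b k]
    omega

lemma GG_sh (k m : ℕ) : GG k (sh (k + 1) m) = HH (k + 1) m := by
  induction k generalizing m with
  | zero =>
    by_cases hm : m = 0
    · subst hm; simp
    obtain ⟨a, y, ha, hy, rfl⟩ := decomp 0 m hm
    rw [sh_lt ha hy, HH_lt ha hy]; simp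
  | succ k ih =>
    by_cases hm : m = 0
    · subst hm; simp
    obtain ⟨a, y, ha, hy, rfl⟩ := decomp (k + 1) m hm
    rw [sh_lt ha hy, HH_lt ha hy, GG_rec (by omega) (sh_le hy.le), ih]

lemma HH_sh (k m : ℕ) : HH k (sh (k + 1) m) = sh k (HH (k + 1) m) := by
  induction k generalizing m with
  | zero => simp
  | succ k ih =>
    by_cases hm : m = 0
    · subst hm; simp
    obtain ⟨a, y, ha, hy, rfl⟩ := decomp (k + 1) m hm
    rw [sh_lt ha hy, HH_lt ha hy, HH_rec (by omega) (sh_le hy.le), ih,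
      sh_rec (by omega) (HH_le hy.le) (Or.inl (by omega))]

lemma sh_split (k m : ℕ) : sh (k + 1) m = HH (k + 1) m + sh k (HH (k + 1) m) := by
  rw [← HH_sh, ← GG_sh, GG_add_HH]

lemma GG_lt_choose {k a y : ℕ} (ha : k + 1 ≤ a) (hy : y < a.choose k) :
    GG k y < (a - 1).choose k := by
  induction k generalizing a y with
  | zero => simpa using hy
  | succ k ih =>
    by_cases hm : y = 0
    · subst hm; simp; exact Nat.choose_pos (by omega)
    obtain ⟨b, z, hb, hz, rfl⟩ := decomp k y hm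
    rw [GG_lt hb hz]
    have h1 := ih hb hz
    have hba : b < a := by
      by_contra h
      have : a.choose (k + 1) ≤ b.choose (k + 1) := Nat.choose_le_choose _ (by omega)
      omega
    have h2 : b.choose (k + 1) ≤ (a - 1).choose (k + 1) := Nat.choose_le_choose _ (by omega)
    obtain ⟨c, rfl⟩ : ∃ c, b = c + 1 := ⟨b - 1, by omega⟩
    simp only [Nat.add_sub_cancel] at *
    rw [Nat.choose_succ_succ'] at h2
    omega

lemma sh_GG_le (k m : ℕ) : sh k (GG k m) ≤ HH k m := by
  induction k generalizing m with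
  | zero => simp
  | succ k ih =>
    by_cases hm : m = 0
    · subst hm; simp
    obtain ⟨a, y, ha, hy, rfl⟩ := decomp k m hm
    rw [GG_lt ha hy, HH_lt ha hy]
    have h1 := GG_lt_choose ha hy
    by_cases h : k + 1 ≤ a - 1 ∨ 1 ≤ GG k y
    · rw [sh_rec (by omega) h1.le h]
      have := ih y
      omega
    · have h2 : GG k y = 0 := by omega
      have h3 : (a - 1).choose (k + 1) = 0 := Nat.choose_eq_zero_of_lt (by omega)
      rw [h2, h3]; simp

lemma HH_le_sh (k m : ℕ) : HH k m ≤ sh k (GG k m + 1) := by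
  induction k generalizing m with
  | zero => simp
  | succ k ih =>
    by_cases hm : m = 0
    · subst hm; simp
    obtain ⟨a, y, ha, hy, rfl⟩ := decomp k m hm
    rw [GG_lt ha hy, HH_lt ha hy]
    have h1 := GG_lt_choose ha hy
    rw [add_assoc, sh_rec (by omega) (by omega) (Or.inr (by omega))]
    have := ih y
    omega

lemma HH_pos (k m : ℕ) (hm : m ≠ 0) : 1 ≤ HH (k + 1) m := by
  obtain ⟨a, y, ha, hy, rfl⟩ := decomp k m hm
  rw [HH_lt ha hy]
  have : 0 < (a - 1).choose k := Nat.choose_pos (by omega)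
  omega

lemma EW_caseA (k x y : ℕ) (h : sh (k + 1) x ≤ y) : sh (k + 1) (x + y) ≤ y + sh k y := by
  have h1 : HH (k + 1) (x + y) ≤ y := by
    by_contra hc
    have e := GG_add_HH (k + 1) (x + y)
    have h2 := HH_le_sh (k + 1) (x + y)
    have h3 : sh (k + 1) (GG (k + 1) (x + y) + 1) ≤ sh (k + 1) x := sh_mono _ (by omega)
    omega
  rw [sh_split]
  have := sh_mono k h1
  omega

/-- the Eckhoff-Wegner inequality. -/
theorem EW (k x y : ℕ) : sh (k + 1) (x + y) ≤ max (sh (k + 1) x) y + sh k y := by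
  induction k generalizing x y with
  | zero =>
    by_cases h : sh (0 + 1) x ≤ y
    · have := EW_caseA 0 x y h
      omega
    · have h1 : sh (0 + 1) (x + y) ≤ (x + y).choose 0 := sh_le (by simp)
      rw [Nat.choose_zero_right] at h1
      omega
  | succ k ihk =>
    induction hs : x + y using Nat.strong_induction_on generalizing x y with
    | _ s ihs =>
    subst hs
    by_cases h : sh (k + 1 + 1) x ≤ y
    · have := EW_caseA (k + 1) x y h
      omega
    · have hx : x ≠ 0 := by rintro rfl; simp at h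
      have hp := HH_pos (k + 1) x hx
      have ex := GG_add_HH (k + 1 + 1) x
      have ey := GG_add_HH (k + 1) y
      have em := GG_add_HH (k + 1 + 1) (x + y)
      have hGy : GG (k + 1) y ≤ HH (k + 1 + 1) x := by
        rw [← GG_sh]; exact GG_mono _ (by omega)
      have hHy : HH (k + 1) y ≤ sh (k + 1) (HH (k + 1 + 1) x) := by
        rw [← HH_sh]; exact HH_mono _ (by omega)
      have h1 : HH (k + 1 + 1) (x + y) ≤ HH (k + 1 + 1) x + HH (k + 1) y := by
        by_contra hc
        have h2 := HH_le_sh (k + 1 + 1) (x + y)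
        have h3 : sh (k + 1 + 1) (GG (k + 1 + 1) (x + y) + 1)
            ≤ sh (k + 1 + 1) (GG (k + 1 + 1) x + GG (k + 1) y) := sh_mono _ (by omega)
        have h4 := ihs (GG (k + 1 + 1) x + GG (k + 1) y) (by omega) _ _ rfl
        have h5 := sh_GG_le (k + 1 + 1) x
        have h6 := sh_GG_le (k + 1) y
        omega
      have h7 := sh_mono (k + 1) h1
      have h8 := ihk (HH (k + 1 + 1) x) (HH (k + 1) y)
      rw [sh_split (k + 1) (x + y), sh_split (k + 1) x, sh_split k y]
      omega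

/-- the Kruskal-Katona conditions for a sequence. -/
def KKseq (e : ℕ → ℕ) : Prop := ∀ k, sh (k + 1) (e (k + 1)) ≤ e k

lemma glue {g h e : ℕ → ℕ} (hg : KKseq g) (hh : KKseq h) (hle : ∀ i, h i ≤ g i)
    (h0 : e 0 = g 0) (hs : ∀ i, e (i + 1) = g (i + 1) + h i) : KKseq e := by
  intro k
  have h1 := EW k (g (k + 1)) (h k)
  have h2 := hg k
  have h3 := hle k
  rw [hs]
  cases k with
  | zero => rw [sh_lev0] at h1; omega
  | succ k =>
    have h4 := hh k
    rw [hs]
    omega

lemma tau_bound (N K : ℝ) (hK : 0 ≤ K) (τ : ℕ → ℝ) (hτ : ∀ i, 0 ≤ τ i) (J : ℕ)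
    (h : ∀ i < J, ∀ b, i + 1 ≤ b → N * (b.choose i : ℝ) - K * (b.choose (i + 1) : ℝ) ≤ τ i)
    (y : ℕ) : N * (sh J y : ℝ) - K * y ≤ ∑ i ∈ range J, τ i := by
  induction J generalizing y with
  | zero => simp; positivity
  | succ J ih =>
    by_cases hy : y = 0
    · subst hy; simp; exact sum_nonneg fun i _ => hτ i
    obtain ⟨b, z, hb, hz, rfl⟩ := decomp J y hy
    rw [sh_lt hb hz, sum_range_succ]
    have h1 := ih (fun i hi => h i (by omega)) z
    have h2 := h J (by omega) b hb
    push_cast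
    linarith

end Pool.Agent.Lib.MP_961538_co
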