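import Mathlib

/-! Verified fixed-point bounds (scale `2^30`) for logarithms of natural numbers. -/

namespace Pool.Agent.Lib.MP_961538_co

open Finset

def SS : ℕ := 1073741824

def loPoly (z w : ℕ) : ℕ :=
  2 * z * ((((35 * w + 45 * SS ^ 2) * w + 63 * SS ^ 4) * w + 105 * SS ^ 6) * w + 315 * SS ^ 8)
    / (315 * SS ^ 8)

def hiPoly (z w : ℕ) : ℕ :=
  2 * z * ((((105 * w + 120 * SS ^ 2) * w + 168 * SS ^ 4) * w + 280 * SS ^ 6) * w + 840 * SS ^ 8)
    / (840 * SS ^ 8) + 1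

def loAux (e z : ℕ) : ℕ := e * 744261117 + loPoly z (z * z)
def hiAux (e z : ℕ) : ℕ := e * 744261119 + hiPoly z (z * z)
def zOf (p D : ℕ) : ℕ := (p - D) * SS / (p + D)

def lgLo (p : ℕ) : ℕ := loAux p.log2 (zOf p (2 ^ p.log2))
def lgHi (p : ℕ) : ℕ := hiAux p.log2 (zOf p (2 ^ p.log2) + 1)

lemma SS_pos : (0 : ℝ) < SS := by norm_num [SS]

lemma cast_div_lt (a b : ℕ) (hb : 0 < b) : (a : ℝ) / b ≤ ((a / b + 1 : ℕ) : ℝ) := by
  have h : (0 : ℝ) < b := by exact_mod_cast hb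
  rw [div_le_iff₀ h]
  have := Nat.lt_div_mul_add (a := a) hb
  have h2 : a ≤ (a / b + 1) * b := by rw [add_mul]; omega
  exact_mod_cast h2

lemma series_lo {z : ℝ} (h0 : 0 ≤ z) (h1 : z < 1) :
    2 * (z + z ^ 3 / 3 + z ^ 5 / 5 + z ^ 7 / 7 + z ^ 9 / 9) ≤ Real.log (1 + z) - Real.log (1 - z) := by
  have h := Real.hasSum_log_sub_log_of_abs_lt_one (x := z) (by rw [abs_of_nonneg h0]; exact h1)
  have h2 := sum_le_hasSum (range 5) (fun i _ => by positivity) h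
  simp only [sum_range_succ, sum_range_zero] at h2
  norm_num at h2
  linarith

lemma series_hi {z : ℝ} (h0 : 0 ≤ z) (h1 : z ≤ 1 / 3) :
    Real.log (1 + z) - Real.log (1 - z) ≤ 2 * (z + z ^ 3 / 3 + z ^ 5 / 5 + z ^ 7 / 7 + z ^ 9 / 8) := by
  have h := Real.hasSum_log_sub_log_of_abs_lt_one (x := z) (by rw [abs_of_nonneg h0]; linarith)
  have h2 := (hasSum_nat_add_iff' 4).2 h
  have hz : z ^ 2 ≤ 1 / 9 := by nlinarith
  have h3 := (hasSum_geometric_of_lt_one (r := (1 / 9 : ℝ)) (by norm_num) (by norm_num)).mul_left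
    (2 / 9 * z ^ 9)
  have h4 := hasSum_le (fun i => ?_) h2 h3
  · simp only [sum_range_succ, sum_range_zero] at h4
    norm_num at h4
    linarith
  · have e : z ^ (2 * (i + 4) + 1) = z ^ 9 * (z ^ 2) ^ i := by ring
    rw [e]
    have h5 : (z ^ 2) ^ i ≤ (1 / 9 : ℝ) ^ i := pow_le_pow_left₀ (by positivity) hz i
    have h6 : (1 : ℝ) / (2 * ((i + 4 : ℕ) : ℝ) + 1) ≤ 1 / 9 := by
      apply one_div_le_one_div_of_le (by norm_num)
      push_cast
      have : (0 : ℝ) ≤ i := by positivity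
      linarith
    calc 2 * (1 / (2 * ((i + 4 : ℕ) : ℝ) + 1)) * (z ^ 9 * (z ^ 2) ^ i)
        ≤ 2 * (1 / 9) * (z ^ 9 * (1 / 9 : ℝ) ^ i) := by gcongr
      _ = _ := by ring

lemma log_split (p : ℕ) (hp : p ≠ 0) :
    ∃ z : ℝ, 0 ≤ z ∧ z ≤ 1 / 3 ∧
      z * SS = (((p - 2 ^ p.log2) * SS : ℕ) : ℝ) / ((p + 2 ^ p.log2 : ℕ) : ℝ) ∧
      Real.log p = p.log2 * Real.log 2 + (Real.log (1 + z) - Real.log (1 - z)) := by
  have h1 := Nat.log2_self_le hp
  have h2 := Nat.lt_log2_self (n := p)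
  set D : ℕ := 2 ^ p.log2 with hD
  have hD0 : 0 < D := by positivity
  have h2' : p ≤ 2 * D := by rw [pow_succ] at h2; omega
  have r0 : (0 : ℝ) < D := by exact_mod_cast hD0
  have r1 : (D : ℝ) ≤ p := by exact_mod_cast h1
  have r2 : (p : ℝ) ≤ 2 * D := by exact_mod_cast h2'
  refine ⟨((p : ℝ) - D) / (p + D), div_nonneg (by linarith) (by linarith), ?_, ?_, ?_⟩
  · rw [div_le_iff₀ (by linarith)]; linarith
  · push_cast [Nat.cast_sub h1]; ring
  · have e1 : 1 + ((p : ℝ) - D) / (p + D) = 2 * p / (p + D) := by field_simp; ring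
    have e2 : 1 - ((p : ℝ) - D) / (p + D) = 2 * D / (p + D) := by field_simp; ring
    have e3 : Real.log D = p.log2 * Real.log 2 := by
      rw [hD]; push_cast; rw [Real.log_pow]
    have hp0 : (0 : ℝ) < p := by linarith
    rw [e1, e2, Real.log_div (by positivity) (by positivity),
      Real.log_div (by positivity) (by positivity), Real.log_mul (by norm_num) hp0.ne',
      Real.log_mul (by norm_num) r0.ne', e3]
    ring

theorem lgLo_le (p : ℕ) (hp : p ≠ 0) : (lgLo p : ℝ) ≤ SS * Real.log p := by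
  obtain ⟨z, h0, h1, hz, hl⟩ := log_split p hp
  have hS := SS_pos
  have h2 := series_lo h0 (by linarith)
  set u : ℕ := zOf p (2 ^ p.log2) with hu
  have h3 : (u : ℝ) ≤ z * SS := by rw [hz]; exact Nat.cast_div_le
  obtain ⟨y, hy⟩ : ∃ y : ℝ, (u : ℝ) = y * SS := ⟨u / SS, by field_simp⟩
  have hy0 : 0 ≤ y := by
    have : (0 : ℝ) ≤ y * SS := by rw [← hy]; positivity
    exact nonneg_of_mul_nonneg_left this hS
  have hyz : y ≤ z := by rw [hy] at h3; exact le_of_mul_le_mul_right h3 hS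
  have h4 : (loPoly u (u * u) : ℝ)
      ≤ SS * (2 * (y + y ^ 3 / 3 + y ^ 5 / 5 + y ^ 7 / 7 + y ^ 9 / 9)) := by
    unfold loPoly
    refine Nat.cast_div_le.trans (le_of_eq ?_)
    push_cast
    rw [hy]
    field_simp
    ring
  have h5 : y + y ^ 3 / 3 + y ^ 5 / 5 + y ^ 7 / 7 + y ^ 9 / 9
      ≤ z + z ^ 3 / 3 + z ^ 5 / 5 + z ^ 7 / 7 + z ^ 9 / 9 := by gcongr
  have h6 : (744261117 : ℝ) ≤ SS * Real.log 2 := by
    have := Real.log_two_gt_d9
    norm_num [SS] at *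
    linarith
  have h7 : (0 : ℝ) ≤ p.log2 := by positivity
  unfold lgLo loAux
  rw [← hu, hl]
  push_cast
  nlinarith [mul_le_mul_of_nonneg_left h6 h7, mul_le_mul_of_nonneg_left h2 hS.le,
    mul_le_mul_of_nonneg_left h5 hS.le]

theorem le_lgHi (p : ℕ) (hp : p ≠ 0) : SS * Real.log p ≤ (lgHi p : ℝ) := by
  obtain ⟨z, h0, h1, hz, hl⟩ := log_split p hp
  have hS := SS_pos
  have h2 := series_hi h0 h1
  set u : ℕ := zOf p (2 ^ p.log2) + 1 with hu
  have h3 : z * SS ≤ (u : ℝ) := by rw [hz]; exact cast_div_lt _ _ (by positivity)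
  obtain ⟨y, hy⟩ : ∃ y : ℝ, (u : ℝ) = y * SS := ⟨u / SS, by field_simp⟩
  have hyz : z ≤ y := by rw [hy] at h3; exact le_of_mul_le_mul_right h3 hS
  have h4 : SS * (2 * (y + y ^ 3 / 3 + y ^ 5 / 5 + y ^ 7 / 7 + y ^ 9 / 8))
      ≤ (hiPoly u (u * u) : ℝ) := by
    unfold hiPoly
    refine le_trans (le_of_eq ?_) (cast_div_lt _ _ (by norm_num [SS]))
    push_cast
    rw [hy]
    field_simp
    ring
  have h5 : z + z ^ 3 / 3 + z ^ 5 / 5 + z ^ 7 / 7 + z ^ 9 / 8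
      ≤ y + y ^ 3 / 3 + y ^ 5 / 5 + y ^ 7 / 7 + y ^ 9 / 8 := by gcongr
  have h6 : SS * Real.log 2 ≤ (744261119 : ℝ) := by
    have := Real.log_two_lt_d9
    norm_num [SS] at *
    linarith
  have h7 : (0 : ℝ) ≤ p.log2 := by positivity
  unfold lgHi hiAux
  rw [← hu, hl]
  push_cast
  nlinarith [mul_le_mul_of_nonneg_left h6 h7, mul_le_mul_of_nonneg_left h2 hS.le,
    mul_le_mul_of_nonneg_left h5 hS.le]

end Pool.Agent.Lib.MP_961538_co
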