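import Pool.Agent.Lib.MP_961538_co.Core

/-! The inequalities of levels one and two through power sums. -/

namespace Pool.Agent.Lib.MP_961538_co

open Polynomial

lemma newton3 (R : Multiset ℝ) :
    (EE R).coeff 1 = R.sum ∧ 2 * (EE R).coeff 2 = R.sum ^ 2 - (R.map (· ^ 2)).sum ∧
      6 * (EE R).coeff 3 = R.sum ^ 3 - 3 * R.sum * (R.map (· ^ 2)).sum + 2 * (R.map (· ^ 3)).sum := by
  induction R using Multiset.induction_on with
  | empty => simp [coeff_one]
  | cons r R ih =>
    obtain ⟨h1, h2, h3⟩ := ih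
    have a1 := EE_coeff_succ r R 0
    have a2 := EE_coeff_succ r R 1
    have a3 := EE_coeff_succ r R 2
    rw [EE_coeff_zero] at a1
    simp only [Multiset.map_cons, Multiset.sum_cons]
    norm_num at a1 a2 a3
    rw [a1, a2, a3]
    refine ⟨by linarith, by linear_combination h2 + 2 * r * h1, ?_⟩
    linear_combination h3 + 3 * r * h2

lemma cube_le (R : Multiset ℝ) (h : ∀ r ∈ R, 0 < r) {σ : ℝ} (h0 : 0 ≤ σ)
    (hσ : σ ^ 2 = (R.map (· ^ 2)).sum) : (R.map (· ^ 3)).sum ≤ σ ^ 3 := by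
  have h1 : ∀ r ∈ R, r ≤ σ := by
    intro r hr
    have : r ^ 2 ≤ σ ^ 2 := by
      rw [hσ]
      refine Multiset.single_le_sum (fun x hx => ?_) _ (Multiset.mem_map_of_mem _ hr)
      obtain ⟨y, -, rfl⟩ := Multiset.mem_map.1 hx
      positivity
    exact (abs_le_of_sq_le_sq' this h0).2
  have h2 : (R.map (· ^ 3)).sum ≤ (R.map fun r => σ * r ^ 2).sum :=
    Multiset.sum_map_le_sum_map _ _ (fun r hr => by
      have := h1 r hr
      have := h r hr
      nlinarith [mul_le_mul_of_nonneg_right (h1 r hr) (sq_nonneg r)])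
  rw [Multiset.sum_map_mul_left, ← hσ] at h2
  linarith

lemma k2int (a b D p Q : ℤ) (hb : 0 ≤ b) (hab : b < a) (hD1 : 1 ≤ D) (hD3 : D ≤ 3)
    (hp : p = (a + D) ^ 2 - a ^ 2 + a - 2 * b)
    (hQ : Q = a * (a - 1) * (a - 2) + 3 * b * (b - 1) + 6 - (a + D) ^ 3 + 3 * (a + D) * p)
    (h25 : 5 * (a + D) ≤ 2 * p) (hy : ∀ y : ℤ, 0 < y → y * Q ≤ p ^ 2 + p * y ^ 2)
    (hs : Q ≤ 0 ∨ Q ^ 2 ≤ 4 * p ^ 3) : False := by
  interval_cases D
  · have := hy 4 (by norm_num)
    subst hp hQ
    nlinarith [mul_nonneg (show 0 ≤ a by omega) (show 0 ≤ a - 4 * b - 3 by nlinarith),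
      sq_nonneg (2 * b - 1)]
  · by_cases h5 : 5 ≤ a
    · have := hy 5 (by norm_num)
      subst hp hQ
      by_cases h3 : 3 ≤ b
      · nlinarith [mul_nonneg (show 0 ≤ a - b by omega) (show 0 ≤ a - b - 1 by omega),
          sq_nonneg (b - 3)]
      · nlinarith [sq_nonneg (a - b - 3), sq_nonneg (b - 1), show 0 ≤ a - b - 3 by omega]
    · have h1 : 1 ≤ a := by omega
      subst hp hQ
      interval_cases a <;> interval_cases b <;> omega
  · by_cases h5 : 3 ≤ a
    · have := hy 6 (by norm_num)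
      subst hp hQ
      nlinarith [sq_nonneg (a - b), sq_nonneg (a - 3), sq_nonneg (a - 2 * b), sq_nonneg (b - 1),
        sq_nonneg (a - b - 1), sq_nonneg (b - 2)]
    · have h1 : 1 ≤ a := by omega
      subst hp hQ
      interval_cases a <;> interval_cases b <;> omega

lemma k2big (a b : ℤ) (hb : 0 ≤ b) (hab : b < a) :
    (a ^ 2 - a + 2 * b) ^ 2 < (a + 4) * (a * (a - 1) * (a - 2) + 3 * b * (b - 1) + 6) := by
  by_cases h : 7 ≤ a
  · nlinarith [mul_nonneg (show 0 ≤ a by omega) (sq_nonneg (3 * b - 2 * a)),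
      mul_nonneg (sq_nonneg a) (show 0 ≤ a - 7 by omega), sq_nonneg b, sq_nonneg a,
      mul_nonneg hb (show 0 ≤ a by omega)]
  · have h1 : 1 ≤ a := by omega
    interval_cases a <;> interval_cases b <;> norm_num

lemma choose3 (a : ℕ) : 6 * (a.choose 3 : ℝ) = a * (a - 1) * (a - 2) := by
  induction a with
  | zero => simp
  | succ a ih =>
    rw [Nat.choose_succ_succ' a 2]
    push_cast
    rw [Nat.cast_choose_two]
    norm_num
    linarith

lemma level2 (n E m : ℕ) (σ p3 : ℝ) (h0 : 0 ≤ σ) (h3 : p3 ≤ σ ^ 3) (hE : 2 * (E : ℝ) = n ^ 2 - σ ^ 2)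
    (hm : 6 * (m : ℝ) = n ^ 3 - 3 * n * σ ^ 2 + 2 * p3) (h25 : 5 / 2 * (n : ℝ) ≤ σ ^ 2) :
    sh 3 m ≤ E := by
  obtain ⟨a, b, hab, rfl⟩ : ∃ a b, b < a ∧ E = a.choose 2 + b := by
    by_cases h : E = 0
    · exact ⟨1, 0, by omega, by simp [h]⟩
    · obtain ⟨a, y, -, hy, hh⟩ := decomp 1 E h
      exact ⟨a, y, by simpa using hy, hh⟩
  have main : m ≤ a.choose 3 + b.choose 2 := by
    by_contra hc
    have hc' : ((a.choose 3 + b.choose 2 + 1 : ℕ) : ℝ) ≤ m := by exact_mod_cast (by omega)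
    have c3 := choose3 a
    push_cast at hc' hE
    rw [Nat.cast_choose_two] at hc' hE
    have rab : (b : ℝ) + 1 ≤ a := by exact_mod_cast hab
    have rb : (0 : ℝ) ≤ b := by positivity
    have rn : (0 : ℝ) ≤ n := by positivity
    have hlow : (a : ℝ) * (a - 1) * (a - 2) + 3 * b * (b - 1) + 6 ≤ 6 * m := by linarith
    have hm1 : (1 : ℝ) ≤ m := by exact_mod_cast (by omega : 1 ≤ m)
    have hup : 6 * (m : ℝ) ≤ (n - σ) ^ 2 * (n + 2 * σ) := by linarith
    have hn0 : 1 ≤ n := by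
      by_contra h
      obtain rfl : n = 0 := by omega
      have : σ ^ 2 ≤ 0 := by nlinarith
      have : σ = 0 := by nlinarith
      subst this
      norm_num at hup
      linarith
    have rn1 : (1 : ℝ) ≤ n := by exact_mod_cast hn0
    have han : a + 1 ≤ n := by
      by_contra h
      have : (n : ℝ) ≤ a := by exact_mod_cast (by omega : n ≤ a)
      nlinarith
    by_cases h4 : a + 4 ≤ n
    · have k := k2big a b (by positivity) (by exact_mod_cast hab)
      have k' : (((a : ℝ)) ^ 2 - a + 2 * b) ^ 2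
          < (a + 4) * (a * (a - 1) * (a - 2) + 3 * b * (b - 1) + 6) := by exact_mod_cast k
      have r4 : (a : ℝ) + 4 ≤ n := by exact_mod_cast h4
      have e1 : (a : ℝ) ^ 2 - a + 2 * b = (n - σ) * (n + σ) := by linarith
      rw [e1] at k'
      have f1 := mul_le_mul_of_nonneg_left hlow (show (0 : ℝ) ≤ a + 4 by positivity)
      have f2 := mul_le_mul_of_nonneg_right r4 (show (0 : ℝ) ≤ 6 * m by positivity)
      have f3 := mul_le_mul_of_nonneg_left hup rn
      nlinarith [mul_nonneg (sq_nonneg (n - σ)) (sq_nonneg σ)]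
    · obtain ⟨D, rfl⟩ : ∃ D, n = a + D := ⟨n - a, by omega⟩
      push_cast at *
      have hp : σ ^ 2 = ((((a : ℤ) + D) ^ 2 - a ^ 2 + a - 2 * b : ℤ) : ℝ) := by push_cast; linarith
      generalize hpp : (((a : ℤ) + D) ^ 2 - a ^ 2 + a - 2 * b : ℤ) = p at hp
      have hQ : ((((a : ℤ) * (a - 1) * (a - 2) + 3 * b * (b - 1) + 6 - (a + D) ^ 3
          + 3 * (a + D) * p : ℤ)) : ℝ) ≤ 2 * σ * p := by
        push_cast
        rw [← hp]; linarith
      generalize hQQ : ((a : ℤ) * (a - 1) * (a - 2) + 3 * b * (b - 1) + 6 - (a + D) ^ 3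
          + 3 * (a + D) * p : ℤ) = Q at hQ
      have p0 : (0 : ℝ) ≤ p := by rw [← hp]; positivity
      refine k2int a b D p Q (by positivity) (by exact_mod_cast hab) (by omega) (by omega)
        hpp.symm hQQ.symm ?_ (fun y hy => ?_) ?_
      · have : 5 * ((a : ℝ) + D) ≤ 2 * p := by linarith
        exact_mod_cast this
      · have ry : (0 : ℝ) < y := by exact_mod_cast hy
        have : (y : ℝ) * Q ≤ p ^ 2 + p * y ^ 2 := by
          have f1 := mul_le_mul_of_nonneg_left hQ ry.le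
          have f2 := mul_nonneg p0 (sq_nonneg (σ - y))
          have f3 : (p : ℝ) * σ ^ 2 = p ^ 2 := by rw [hp]; ring
          nlinarith
        exact_mod_cast this
      · by_cases hq : Q ≤ 0
        · exact Or.inl hq
        · right
          have rq : (0 : ℝ) ≤ Q := by exact_mod_cast (by omega : 0 ≤ Q)
          have : (Q : ℝ) ^ 2 ≤ 4 * p ^ 3 := by
            have f1 := pow_le_pow_left₀ rq hQ 2
            have f3 : (2 * σ * (p : ℝ)) ^ 2 = 4 * p ^ 3 := by
              rw [mul_pow, mul_pow, hp]; ring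
            linarith
          exact_mod_cast this
  refine (sh_mono 3 main).trans ?_
  by_cases h : 3 ≤ a
  · rw [sh_rec (k := 2) (by omega) (Nat.choose_le_choose _ hab.le) (Or.inl h)]
    have := sh_le (k := 1) (a := b) le_rfl
    simp at this
    omega
  · rw [Nat.choose_eq_zero_of_lt (by omega), Nat.choose_eq_zero_of_lt (by omega : b < 2)]
    simp

theorem good_KK (hP : Adm fun r => r ^ 2 - 5 / 2 * r)
    (hC : ∀ k n, 3 ≤ k → 1 ≤ n → Cover k n) (R : Multiset ℝ) (hR : Good R) (e : ℕ → ℕ)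
    (he : ∀ j, (e j : ℝ) = (EE R).coeff j) : KKseq e := by
  intro k
  obtain ⟨h1, h2, h3⟩ := newton3 R
  have h4 := hP R hR
  rw [Multiset.sum_map_sub, Multiset.sum_map_mul_left, Multiset.map_id'] at h4
  rw [← he] at h1 h2 h3
  have hpos : ∀ r ∈ R, 0 < r := fun r hr => (hR.1 r hr).1
  have hn : (0 : ℝ) ≤ e 1 := by positivity
  rw [← h1] at h2 h3 h4
  by_cases hk : 3 ≤ k
  · exact core R hR e he k (by omega) (fun n hn => hC k n hk hn)
  have hk' : k < 3 := by omega
  interval_cases k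
  · have a1 : e 0 = 1 := by
      have := he 0
      rw [EE_coeff_zero] at this
      exact_mod_cast this
    have := sh_le (k := 0) (a := e (0 + 1)) (y := e (0 + 1)) (by simp)
    rw [a1]; simpa using this
  · have a1 : e (1 + 1) ≤ (e 1).choose (1 + 1) := by
      have : (e 2 : ℝ) ≤ ((e 1).choose 2 : ℕ) := by rw [Nat.cast_choose_two]; linarith
      exact_mod_cast this
    simpa using sh_le a1
  · have p0 : 0 ≤ (R.map (· ^ 2)).sum := by linarith
    have hσ := Real.sq_sqrt p0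
    exact level2 (e 1) (e 2) (e 3) _ _ (Real.sqrt_nonneg _)
      (cube_le R hpos (Real.sqrt_nonneg _) hσ) (by rw [hσ]; exact h2) (by rw [hσ]; exact h3)
      (by rw [hσ]; linarith)

end Pool.Agent.Lib.MP_961538_co
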